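import Pool.Agent.Lib.MP_ccbbf6_gt.Cls.Mod

/-!
# Q6a: from the distance formula to the models: generalities, spheres, projective spaces
-/

set_option autoImplicit false

open Set Filter Topology Metric Real
open scoped RealInnerProductSpace LinearAlgebra.Projectivization

noncomputable section

namespace Blaschke

/-- Two quotients of the same set with the same fibres. -/
theorem exists_equiv_of_fibres {B M X : Type*} {e : B → M} {u : B → X} (he : Function.Surjective e)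
    (hu : Function.Surjective u) (h : ∀ a b, e a = e b ↔ u a = u b) : ∃ f : M ≃ X, ∀ a, f (e a) = u a := by
  choose g hg using he
  choose k hk using hu
  refine ⟨⟨fun x => u (g x), fun y => e (k y), fun x => ?_, fun y => ?_⟩, fun a => ?_⟩
  · change e (k (u (g x))) = x
    rw [(h (k (u (g x))) (g x)).2 (hk _), hg]
  · change u (g (e (k y))) = y
    rw [(h (g (e (k y))) (k y)).1 (hg _), hk]
  · change u (g (e a)) = u a
    exact (h _ _).1 (hg _)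

/-- polar coordinates -/
abbrev Pol (n : ℕ) : Type := {z : ℝ × EuclideanSpace ℝ (Fin n) // z.1 ∈ Icc 0 π ∧ ‖z.2‖ = 1}

/-- the distance formula -/
def DistForm {n : ℕ} {M : Type*} [MetricSpace M] (N : EuclideanSpace ℝ (Fin n) → EuclideanSpace ℝ (Fin n) → ℝ)
    (e : EuclideanSpace ℝ (Fin n) → M) : Prop :=
  ∀ v w : EuclideanSpace ℝ (Fin n), ‖v‖ = 1 → ‖w‖ = 1 → ∀ s ∈ Icc 0 π, ∀ t ∈ Icc 0 π,
    Real.cos (dist (e (s • v)) (e (t • w)) / 2) ^ 2 =
      (Real.cos (s / 2) * Real.cos (t / 2) + Real.sin (s / 2) * Real.sin (t / 2) * ⟪v, w⟫) ^ 2 +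
        (Real.sin (s / 2) * Real.sin (t / 2)) ^ 2 * (N v w - ⟪v, w⟫ ^ 2)

variable {n : ℕ} {M : Type*} [MetricSpace M] {e : EuclideanSpace ℝ (Fin n) → M}

theorem pol_surj (hn : 0 < n) (hs : ∀ x, ∃ ξ, ‖ξ‖ ≤ π ∧ e ξ = x) :
    Function.Surjective fun z : Pol n => e (z.1.1 • z.1.2) := by
  intro x
  obtain ⟨ξ, h1, h2⟩ := hs x
  rcases eq_or_ne ξ 0 with rfl | h0
  · have : Nonempty (Fin n) := ⟨⟨0, hn⟩⟩
    obtain ⟨v, hv⟩ := exists_norm_eq (EuclideanSpace ℝ (Fin n)) zero_le_one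
    exact ⟨⟨(0, v), ⟨le_rfl, pi_pos.le⟩, hv⟩, by simpa using h2⟩
  · have h3 : ‖ξ‖ ≠ 0 := norm_ne_zero_iff.2 h0
    refine ⟨⟨(‖ξ‖, ‖ξ‖⁻¹ • ξ), ⟨norm_nonneg _, h1⟩, ?_⟩, ?_⟩
    · rw [norm_smul, norm_inv, norm_norm, inv_mul_cancel₀ h3]
    · change e (‖ξ‖ • ‖ξ‖⁻¹ • ξ) = x
      rw [smul_smul, mul_inv_cancel₀ h3, one_smul, h2]

theorem eq_iff_cos (hd : ∀ x y : M, dist x y ≤ π) (x y : M) : x = y ↔ Real.cos (dist x y / 2) ^ 2 = 1 := by
  constructor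
  · rintro rfl
    simp
  · intro h
    have h0 : 0 ≤ dist x y := dist_nonneg
    have h1 := hd x y
    have h2 : 0 ≤ Real.cos (dist x y / 2) := Real.cos_nonneg_of_mem_Icc ⟨by linarith [pi_pos], by linarith⟩
    have h3 : Real.cos (dist x y / 2) = 1 := by nlinarith
    have h4 : dist x y / 2 = 0 := by
      refine Real.injOn_cos ⟨by linarith, by linarith [pi_pos]⟩ ⟨le_rfl, pi_pos.le⟩ ?_
      rw [h3, Real.cos_zero]
    exact dist_eq_zero.1 (by linarith)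

/-! ## spheres -/

/-- `κ = n - 1` -/
theorem isSphere_of (hn : 0 < n) (hd : ∀ x y : M, dist x y ≤ π) (hs : ∀ x, ∃ ξ, ‖ξ‖ ≤ π ∧ e ξ = x)
    {N : EuclideanSpace ℝ (Fin n) → EuclideanSpace ℝ (Fin n) → ℝ} (hD : DistForm N e)
    (hN : ∀ v w, ‖v‖ = 1 → ‖w‖ = 1 → N v w = 1) : IsSphere n M := by
  have hfin : Module.finrank ℝ (WithLp 2 (ℝ × EuclideanSpace ℝ (Fin n))) = n + 1 := by
    rw [(WithLp.linearEquiv 2 ℝ (ℝ × EuclideanSpace ℝ (Fin n))).finrank_eq, Module.finrank_prod, Module.finrank_self,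
      finrank_euclideanSpace_fin]
    omega
  have hfd : FiniteDimensional ℝ (WithLp 2 (ℝ × EuclideanSpace ℝ (Fin n))) := Module.finite_of_finrank_pos (by omega)
  let ι : WithLp 2 (ℝ × EuclideanSpace ℝ (Fin n)) ≃ₗᵢ[ℝ] EuclideanSpace ℝ (Fin (n + 1)) :=
    ((stdOrthonormalBasis ℝ (WithLp 2 (ℝ × EuclideanSpace ℝ (Fin n)))).reindex (finCongr hfin)).repr
  let U : ℝ → EuclideanSpace ℝ (Fin n) → WithLp 2 (ℝ × EuclideanSpace ℝ (Fin n)) := fun s v =>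
    WithLp.toLp 2 (Real.cos s, Real.sin s • v)
  have hU : ∀ s t v w, ⟪U s v, U t w⟫ = Real.cos s * Real.cos t + Real.sin s * Real.sin t * ⟪v, w⟫ := by
    intro s t v w
    rw [WithLp.prod_inner_apply]
    change ⟪Real.cos s, Real.cos t⟫ + ⟪Real.sin s • v, Real.sin t • w⟫ = _
    rw [inner_smul_left, inner_smul_right, real_inner_eq_re_inner]
    simp
    ring
  have hU1 : ∀ s v, ‖v‖ = 1 → ‖U s v‖ = 1 := by
    intro s v hv
    have h1 : ‖U s v‖ ^ 2 = 1 := by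
      rw [← real_inner_self_eq_norm_sq, hU, real_inner_self_eq_norm_sq, hv]
      have := Real.cos_sq_add_sin_sq s
      nlinarith
    exact (pow_eq_one_iff_of_nonneg (norm_nonneg _) two_ne_zero).1 h1
  let u : Pol n → sphere (0 : EuclideanSpace ℝ (Fin (n + 1))) 1 := fun z =>
    ⟨ι (U z.1.1 z.1.2), by rw [mem_sphere_zero_iff_norm, ι.norm_map, hU1 _ _ z.2.2]⟩
  have hcos : ∀ z z' : Pol n, Real.cos (dist (e (z.1.1 • z.1.2)) (e (z'.1.1 • z'.1.2))) =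
      ⟪(u z : EuclideanSpace ℝ (Fin (n + 1))), u z'⟫ := by
    intro z z'
    have h1 := hD z.1.2 z'.1.2 z.2.2 z'.2.2 z.1.1 z.2.1 z'.1.1 z'.2.1
    rw [hN _ _ z.2.2 z'.2.2] at h1
    change _ = ⟪ι (U z.1.1 z.1.2), ι (U z'.1.1 z'.1.2)⟫
    rw [ι.inner_map_map, hU]
    have h2 : dist (e (z.1.1 • z.1.2)) (e (z'.1.1 • z'.1.2)) = 2 * (dist (e (z.1.1 • z.1.2)) (e (z'.1.1 • z'.1.2)) / 2) := by
      ring
    have h3 : z.1.1 = 2 * (z.1.1 / 2) := by ring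
    have h4 : z'.1.1 = 2 * (z'.1.1 / 2) := by ring
    have e1 : Real.cos z.1.1 = 2 * Real.cos (z.1.1 / 2) ^ 2 - 1 := by
      conv_lhs => rw [h3]
      rw [Real.cos_two_mul]
    have e2 : Real.cos z'.1.1 = 2 * Real.cos (z'.1.1 / 2) ^ 2 - 1 := by
      conv_lhs => rw [h4]
      rw [Real.cos_two_mul]
    have e3 : Real.sin z.1.1 = 2 * Real.sin (z.1.1 / 2) * Real.cos (z.1.1 / 2) := by
      conv_lhs => rw [h3]
      rw [Real.sin_two_mul]
    have e4 : Real.sin z'.1.1 = 2 * Real.sin (z'.1.1 / 2) * Real.cos (z'.1.1 / 2) := by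
      conv_lhs => rw [h4]
      rw [Real.sin_two_mul]
    rw [h2, Real.cos_two_mul, h1, e1, e2, e3, e4]
    have f1 := Real.sin_sq_add_cos_sq (z.1.1 / 2)
    have f2 := Real.sin_sq_add_cos_sq (z'.1.1 / 2)
    have g1 : Real.sin (z.1.1 / 2) ^ 2 = 1 - Real.cos (z.1.1 / 2) ^ 2 := by linarith
    have g2 : Real.sin (z'.1.1 / 2) ^ 2 = 1 - Real.cos (z'.1.1 / 2) ^ 2 := by linarith
    linear_combination (2 * Real.sin (z'.1.1 / 2) ^ 2) * g1 + (2 * (1 - Real.cos (z.1.1 / 2) ^ 2)) * g2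
  have hi : ∀ a b : sphere (0 : EuclideanSpace ℝ (Fin (n + 1))) 1, a = b ↔
      ⟪(a : EuclideanSpace ℝ (Fin (n + 1))), b⟫ = 1 := by
    intro a b
    have ha : ‖(a : EuclideanSpace ℝ (Fin (n + 1)))‖ = 1 := mem_sphere_zero_iff_norm.1 a.2
    have hb : ‖(b : EuclideanSpace ℝ (Fin (n + 1)))‖ = 1 := mem_sphere_zero_iff_norm.1 b.2
    rw [Subtype.ext_iff]
    exact (inner_eq_one_iff_of_norm_eq_one ha hb).symm
  have huniq : ∀ z z' : Pol n, e (z.1.1 • z.1.2) = e (z'.1.1 • z'.1.2) ↔ u z = u z' := by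
    intro z z'
    rw [hi, ← hcos]
    constructor
    · intro h
      rw [h, dist_self, Real.cos_zero]
    · intro h
      have h0 : 0 ≤ dist (e (z.1.1 • z.1.2)) (e (z'.1.1 • z'.1.2)) := dist_nonneg
      exact dist_eq_zero.1 (Real.injOn_cos ⟨h0, hd _ _⟩ ⟨le_rfl, pi_pos.le⟩ (by rw [h, Real.cos_zero]))
  have husurj : Function.Surjective u := by
    rintro ⟨y, hy⟩
    rw [mem_sphere_zero_iff_norm] at hy
    obtain ⟨⟨a, w⟩, hx⟩ := (WithLp.equiv 2 (ℝ × EuclideanSpace ℝ (Fin n))).symm.surjective (ι.symm y)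
    have h1 : a ^ 2 + ‖w‖ ^ 2 = 1 := by
      have h2 := WithLp.prod_norm_sq_eq_of_L2 (WithLp.toLp 2 (a, w))
      have h3 : ‖WithLp.toLp 2 (a, w)‖ = 1 := by
        have : ‖ι.symm y‖ = 1 := by rw [ι.symm.norm_map, hy]
        rw [← hx] at this
        exact this
      rw [h3] at h2
      have h4 : (1 : ℝ) ^ 2 = ‖a‖ ^ 2 + ‖w‖ ^ 2 := h2
      rw [Real.norm_eq_abs, sq_abs] at h4
      linarith
    have ha : a ∈ Icc (-1 : ℝ) 1 := abs_le.1 ((sq_le_one_iff_abs_le_one a).1 (by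
      have := sq_nonneg ‖w‖
      linarith))
    have hcosa : Real.cos (Real.arccos a) = a := Real.cos_arccos ha.1 ha.2
    have hsina : Real.sin (Real.arccos a) = ‖w‖ := by
      rw [Real.sin_arccos, show 1 - a ^ 2 = ‖w‖ ^ 2 by linarith, Real.sqrt_sq (norm_nonneg w)]
    have key : ∀ v : EuclideanSpace ℝ (Fin n), ‖v‖ = 1 → ‖w‖ • v = w → ∃ z : Pol n, u z = ⟨y, mem_sphere_zero_iff_norm.2 hy⟩ := by
      intro v hv hvw
      refine ⟨⟨(Real.arccos a, v), ⟨Real.arccos_nonneg a, Real.arccos_le_pi a⟩, hv⟩, Subtype.ext ?_⟩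
      change ι (WithLp.toLp 2 (Real.cos (Real.arccos a), Real.sin (Real.arccos a) • v)) = y
      rw [hcosa, hsina, hvw]
      have h2 : WithLp.toLp 2 (a, w) = ι.symm y := hx
      rw [h2, ι.apply_symm_apply]
    rcases eq_or_ne w 0 with rfl | hw
    · have : Nonempty (Fin n) := ⟨⟨0, hn⟩⟩
      obtain ⟨v, hv⟩ := exists_norm_eq (EuclideanSpace ℝ (Fin n)) zero_le_one
      exact key v hv (by rw [norm_zero, zero_smul])
    · have h2 : ‖w‖ ≠ 0 := norm_ne_zero_iff.2 hw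
      exact key (‖w‖⁻¹ • w) (by rw [norm_smul, norm_inv, norm_norm, inv_mul_cancel₀ h2])
        (by rw [smul_smul, mul_inv_cancel₀ h2, one_smul])
  obtain ⟨f, hf⟩ := exists_equiv_of_fibres (pol_surj hn hs) husurj huniq
  refine ⟨f, fun x y => ⟨hd x y, ?_⟩⟩
  obtain ⟨z, rfl⟩ := pol_surj hn hs x
  obtain ⟨z', rfl⟩ := pol_surj hn hs y
  have h1 := hf z
  have h2 := hf z'
  simp only at h1 h2 ⊢
  rw [h1, h2]
  exact hcos z z'

end Blaschke
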