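import Pool.Agent.Lib.MP_ccbbf6_gt.Geo.SM0

/-!
# QuadA: second order expansions along rays (helper77)
-/

set_option autoImplicit false

open Set Filter Topology Metric Real Asymptotics
open scoped ContDiff RealInnerProductSpace

noncomputable section

namespace Pool.Agent.Lib.MP_ccbbf6_gt.Geo

/-- `sin t / t = 1 - t² / 6 + o(t²)` -/
theorem tendsto_sinc : Tendsto (fun t : ℝ => (1 - Real.sin t / t) / t ^ 2) (𝓝[>] 0) (𝓝 (1 / 6)) := by
  have h1 : Tendsto (fun t : ℝ => (5 / 96 : ℝ) * t) (𝓝[>] 0) (𝓝 0) := by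
    have : Tendsto (fun t : ℝ => (5 / 96 : ℝ) * t) (𝓝 0) (𝓝 ((5 / 96 : ℝ) * 0)) :=
      (continuous_const.mul continuous_id).tendsto 0
    rw [mul_zero] at this
    exact this.mono_left nhdsWithin_le_nhds
  refine tendsto_iff_norm_sub_tendsto_zero.2 (squeeze_zero' (Eventually.of_forall fun _ => norm_nonneg _) ?_ h1)
  filter_upwards [Ioo_mem_nhdsGT (zero_lt_one' ℝ)] with t ht
  have ht0 := ht.1
  have ht1 := ht.2
  have h2 := Real.sin_bound (x := t) (by rw [abs_of_pos ht0]; exact ht1.le)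
  rw [abs_of_pos ht0] at h2
  have h3 : (1 - Real.sin t / t) / t ^ 2 - 1 / 6 = -(Real.sin t - (t - t ^ 3 / 6)) / t ^ 3 := by
    field_simp
    ring
  rw [h3, Real.norm_eq_abs, abs_div, abs_neg, abs_of_pos (by positivity : (0 : ℝ) < t ^ 3), div_le_iff₀ (by positivity)]
  have h4 : t ^ 4 * t ≤ t ^ 4 * 1 := mul_le_mul_of_nonneg_left ht1.le (by positivity)
  calc |Real.sin t - (t - t ^ 3 / 6)| ≤ t ^ 5 / 100 := h2
    _ ≤ 5 / 96 * t * t ^ 3 := by nlinarith

theorem tendsto_sinc_one : Tendsto (fun t : ℝ => Real.sin t / t) (𝓝[>] 0) (𝓝 1) := by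
  have h1 : Tendsto (fun t : ℝ => t ^ 2) (𝓝[>] (0 : ℝ)) (𝓝 0) := by
    have : Tendsto (fun t : ℝ => t ^ 2) (𝓝 0) (𝓝 ((0 : ℝ) ^ 2)) := (continuous_id.pow 2).tendsto 0
    rw [zero_pow two_ne_zero] at this
    exact this.mono_left nhdsWithin_le_nhds
  have h2 := tendsto_const_nhds (x := (1 : ℝ)) |>.sub (tendsto_sinc.mul h1)
  rw [mul_zero, sub_zero] at h2
  refine h2.congr' ?_
  filter_upwards [self_mem_nhdsWithin] with t ht
  have ht0 : t ≠ 0 := ne_of_gt ht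
  field_simp
  ring

/-- `(sin t / t)² = 1 - t² / 3 + o(t²)` -/
theorem tendsto_sinc_sq : Tendsto (fun t : ℝ => (1 - (Real.sin t / t) ^ 2) / t ^ 2) (𝓝[>] 0) (𝓝 (1 / 3)) := by
  have h1 := tendsto_sinc.mul (tendsto_const_nhds (x := (1 : ℝ)) |>.add tendsto_sinc_one)
  have h2 : (1 / 6 : ℝ) * (1 + 1) = 1 / 3 := by norm_num
  rw [h2] at h1
  refine h1.congr fun t => ?_
  ring

/-- `(2 sin (t / 2) / t)² = 1 - t² / 12 + o(t²)` -/
theorem tendsto_sinc_half_sq :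
    Tendsto (fun t : ℝ => (1 - 4 * Real.sin (t / 2) ^ 2 / t ^ 2) / t ^ 2) (𝓝[>] 0) (𝓝 (1 / 12)) := by
  have h0 : Tendsto (fun t : ℝ => t / 2) (𝓝[>] 0) (𝓝[>] 0) := by
    refine tendsto_nhdsWithin_iff.2 ⟨?_, ?_⟩
    · have : Tendsto (fun t : ℝ => t / 2) (𝓝 0) (𝓝 ((0 : ℝ) / 2)) := (continuous_id.div_const 2).tendsto 0
      rw [zero_div] at this
      exact this.mono_left nhdsWithin_le_nhds
    · filter_upwards [self_mem_nhdsWithin] with t ht
      exact half_pos (show (0 : ℝ) < t from ht)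
  have h1 := (tendsto_sinc_sq.comp h0).mul_const (1 / 4)
  have h2 : (1 / 3 : ℝ) * (1 / 4) = 1 / 12 := by norm_num
  rw [h2] at h1
  refine h1.congr' ?_
  filter_upwards [self_mem_nhdsWithin] with t ht
  have ht0 : t ≠ 0 := ne_of_gt ht
  simp only [Function.comp_apply]
  field_simp
  ring

variable {V : Type*} [NormedAddCommGroup V] [NormedSpace ℝ V]

/-- If `h` is `C²` at the origin and `(h 0 - h (t v)) / t² → c` then `D²h(0)(v, v) = - 2 c`. -/
theorem second_of_ray {h : V → ℝ} (hh : ContDiffAt ℝ 2 h 0) {v : V} {c : ℝ}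
    (hc : Tendsto (fun t : ℝ => (h 0 - h (t • v)) / t ^ 2) (𝓝[>] 0) (𝓝 c)) :
    fderiv ℝ (fderiv ℝ h) 0 v v = -2 * c := by
  obtain ⟨G, hG⟩ : ∃ G : V → ℝ, G = fun x => h x - h 0 - fderiv ℝ h 0 x := ⟨_, rfl⟩
  have hGc : ContDiffAt ℝ 2 G 0 := by
    rw [hG]
    exact (hh.sub contDiffAt_const).sub (fderiv ℝ h 0).contDiff.contDiffAt
  have hG0 : G 0 = 0 := by
    rw [hG]
    simp
  have hd : fderiv ℝ G =ᶠ[𝓝 0] fun x => fderiv ℝ h x - fderiv ℝ h 0 := by
    filter_upwards [sm0_ev hh] with x hx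
    rw [hG]
    exact ((hx.hasFDerivAt.sub_const (h 0)).sub (fderiv ℝ h 0).hasFDerivAt).fderiv
  have hG1 : fderiv ℝ G 0 = 0 := by
    rw [hd.self_of_nhds]
    exact sub_self _
  have hG2 : fderiv ℝ (fderiv ℝ G) 0 = fderiv ℝ (fderiv ℝ h) 0 := by
    rw [hd.fderiv_eq]
    exact ((sm0_d2 hh).hasFDerivAt.sub_const _).fderiv
  have hT := sm0_taylor hGc hG0 hG1
  rw [hG2] at hT
  set D := fderiv ℝ (fderiv ℝ h) 0 with hD
  -- along the ray
  have hray : Tendsto (fun t : ℝ => t • v) (𝓝[>] 0) (𝓝 0) := by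
    have : Tendsto (fun t : ℝ => t • v) (𝓝 0) (𝓝 ((0 : ℝ) • v)) := (continuous_id.smul continuous_const).tendsto 0
    rw [zero_smul] at this
    exact this.mono_left nhdsWithin_le_nhds
  have h1 : (fun t : ℝ => G (t • v) - D (t • v) (t • v) / 2) =o[𝓝[>] 0] fun t : ℝ => t ^ 2 := by
    refine (hT.comp_tendsto hray).trans_isBigO ?_
    refine IsBigO.of_bound (‖v‖ ^ 2) (Eventually.of_forall fun t => ?_)
    simp only [Function.comp_apply]
    rw [norm_smul, Real.norm_eq_abs, Real.norm_eq_abs, Real.norm_eq_abs, abs_of_nonneg (by positivity : (0 : ℝ) ≤ (|t| * ‖v‖) ^ 2),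
      mul_pow, abs_pow]
    exact le_of_eq (mul_comm _ _)
  have h2 : Tendsto (fun t : ℝ => (G (t • v) - D (t • v) (t • v) / 2) / t ^ 2) (𝓝[>] 0) (𝓝 0) := h1.tendsto_div_nhds_zero
  have h3 : Tendsto (fun t : ℝ => fderiv ℝ h 0 v / t) (𝓝[>] 0) (𝓝 (-c - D v v / 2)) := by
    have h4 := (hc.add h2).neg.sub_const (D v v / 2)
    rw [add_zero] at h4
    refine h4.congr' ?_
    filter_upwards [self_mem_nhdsWithin] with t ht
    have ht0 : t ≠ 0 := ne_of_gt ht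
    rw [hG]
    simp only [map_smul, smul_apply, smul_eq_mul]
    field_simp
    ring
  have h5 : fderiv ℝ h 0 v = 0 := by
    have h6 : Tendsto (fun t : ℝ => t) (𝓝[>] (0 : ℝ)) (𝓝 0) := tendsto_id.mono_left nhdsWithin_le_nhds
    have h7 := h3.mul h6
    rw [mul_zero] at h7
    have h8 : Tendsto (fun t : ℝ => fderiv ℝ h 0 v / t * t) (𝓝[>] 0) (𝓝 (fderiv ℝ h 0 v)) := by
      refine tendsto_const_nhds.congr' ?_
      filter_upwards [self_mem_nhdsWithin] with t ht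
      have ht0 : t ≠ 0 := ne_of_gt ht
      field_simp
    exact tendsto_nhds_unique h8 h7
  rw [h5] at h3
  simp only [zero_div] at h3
  have h9 := tendsto_nhds_unique h3 tendsto_const_nhds
  linarith

end Pool.Agent.Lib.MP_ccbbf6_gt.Geo
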