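import Pool.Agent.Lib.MP_ccbbf6_gt.Cl.Q2
import Pool.Agent.Lib.MP_ccbbf6_gt.Cls.QuadA
import Pool.Agent.Lib.MP_ccbbf6_gt.Geo.EQa

/-!
# Quad: `N` is a quadratic form (block Q1, helper77)

In the equality case `|D Ex (t v) w|² = |w|² - t² (N / 4 - ⟪v, w⟫² / 3 + |w|² / 12) + o(t²)`, and the left side is
smooth in `t v`.
-/

set_option autoImplicit false

open Set Filter Topology Metric Real Asymptotics
open scoped ContDiff RealInnerProductSpace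

noncomputable section

namespace Pool.Agent.Lib.MP_ccbbf6_gt.Geo

variable {n : ℕ} {M : Type*} [MetricSpace M] [CompactSpace M] (𝒜 : SDist n M)

/-- the exponential map of `p` in the chart centered at `p` -/
def SDist.EE (p : M) (ξ : Eu n) : Eu n := 𝒜.ψ p (𝒜.Ex p ξ)

theorem contDiffAt_EE (hB : Bl M) (p : M) {ξ : Eu n} (h : 𝒜.Ex p ξ ∈ (𝒜.ψ p).source) :
    ContDiffAt ℝ ∞ (𝒜.EE p) ξ := contDiffAt_Ex 𝒜 hB p ξ h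

theorem EE_zero (hB : Bl M) (p : M) : 𝒜.EE p 0 = 0 := by
  unfold SDist.EE
  rw [Ex_zero 𝒜 hB, 𝒜.zero]

theorem Ex_mem_source (hB : Bl M) (p : M) : ∀ᶠ ξ in 𝓝 (0 : Eu n), 𝒜.Ex p ξ ∈ (𝒜.ψ p).source := by
  refine (continuous_Ex 𝒜 hB p).continuousAt.eventually ((𝒜.ψ p).open_source.mem_nhds ?_)
  rw [Ex_zero 𝒜 hB]
  exact 𝒜.mem p

theorem fderiv_EE (hB : Bl M) (p : M) {ξ : Eu n} (h : 𝒜.Ex p ξ ∈ (𝒜.ψ p).source) (a : Eu n) :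
    fderiv ℝ (𝒜.EE p) ξ a = fderiv ℝ (𝒜.ch p (𝒜.Ex p ξ)) 0 (𝒜.DE p ξ a) := by
  obtain ⟨q, hq⟩ : ∃ q, q = 𝒜.Ex p ξ := ⟨_, rfl⟩
  have h1 : HasFDerivAt (𝒜.ch p (𝒜.Ex p ξ)) (fderiv ℝ (𝒜.ch p (𝒜.Ex p ξ)) 0)
      (𝒜.ψ (𝒜.Ex p ξ) (𝒜.Ex p ξ)) := by
    rw [𝒜.zero]
    exact ((contDiffAt_ch 𝒜 h).differentiableAt (by simp)).hasFDerivAt
  have h2 := h1.comp ξ (hasFDerivAt_DE 𝒜 hB p ξ)
  have h3 : 𝒜.EE p =ᶠ[𝓝 ξ] 𝒜.ch p (𝒜.Ex p ξ) ∘ fun η => 𝒜.ψ (𝒜.Ex p ξ) (𝒜.Ex p η) := by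
    have h4 : ∀ᶠ η in 𝓝 ξ, 𝒜.Ex p η ∈ (𝒜.ψ (𝒜.Ex p ξ)).source :=
      (continuous_Ex 𝒜 hB p).continuousAt.eventually ((𝒜.ψ (𝒜.Ex p ξ)).open_source.mem_nhds (𝒜.mem _))
    filter_upwards [h4] with η hη
    simp only [Function.comp_apply, SDist.ch, SDist.EE]
    rw [(𝒜.ψ (𝒜.Ex p ξ)).left_inv hη]
  rw [(h2.congr_of_eventuallyEq h3).fderiv]
  rfl

/-- the metric in the chart centered at `p` -/
theorem inner_DE (hB : Bl M) (p : M) : ∀ᶠ ξ in 𝓝 (0 : Eu n), ∀ a b : Eu n, ⟪𝒜.DE p ξ a, 𝒜.DE p ξ b⟫ =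
    -fderiv ℝ (fderiv ℝ (𝒜.F p p)) (𝒜.EE p ξ, 𝒜.EE p ξ) (fderiv ℝ (𝒜.EE p) ξ a, 0) (0, fderiv ℝ (𝒜.EE p) ξ b) := by
  have h1 : Tendsto (fun ξ => (𝒜.EE p ξ, 𝒜.EE p ξ)) (𝓝 (0 : Eu n)) (𝓝 (0, 0)) := by
    have h2 : Tendsto (𝒜.EE p) (𝓝 0) (𝓝 0) := by
      have := (contDiffAt_EE 𝒜 hB p (ξ := 0) (by rw [Ex_zero 𝒜 hB]; exact 𝒜.mem p)).continuousAt.tendsto
      rwa [EE_zero 𝒜 hB] at this
    exact h2.prodMk_nhds h2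
  filter_upwards [h1.eventually (F_diag_eventually 𝒜 p), Ex_mem_source 𝒜 hB p] with ξ h2 h3 a b
  have h4 := D2F_ch 𝒜 (p := 𝒜.Ex p ξ) (q := 𝒜.Ex p ξ) h3 h3 (h2.of_le two_le_infty) (𝒜.DE p ξ a) (𝒜.DE p ξ b)
  rw [D2F_diag, ← fderiv_EE 𝒜 hB p h3, ← fderiv_EE 𝒜 hB p h3] at h4
  have h5 : ((𝒜.DE p ξ a, (0 : Eu n)).1 - (𝒜.DE p ξ a, (0 : Eu n)).2) = 𝒜.DE p ξ a := sub_zero _
  have h6 : (((0 : Eu n), 𝒜.DE p ξ b).1 - ((0 : Eu n), 𝒜.DE p ξ b).2) = -𝒜.DE p ξ b := zero_sub _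
  rw [h5, h6, inner_neg_right] at h4
  unfold SDist.EE at h4 ⊢
  rw [← h4, neg_neg]

theorem contDiffAt_inner_DE (hB : Bl M) (p : M) (a b : Eu n) :
    ContDiffAt ℝ 2 (fun ξ => ⟪𝒜.DE p ξ a, 𝒜.DE p ξ b⟫) 0 := by
  have h0 : 𝒜.Ex p 0 ∈ (𝒜.ψ p).source := by rw [Ex_zero 𝒜 hB]; exact 𝒜.mem p
  have hE : ContDiffAt ℝ ∞ (𝒜.EE p) 0 := contDiffAt_EE 𝒜 hB p h0
  have h1 : ContDiffAt ℝ ∞ (fderiv ℝ (fderiv ℝ (𝒜.F p p))) (𝒜.EE p 0, 𝒜.EE p 0) := by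
    rw [EE_zero 𝒜 hB]
    exact ((F_diag_eventually 𝒜 p).self_of_nhds.fderiv_right (m := ∞) (by simp)).fderiv_right (m := ∞) (by simp)
  have h2 : ContDiffAt ℝ ∞ (fun ξ => fderiv ℝ (fderiv ℝ (𝒜.F p p)) (𝒜.EE p ξ, 𝒜.EE p ξ)) 0 :=
    ContDiffAt.comp 0 h1 (hE.prodMk hE)
  have h3 : ContDiffAt ℝ ∞ (fderiv ℝ (𝒜.EE p)) 0 := hE.fderiv_right (by simp)
  have h4 : ∀ c : Eu n, ContDiffAt ℝ ∞ (fun ξ => fderiv ℝ (𝒜.EE p) ξ c) 0 := fun c => h3.clm_apply contDiffAt_const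
  have h5 : ContDiffAt ℝ ∞ (fun ξ => -fderiv ℝ (fderiv ℝ (𝒜.F p p)) (𝒜.EE p ξ, 𝒜.EE p ξ)
      (fderiv ℝ (𝒜.EE p) ξ a, 0) (0, fderiv ℝ (𝒜.EE p) ξ b)) 0 :=
    ((h2.clm_apply ((h4 a).prodMk contDiffAt_const)).clm_apply (contDiffAt_const.prodMk (h4 b))).neg
  refine (h5.of_le two_le_infty).congr_of_eventuallyEq ?_
  filter_upwards [inner_DE 𝒜 hB p] with ξ hξ
  exact hξ a b

/-- The polar form of the metric, `P v` the subspace of the directions of the minimal segments from `p` to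
`Ex p (π v)`. -/
def SDist.Polar (p : M) (P : Eu n → Submodule ℝ (Eu n)) : Prop :=
  ∀ v : Eu n, ‖v‖ = 1 → ∀ t : ℝ, 0 < t → t < π → ∀ w : Eu n, t ^ 2 * ‖𝒜.DE p (t • v) w‖ ^ 2 =
    t ^ 2 * ⟪v, w⟫ ^ 2 + Real.sin t ^ 2 * (‖(P v).starProjection w‖ ^ 2 - ⟪v, w⟫ ^ 2) +
      4 * Real.sin (t / 2) ^ 2 * (‖w‖ ^ 2 - ‖(P v).starProjection w‖ ^ 2)

omit [CompactSpace M] in
theorem SDist.Polar.eq {p : M} {P : Eu n → Submodule ℝ (Eu n)} (hP : 𝒜.Polar p P) {v : Eu n} (hv : ‖v‖ = 1) {t : ℝ}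
    (h0 : 0 < t) (h1 : t < π) (w : Eu n) : ‖𝒜.DE p (t • v) w‖ ^ 2 = ‖w‖ ^ 2 -
      ((1 - (Real.sin t / t) ^ 2) * (‖(P v).starProjection w‖ ^ 2 - ⟪v, w⟫ ^ 2) +
      (1 - 4 * Real.sin (t / 2) ^ 2 / t ^ 2) * (‖w‖ ^ 2 - ‖(P v).starProjection w‖ ^ 2)) := by
  have h2 := hP v hv t h0 h1 w
  have h3 : t ^ 2 ≠ 0 := by positivity
  have h4 : ‖𝒜.DE p (t • v) w‖ ^ 2 = (t ^ 2 * ⟪v, w⟫ ^ 2 +
      Real.sin t ^ 2 * (‖(P v).starProjection w‖ ^ 2 - ⟪v, w⟫ ^ 2) +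
      4 * Real.sin (t / 2) ^ 2 * (‖w‖ ^ 2 - ‖(P v).starProjection w‖ ^ 2)) / t ^ 2 := by
    rw [← h2]
    field_simp
  rw [h4]
  field_simp
  ring

/-- second derivative at the origin of `|D Ex w|²` -/
theorem SDist.Polar.second (hB : Bl M) {p : M} {P : Eu n → Submodule ℝ (Eu n)} (hP : 𝒜.Polar p P) {v : Eu n}
    (hv : ‖v‖ = 1) (w : Eu n) :
    fderiv ℝ (fderiv ℝ (fun ξ => ⟪𝒜.DE p ξ w, 𝒜.DE p ξ w⟫)) 0 v v =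
      -2 * (1 / 3 * (‖(P v).starProjection w‖ ^ 2 - ⟪v, w⟫ ^ 2) + 1 / 12 * (‖w‖ ^ 2 - ‖(P v).starProjection w‖ ^ 2)) := by
  have hh := contDiffAt_inner_DE 𝒜 hB p w w
  set h : Eu n → ℝ := fun ξ => ⟪𝒜.DE p ξ w, 𝒜.DE p ξ w⟫ with hdef
  set N := ‖(P v).starProjection w‖ ^ 2 with hN
  set α := ⟪v, w⟫ with hα
  have hev : ∀ᶠ t : ℝ in 𝓝[>] 0, h (t • v) = ‖w‖ ^ 2 - ((1 - (Real.sin t / t) ^ 2) * (N - α ^ 2) +
      (1 - 4 * Real.sin (t / 2) ^ 2 / t ^ 2) * (‖w‖ ^ 2 - N)) := by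
    filter_upwards [Ioo_mem_nhdsGT pi_pos] with t ht
    have h1 : h (t • v) = ‖𝒜.DE p (t • v) w‖ ^ 2 := real_inner_self_eq_norm_sq _
    rw [h1]
    exact hP.eq 𝒜 hv ht.1 ht.2 w
  have h1 : Tendsto (fun t : ℝ => ((1 - (Real.sin t / t) ^ 2) * (N - α ^ 2) +
      (1 - 4 * Real.sin (t / 2) ^ 2 / t ^ 2) * (‖w‖ ^ 2 - N)) / t ^ 2) (𝓝[>] 0)
      (𝓝 (1 / 3 * (N - α ^ 2) + 1 / 12 * (‖w‖ ^ 2 - N))) := by
    refine ((tendsto_sinc_sq.mul_const (N - α ^ 2)).add (tendsto_sinc_half_sq.mul_const (‖w‖ ^ 2 - N))).congr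
      fun t => ?_
    ring
  have hray : Tendsto (fun t : ℝ => t • v) (𝓝[>] 0) (𝓝 0) := by
    have : Tendsto (fun t : ℝ => t • v) (𝓝 0) (𝓝 ((0 : ℝ) • v)) := (continuous_id.smul continuous_const).tendsto 0
    rw [zero_smul] at this
    exact this.mono_left nhdsWithin_le_nhds
  have h2 : h 0 = ‖w‖ ^ 2 := by
    have h3 : Tendsto (fun t : ℝ => h (t • v)) (𝓝[>] 0) (𝓝 (h 0)) := hh.continuousAt.tendsto.comp hray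
    have h4 : Tendsto (fun t : ℝ => t ^ 2) (𝓝[>] (0 : ℝ)) (𝓝 0) := by
      have : Tendsto (fun t : ℝ => t ^ 2) (𝓝 0) (𝓝 ((0 : ℝ) ^ 2)) := (continuous_id.pow 2).tendsto 0
      rw [zero_pow two_ne_zero] at this
      exact this.mono_left nhdsWithin_le_nhds
    have h5 := tendsto_const_nhds (x := ‖w‖ ^ 2) |>.sub (h1.mul h4)
    rw [mul_zero, sub_zero] at h5
    refine tendsto_nhds_unique h3 (h5.congr' ?_)
    filter_upwards [hev, self_mem_nhdsWithin] with t ht ht0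
    have ht1 : t ^ 2 ≠ 0 := pow_ne_zero 2 (ne_of_gt ht0)
    rw [ht, div_mul_cancel₀ _ ht1]
  refine second_of_ray hh (h1.congr' ?_)
  filter_upwards [hev] with t ht
  rw [ht, h2]
  ring

/-- **`N` is a quadratic form** (block Q1). -/
theorem SDist.Polar.quad (hB : Bl M) {p : M} {P : Eu n → Submodule ℝ (Eu n)} (hP : 𝒜.Polar p P) (w : Eu n) :
    ∃ B : Eu n →ₗ[ℝ] Eu n →ₗ[ℝ] ℝ, (∀ x y, B x y = B y x) ∧
      ∀ v, ‖v‖ = 1 → B v v = ‖(P v).starProjection w‖ ^ 2 := by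
  have hh := contDiffAt_inner_DE 𝒜 hB p w w
  obtain ⟨D, hD⟩ : ∃ D, D = fderiv ℝ (fderiv ℝ (fun ξ => ⟪𝒜.DE p ξ w, 𝒜.DE p ξ w⟫)) 0 := ⟨_, rfl⟩
  have hsymm : ∀ x y, D x y = D y x := fun x y => by
    rw [hD]
    exact sm0_symm hh x y
  refine ⟨LinearMap.mk₂ ℝ (fun x y => -2 * D x y + 4 / 3 * (⟪x, w⟫ * ⟪y, w⟫) - 1 / 3 * ‖w‖ ^ 2 * ⟪x, y⟫) ?_ ?_ ?_ ?_,
    ?_, ?_⟩
  · intro x x' y
    simp only [map_add, add_apply, inner_add_left]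
    ring
  · intro c x y
    simp only [map_smul, smul_apply, smul_eq_mul, real_inner_smul_left]
    ring
  · intro x y y'
    simp only [map_add, inner_add_left, inner_add_right]
    ring
  · intro c x y
    simp only [map_smul, smul_eq_mul, real_inner_smul_left, real_inner_smul_right]
    ring
  · intro x y
    simp only [LinearMap.mk₂_apply]
    rw [hsymm x y, real_inner_comm x y]
    ring
  · intro v hv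
    simp only [LinearMap.mk₂_apply]
    have h1 := hP.second 𝒜 hB hv w
    rw [← hD] at h1
    rw [h1, real_inner_self_eq_norm_sq, hv]
    ring

/-- `N` as a quadratic form, general `v` -/
theorem SDist.Polar.quad' (hB : Bl M) {p : M} {P : Eu n → Submodule ℝ (Eu n)} (hP : 𝒜.Polar p P)
    (hs : ∀ (r : ℝ) (v : Eu n), 0 < r → P (r • v) = P v) (w : Eu n) :
    ∃ B : Eu n →ₗ[ℝ] Eu n →ₗ[ℝ] ℝ, (∀ x y, B x y = B y x) ∧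
      ∀ v, B v v = ‖v‖ ^ 2 * ‖(P v).starProjection w‖ ^ 2 := by
  obtain ⟨B, h1, h2⟩ := hP.quad 𝒜 hB w
  refine ⟨B, h1, fun v => ?_⟩
  by_cases hv : v = 0
  · rw [hv, map_zero, norm_zero]
    simp
  · have hn : 0 < ‖v‖ := norm_pos_iff.2 hv
    have h3 : ‖‖v‖⁻¹ • v‖ = 1 := by rw [norm_smul, norm_inv, norm_norm, inv_mul_cancel₀ hn.ne']
    have h4 := h2 _ h3
    rw [hs _ _ (inv_pos.2 hn)] at h4
    rw [← h4]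
    simp only [map_smul, LinearMap.smul_apply, smul_eq_mul]
    field_simp

omit [CompactSpace M] in
/-- from the operator form of the polar metric to `Polar` -/
theorem polar_of_norm {p : M} {P : Eu n → Submodule ℝ (Eu n)} (hmem : ∀ v, v ∈ P v)
    (hs : ∀ (r : ℝ) (v : Eu n), 0 < r → P (r • v) = P v)
    (h : ∀ x : Eu n, x ≠ 0 → ‖x‖ < π → ∀ η, ‖𝒜.DE p x η‖ =
      ‖⟪‖x‖⁻¹ • x, η⟫ • (‖x‖⁻¹ • x) +
        (Real.sin ‖x‖ / ‖x‖) • ((P x).starProjection η - ⟪‖x‖⁻¹ • x, η⟫ • (‖x‖⁻¹ • x)) +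
        (2 * Real.sin (‖x‖ / 2) / ‖x‖) • (η - (P x).starProjection η)‖) : 𝒜.Polar p P := by
  intro v hv t h0 h1 w
  have hv0 : v ≠ 0 := by
    rintro rfl
    rw [norm_zero] at hv
    exact zero_ne_one hv
  have hn : ‖t • v‖ = t := by rw [norm_smul, hv, mul_one, Real.norm_of_nonneg h0.le]
  have hu : ‖t • v‖⁻¹ • (t • v) = v := by rw [hn, smul_smul, inv_mul_cancel₀ h0.ne', one_smul]
  have h2 := h (t • v) (smul_ne_zero h0.ne' hv0) (by rw [hn]; exact h1) w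
  rw [hu, hn, hs t v h0] at h2
  rw [h2]
  obtain ⟨a, ha⟩ : ∃ a, a = (P v).starProjection w := ⟨_, rfl⟩
  have haP : a ∈ P v := by rw [ha]; exact Submodule.starProjection_apply_mem _ _
  have horth : ∀ y ∈ P v, ⟪y, w - a⟫ = 0 := fun y hy => by
    rw [ha, real_inner_comm]
    exact Submodule.starProjection_inner_eq_zero w y hy
  have h3 : ⟪v, w - a⟫ = 0 := horth v (hmem v)
  have h4 : ⟪a, w - a⟫ = 0 := horth a haP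
  have h5 : ⟪v, a⟫ = ⟪v, w⟫ := by
    rw [inner_sub_right] at h3
    linarith
  have h6 : ‖w - a‖ ^ 2 = ‖w‖ ^ 2 - ‖a‖ ^ 2 := by
    have e1 : w = a + (w - a) := by abel
    have e2 : ‖w‖ ^ 2 = ‖a‖ ^ 2 + ‖w - a‖ ^ 2 := by
      conv_lhs => rw [e1, norm_add_sq_real, h4]
      ring
    linarith
  rw [← ha]
  have h7 : ⟪v, a - ⟪v, w⟫ • v⟫ = 0 := by
    rw [inner_sub_right, real_inner_smul_right, real_inner_self_eq_norm_sq, hv, h5]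
    ring
  have h8 : ‖a - ⟪v, w⟫ • v‖ ^ 2 = ‖a‖ ^ 2 - ⟪v, w⟫ ^ 2 := by
    have e1 : ⟪a, v⟫ = ⟪v, w⟫ := by rw [real_inner_comm, h5]
    rw [norm_sub_sq_real, real_inner_smul_right, e1, norm_smul, hv, mul_one, Real.norm_eq_abs, sq_abs]
    ring
  have h9 : ⟪a - ⟪v, w⟫ • v, w - a⟫ = 0 := by
    rw [inner_sub_left, real_inner_smul_left, h3, h4]
    ring
  obtain ⟨b, hb⟩ : ∃ b, b = a - ⟪v, w⟫ • v := ⟨_, rfl⟩
  obtain ⟨d, hd⟩ : ∃ d, d = w - a := ⟨_, rfl⟩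
  rw [← hb] at h7 h8 h9 ⊢
  rw [← hd] at h3 h6 h9 ⊢
  rw [norm_add_sq_real, norm_add_sq_real, inner_add_left]
  simp only [real_inner_smul_left, real_inner_smul_right, norm_smul, mul_pow, Real.norm_eq_abs, sq_abs, h7, h3, h9, h8,
    h6, hv]
  field_simp
  ring

/-- **Block Q1**, for a partition. -/
theorem quad_of_norm (hB : Bl M) {p : M} {P : Eu n → Submodule ℝ (Eu n)} (hmem : ∀ v, v ∈ P v)
    (hs : ∀ (r : ℝ) (v : Eu n), 0 < r → P (r • v) = P v)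
    (h : ∀ x : Eu n, x ≠ 0 → ‖x‖ < π → ∀ η, ‖𝒜.DE p x η‖ =
      ‖⟪‖x‖⁻¹ • x, η⟫ • (‖x‖⁻¹ • x) +
        (Real.sin ‖x‖ / ‖x‖) • ((P x).starProjection η - ⟪‖x‖⁻¹ • x, η⟫ • (‖x‖⁻¹ • x)) +
        (2 * Real.sin (‖x‖ / 2) / ‖x‖) • (η - (P x).starProjection η)‖) (w : Eu n) :
    ∃ B : Eu n →ₗ[ℝ] Eu n →ₗ[ℝ] ℝ, (∀ x y, B x y = B y x) ∧ ∀ v, B v v = Cl.NN P v w :=
  (polar_of_norm 𝒜 hmem hs h).quad' 𝒜 hB hs w

end Pool.Agent.Lib.MP_ccbbf6_gt.Geo
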