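import Pool.Agent.Lib.MP_ccbbf6_gt.Cls.PolD
import Pool.Agent.Lib.MP_ccbbf6_gt.Cls.Quad

/-!
# Pol: the partition `PV p` of the tangent space at `p` (helper79)
-/

set_option autoImplicit false

open Set Filter Topology Metric Real
open scoped ContDiff RealInnerProductSpace

noncomputable section

namespace Pool.Agent.Lib.MP_ccbbf6_gt.Geo

variable {n : ℕ} {M : Type*} [MetricSpace M] [CompactSpace M] (𝒜 : SDist n M)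

theorem polar_PV (hB : Bl M) {κ : ℕ} (hk : 𝒜.HK κ) (hG : ∀ c : ℝ → M, IsGeo c → ∃ V, 𝒜.Gram c V) (p : M) :
    𝒜.Polar p (𝒜.PV p) := fun _ hv _ h0 h1 w => norm_DE_polar 𝒜 hB hk hG p hv h0 h1.le w

theorem quad_PV (hB : Bl M) {κ : ℕ} (hk : 𝒜.HK κ) (hG : ∀ c : ℝ → M, IsGeo c → ∃ V, 𝒜.Gram c V) (p : M) (w : Eu n) :
    ∃ B : Eu n →ₗ[ℝ] Eu n →ₗ[ℝ] ℝ, (∀ x y, B x y = B y x) ∧ ∀ v, B v v = Cl.NN (𝒜.PV p) v w :=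
  (polar_PV 𝒜 hB hk hG p).quad' 𝒜 hB (fun _ v hr => PV_smul 𝒜 hB p hr.ne' v) w

theorem part_PV (hB : Bl M) {κ : ℕ} (hk : 𝒜.HK κ) (hG : ∀ c : ℝ → M, IsGeo c → ∃ V, 𝒜.Gram c V) (p : M) :
    Cl.Part (𝒜.PV p) where
  mem v := mem_PV_self 𝒜 hB p v
  eq_of_mem h hw := PV_eq_of_mem 𝒜 hB p h hw
  quad w := quad_PV 𝒜 hB hk hG p w

end Pool.Agent.Lib.MP_ccbbf6_gt.Geo
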