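import Pool.Agent.Lib.MP_ccbbf6_gt.CL.DfE
import Pool.Agent.Lib.MP_ccbbf6_gt.Cls.Fin1
import Pool.Agent.Lib.MP_ccbbf6_gt.Cls.Pol

/-!
# Br: the distance formula (Q4) for the exponential map in the case of equality (helper25)
-/

set_option autoImplicit false

open Set Filter Topology Metric Real
open scoped ContDiff RealInnerProductSpace

noncomputable section

namespace Pool.Agent.Lib.MP_ccbbf6_gt.Geo

variable {n : ℕ} {M : Type*} [MetricSpace M] [CompactSpace M] (𝒜 : SDist n M)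

theorem symPart_PV (hB : Bl M) {κ : ℕ} (hk : 𝒜.HK κ) (hG : ∀ c : ℝ → M, IsGeo c → ∃ V, 𝒜.Gram c V) (p : M) :
    CL.SymPart (𝒜.PV p) where
  mem := (part_PV 𝒜 hB hk hG p).mem
  eq_of_mem _ _ h1 h2 := (part_PV 𝒜 hB hk hG p).eq_of_mem h1 h2
  symm v w := (part_PV 𝒜 hB hk hG p).symm v w

theorem expPol_PV (hB : Bl M) {κ : ℕ} (hk : 𝒜.HK κ) (hG : ∀ c : ℝ → M, IsGeo c → ∃ V, 𝒜.Gram c V) (p : M) :
    CL.ExpPol (𝒜.PV p) (𝒜.Ex p) where
  cont := continuous_Ex 𝒜 hB p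
  surj q := ep_surj 𝒜 hB p q
  dist0 _ hx := ep_dist0 𝒜 hB p hx
  ray _ hx _ _ h := ep_ray 𝒜 hB p hx h
  inj _ _ hx hy h := ep_inj 𝒜 hB p hx hy h
  cut _ _ hx hy := ep_cut 𝒜 hB p hx hy
  metric x hx hx' ε hε := ep_metric 𝒜 hB hk hG p hx hx' hε

theorem br_SS {v : Eu n} (hv : ‖v‖ = 1) {s : ℝ} (hs : 0 ≤ s) : CL.SS (s • v) = Real.sin (s / 2) • v := by
  unfold CL.SS
  rw [norm_smul, hv, mul_one, Real.norm_eq_abs, abs_of_nonneg hs, smul_smul]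
  rcases eq_or_ne s 0 with h | h
  · rw [h]
    simp
  · rw [div_mul_cancel₀ _ h]

theorem br_cc {v : Eu n} (hv : ‖v‖ = 1) {s : ℝ} (hs : 0 ≤ s) : CL.cc (s • v) = Real.cos (s / 2) := by
  unfold CL.cc
  rw [norm_smul, hv, mul_one, Real.norm_eq_abs, abs_of_nonneg hs]

theorem br_NN {P : Eu n → Submodule ℝ (Eu n)} (hP : CL.SymPart P) {v w : Eu n} (hv : v ≠ 0) (σ τ : ℝ) :
    CL.NN P (σ • v) (τ • w) = (σ * τ) ^ 2 * CL.NN P v w := by
  unfold CL.NN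
  rcases eq_or_ne σ 0 with h | h
  · rw [h]
    simp
  · have h1 : P (σ • v) = P v := hP.eq_of_mem _ _ ((P v).smul_mem _ (hP.mem v)) (smul_ne_zero h hv)
    rw [CL.proj_congr h1, map_smul, norm_smul, norm_smul, mul_pow, mul_pow, Real.norm_eq_abs, Real.norm_eq_abs, sq_abs,
      sq_abs]
    ring

/-- the distance formula (Q4) -/
theorem distForm_PV (hB : Bl M) {κ : ℕ} (hk : 𝒜.HK κ) (hG : ∀ c : ℝ → M, IsGeo c → ∃ V, 𝒜.Gram c V) (p : M) :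
    Blaschke.DistForm (Cl.NN (𝒜.PV p)) (𝒜.Ex p) := by
  intro v w hv hw s hs t ht
  have hv0 : v ≠ 0 := by rw [← norm_ne_zero_iff, hv]; exact one_ne_zero
  have h1 := CL.cos_sq_dist (P := fun p => 𝒜.PV p) (e := fun p => 𝒜.Ex p) (fun p => symPart_PV 𝒜 hB hk hG p)
    (fun p => expPol_PV 𝒜 hB hk hG p) (fun p => Ex_zero 𝒜 hB p) hB.diam p (x := s • v) (y := t • w)
    (by rw [norm_smul, hv, mul_one, Real.norm_eq_abs, abs_of_nonneg hs.1]; exact hs.2)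
    (by rw [norm_smul, hw, mul_one, Real.norm_eq_abs, abs_of_nonneg ht.1]; exact ht.2)
  rw [h1, CL.FP, CL.FF, br_SS hv hs.1, br_SS hw ht.1, br_cc hv hs.1, br_cc hw ht.1, br_NN (symPart_PV 𝒜 hB hk hG p) hv0,
    inner_smul_left, inner_smul_right]
  change _ = _ + _ * (CL.NN (𝒜.PV p) v w - _)
  simp only [conj_trivial]
  ring

end Pool.Agent.Lib.MP_ccbbf6_gt.Geo
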