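import Pool.Agent.Lib.MP_ccbbf6_gt.Cls.DecD

/-!
# Dec: the decomposition into blocks (helper59; Q3 of Level 3.5)

`V` a partition of `E ∖ {0}` with symmetric `NN V v w = |v|² |proj_(V v) w|²`, `finrank (V v) = k < finrank E`.  Then there are a composition algebra
`A` of dimension `k`, `m ≥ 2` and an isometry `φ : Aᵐ → E` with `NN V (φ x) (φ y) = ∑ i j, ⟪x̄_i x_j, ȳ_i y_j⟫`, and `A` is associative if `m ≥ 3`.
-/

set_option autoImplicit false

open RealInnerProductSpace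

namespace Pool.Agent.Lib.MP_ccbbf6_gt.Cl

variable {E : Type*} [NormedAddCommGroup E] [InnerProductSpace ℝ E] [FiniteDimensional ℝ E]

variable {V : E → Submodule ℝ E}

/-- a family of unit vectors with orthogonal blocks spanning `U` -/
theorem Part.family (h : Part V) {e : E} (he : ‖e‖ = 1) : ∀ (N : ℕ) (U : Submodule ℝ E), Module.finrank ℝ U ≤ N →
    U ≤ (V e)ᗮ → (∀ v ∈ U, v ≠ 0 → V v ≤ U) → ∃ (n : ℕ) (w : Fin n → E), (∀ i, ‖w i‖ = 1) ∧ (∀ i, w i ∈ U) ∧
      (∀ i j, i ≠ j → w j ∈ (V (w i))ᗮ) ∧ ∀ z ∈ U, ∃ x : Fin n → V e, z = ∑ i, h.LM e (x i) (w i) := by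
  intro N
  induction N with
  | zero =>
    intro U hU _ _
    have hU0 : U = ⊥ := Submodule.finrank_eq_zero.1 (Nat.le_zero.1 hU)
    refine ⟨0, fun i => i.elim0, fun i => i.elim0, fun i => i.elim0, fun i => i.elim0, fun z hz => ⟨fun i => i.elim0, ?_⟩⟩
    rw [hU0, Submodule.mem_bot] at hz
    simp [hz]
  | succ N ih =>
    intro U hU hUo hUV
    by_cases hU0 : U = ⊥
    · refine ⟨0, fun i => i.elim0, fun i => i.elim0, fun i => i.elim0, fun i => i.elim0,
        fun z hz => ⟨fun i => i.elim0, ?_⟩⟩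
      rw [hU0, Submodule.mem_bot] at hz
      simp [hz]
    obtain ⟨v, hv, hv0⟩ := Submodule.exists_mem_ne_zero_of_ne_bot hU0
    obtain ⟨w, hwn, hwU⟩ : ∃ w : E, ‖w‖ = 1 ∧ w ∈ U := by
      refine ⟨(‖v‖⁻¹ : ℝ) • v, ?_, U.smul_mem _ hv⟩
      rw [norm_smul, norm_inv, norm_norm, inv_mul_cancel₀ (norm_ne_zero_iff.2 hv0)]
    have hw0 := ne_zero_of_one hwn
    have hlt : U ⊓ (V w)ᗮ < U := by
      refine lt_of_le_of_ne inf_le_left fun h1 => ?_
      have h2 : w ∈ U ⊓ (V w)ᗮ := by rw [h1]; exact hwU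
      have h3 : ⟪w, w⟫ = 0 := inner_of_orth (h.mem w) h2.2
      exact hw0 (inner_self_eq_zero.1 h3)
    have hfin := Submodule.finrank_lt_finrank_of_lt hlt
    obtain ⟨n, w', h1, h2, h3, h4⟩ := ih (U ⊓ (V w)ᗮ) (by omega) (inf_le_left.trans hUo) (fun v hv hv0 =>
      le_inf (hUV v hv.1 hv0) (h.orth hv0 hv.2))
    have hwe : w ∈ (V e)ᗮ := hUo hwU
    refine ⟨n + 1, Fin.cons w w', ?_, ?_, ?_, ?_⟩
    · intro i
      refine Fin.cases ?_ (fun i => ?_) i
      · rw [Fin.cons_zero]; exact hwn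
      · rw [Fin.cons_succ]; exact h1 i
    · intro i
      refine Fin.cases ?_ (fun i => ?_) i
      · rw [Fin.cons_zero]; exact hwU
      · rw [Fin.cons_succ]; exact (h2 i).1
    · intro i
      refine Fin.cases ?_ (fun i => ?_) i
      · intro j
        refine Fin.cases ?_ (fun j => ?_) j
        · intro hij; exact absurd rfl hij
        · intro _
          rw [Fin.cons_zero, Fin.cons_succ]
          exact (h2 j).2
      · intro j
        refine Fin.cases ?_ (fun j => ?_) j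
        · intro _
          rw [Fin.cons_zero, Fin.cons_succ]
          exact h.orth' (ne_zero_of_one (h1 i)) (h2 i).2 (h.mem w)
        · intro hij
          rw [Fin.cons_succ, Fin.cons_succ]
          exact h3 i j (fun h5 => hij (by rw [h5]))
    · intro z hz
      have hP : (V w).starProjection z ∈ V w := Submodule.starProjection_apply_mem _ _
      have hR : z - (V w).starProjection z ∈ (V w)ᗮ := Submodule.sub_starProjection_mem_orthogonal z
      obtain ⟨x₀, hx₀⟩ := h.LM_surj he hwe hw0 hP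
      obtain ⟨x, hx⟩ := h4 (z - (V w).starProjection z) ⟨U.sub_mem hz (hUV w hwU hw0 hP), hR⟩
      refine ⟨Fin.cons x₀ x, ?_⟩
      rw [Fin.sum_univ_succ]
      simp only [Fin.cons_zero, Fin.cons_succ]
      rw [← hx, hx₀]
      abel

section Fam

variable {e : E} (h : Part V) (he : ‖e‖ = 1) {n : ℕ} {w : Fin n → E}

include h he in
theorem Part.fam_inner (hn : ∀ i, ‖w i‖ = 1) (hwo : ∀ i, w i ∈ (V e)ᗮ) (hij : ∀ i j, i ≠ j → w j ∈ (V (w i))ᗮ)
    (x y : Fin n → V e) : ⟪∑ i, h.LM e (x i) (w i), ∑ i, h.LM e (y i) (w i)⟫ = ∑ i, ⟪x i, y i⟫ := by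
  rw [sum_inner]
  refine Finset.sum_congr rfl fun i _ => ?_
  rw [inner_sum, Finset.sum_eq_single i]
  · rw [h.LM_inner_left he (hwo i), hn i]
    ring
  · intro j _ hji
    exact h.inner_zero (ne_zero_of_one (hn j)) (hij i j hji.symm) (h.LM_mem he (hwo i) (ne_zero_of_one (hn i)) _)
      (h.LM_mem he (hwo j) (ne_zero_of_one (hn j)) _)
  · intro hi
    exact absurd (Finset.mem_univ i) hi

/-- the coordinates -/
noncomputable def Part.PH (w : Fin n → E) : (Fin (n + 1) → V e) →ₗ[ℝ] E :=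
  (V e).subtype ∘ₗ LinearMap.proj 0 + ∑ i : Fin n, (h.LM e).flip (w i) ∘ₗ LinearMap.proj i.succ

theorem Part.PH_apply (w : Fin n → E) (x : Fin (n + 1) → V e) :
    h.PH w x = (x 0 : E) + ∑ i : Fin n, h.LM e (x i.succ) (w i) := by
  rw [Part.PH, LinearMap.add_apply, LinearMap.sum_apply]
  rfl

include h in
theorem Part.fam_orth (hwo : ∀ i, w i ∈ (V e)ᗮ) (x : Fin n → V e) : ∑ i, h.LM e (x i) (w i) ∈ (V e)ᗮ :=
  (V e)ᗮ.sum_mem fun i _ => h.LM_orth (hwo i) _

include h he in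
theorem Part.PH_norm (hn : ∀ i, ‖w i‖ = 1) (hwo : ∀ i, w i ∈ (V e)ᗮ) (hij : ∀ i j, i ≠ j → w j ∈ (V (w i))ᗮ)
    (x : Fin (n + 1) → V e) : ‖h.PH w x‖ ^ 2 = ∑ i, ‖x i‖ ^ 2 := by
  rw [h.PH_apply, norm_sq_add_of (inner_of_orth (x 0).2 (h.fam_orth hwo fun i => x i.succ)), Fin.sum_univ_succ,
    ← real_inner_self_eq_norm_sq (∑ i : Fin n, h.LM e (x i.succ) (w i)), h.fam_inner he hn hwo hij]
  simp only [real_inner_self_eq_norm_sq, Submodule.coe_norm]

end Fam

/-- in a composition algebra: `⟪x̄ y, ū v⟫` is symmetric in the pairs `(x, u)`, `(y, v)` -/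
theorem G_symm {A : Type*} [NormedAddCommGroup A] [InnerProductSpace ℝ A] (C : Blaschke.CompAlg A) (a b c d : A) :
    ⟪C.mul (C.cj a) b, C.mul (C.cj c) d⟫ = ⟪C.mul (C.cj b) a, C.mul (C.cj d) c⟫ := by
  rw [← C.inner_cj, C.cj_mul, C.cj_mul, C.cj_cj, C.cj_cj]

theorem G_diag {A : Type*} [NormedAddCommGroup A] [InnerProductSpace ℝ A] (C : Blaschke.CompAlg A) (a c : A) :
    ⟪C.mul (C.cj a) a, C.mul (C.cj c) c⟫ = ‖a‖ ^ 2 * ‖c‖ ^ 2 := by
  rw [C.cj_mul_self, C.cj_mul_self, real_inner_smul_left, real_inner_smul_right, C.inner_one_one,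
    real_inner_self_eq_norm_sq, real_inner_self_eq_norm_sq, mul_one]

theorem G_diag' {A : Type*} [NormedAddCommGroup A] [InnerProductSpace ℝ A] (C : Blaschke.CompAlg A) (a c : A) :
    ⟪C.mul c (C.cj a), C.mul c (C.cj a)⟫ = ‖a‖ ^ 2 * ‖c‖ ^ 2 := by
  rw [C.inner_mul_self, C.inner_cj, real_inner_self_eq_norm_sq, real_inner_self_eq_norm_sq, mul_comm]

/-- in an associative composition algebra: `⟪y x̄, v ū⟫ = ⟪x̄ u, ȳ v⟫` -/
theorem G_assoc {A : Type*} [NormedAddCommGroup A] [InnerProductSpace ℝ A] (C : Blaschke.CompAlg A)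
    (has : ∀ a b c, C.mul (C.mul a b) c = C.mul a (C.mul b c)) (x u y v : A) :
    ⟪C.mul y (C.cj x), C.mul v (C.cj u)⟫ = ⟪C.mul (C.cj x) u, C.mul (C.cj y) v⟫ := by
  rw [C.adj_left, ← has, C.adj_right]

section Form

variable {e w₀ : E} (h : Part V) (he : ‖e‖ = 1) (hw : ‖w₀‖ = 1) (ho : w₀ ∈ (V e)ᗮ) {n : ℕ} {w : Fin n → E}

/-- the form on `Aᗮ` in coordinates -/
theorem Part.NN_fam (hn : ∀ i, ‖w i‖ = 1) (hwo : ∀ i, w i ∈ (V e)ᗮ) (hij : ∀ i j, i ≠ j → w j ∈ (V (w i))ᗮ)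
    (hmul : ∀ i p q, h.LM e ((h.alg he hw ho).mul p q) (w i) = h.LM e p (h.LM e q (w i))) (x y : Fin n → V e) :
    NN V (∑ i, h.LM e (x i) (w i)) (∑ i, h.LM e (y i) (w i))
      = ∑ i, ∑ j, ⟪(h.alg he hw ho).mul (y i) ((h.alg he hw ho).cj (x i)),
          (h.alg he hw ho).mul (y j) ((h.alg he hw ho).cj (x j))⟫ := by
  rw [h.NN_of_adj he (h.fam_orth hwo x) (y := ∑ i, (h.alg he hw ho).mul (y i) ((h.alg he hw ho).cj (x i)))]
  · rw [← real_inner_self_eq_norm_sq, sum_inner]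
    refine Finset.sum_congr rfl fun i _ => ?_
    rw [inner_sum]
  · intro z
    have h1 : h.LM e z (∑ i, h.LM e (x i) (w i)) = ∑ i, h.LM e ((h.alg he hw ho).mul z (x i)) (w i) := by
      rw [map_sum]
      refine Finset.sum_congr rfl fun i _ => ?_
      rw [hmul]
    rw [h1, h.fam_inner he hn hwo hij, sum_inner]
    refine Finset.sum_congr rfl fun i _ => ?_
    rw [real_inner_comm, (h.alg he hw ho).adj_right, real_inner_comm]

/-- the form in coordinates -/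
theorem Part.NN_PH (hn : ∀ i, ‖w i‖ = 1) (hwo : ∀ i, w i ∈ (V e)ᗮ) (hij : ∀ i j, i ≠ j → w j ∈ (V (w i))ᗮ)
    (hmul : ∀ i p q, h.LM e ((h.alg he hw ho).mul p q) (w i) = h.LM e p (h.LM e q (w i)))
    (has : 2 ≤ n → ∀ a b c, (h.alg he hw ho).mul ((h.alg he hw ho).mul a b) c
      = (h.alg he hw ho).mul a ((h.alg he hw ho).mul b c)) (x y : Fin (n + 1) → V e) :
    NN V (h.PH w x) (h.PH w y) = ∑ i, ∑ j, ⟪(h.alg he hw ho).mul ((h.alg he hw ho).cj (x i)) (x j),
      (h.alg he hw ho).mul ((h.alg he hw ho).cj (y i)) (y j)⟫ := by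
  obtain ⟨C, hC⟩ : ∃ C, C = h.alg he hw ho := ⟨_, rfl⟩
  rw [← hC] at hmul has
  rw [← hC, h.PH_apply, h.PH_apply, h.NN_split he hw ho (x 0) (y 0) (h.fam_orth hwo _) (h.fam_orth hwo _), ← hC]
  have e1 : ⟪h.LM e (y 0) (h.LM e (C.cj (x 0)) (∑ i : Fin n, h.LM e (x i.succ) (w i))),
      ∑ i : Fin n, h.LM e (y i.succ) (w i)⟫
      = ∑ i : Fin n, ⟪C.mul (C.cj (x 0)) (x i.succ), C.mul (C.cj (y 0)) (y i.succ)⟫ := by
    have h1 : h.LM e (y 0) (h.LM e (C.cj (x 0)) (∑ i : Fin n, h.LM e (x i.succ) (w i)))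
        = ∑ i : Fin n, h.LM e (C.mul (y 0) (C.mul (C.cj (x 0)) (x i.succ))) (w i) := by
      rw [map_sum, map_sum]
      refine Finset.sum_congr rfl fun i _ => ?_
      rw [hmul, hmul]
    rw [h1, h.fam_inner he hn hwo hij]
    refine Finset.sum_congr rfl fun i _ => ?_
    rw [C.adj_left]
  have e2 : NN V (∑ i : Fin n, h.LM e (x i.succ) (w i)) (∑ i : Fin n, h.LM e (y i.succ) (w i))
      = ∑ i : Fin n, ∑ j : Fin n, ⟪C.mul (C.cj (x i.succ)) (x j.succ), C.mul (C.cj (y i.succ)) (y j.succ)⟫ := by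
    rw [h.NN_fam he hw ho hn hwo hij (by rw [← hC]; exact hmul), ← hC]
    refine Finset.sum_congr rfl fun i _ => Finset.sum_congr rfl fun j _ => ?_
    by_cases hij2 : i = j
    · rw [hij2, G_diag', G_diag]
    · have h2 : 2 ≤ n := by
        by_contra hlt
        have : n ≤ 1 := by omega
        have hs : Subsingleton (Fin n) := by
          rw [Fin.subsingleton_iff_le_one]; exact this
        exact hij2 (Subsingleton.elim i j)
      exact G_assoc C (has h2) _ _ _ _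
  rw [e1, e2, Fin.sum_univ_succ, Fin.sum_univ_succ]
  simp only [Fin.sum_univ_succ (n := n), Finset.sum_add_distrib]
  rw [G_diag]
  have e3 : ∑ i : Fin n, ⟪C.mul (C.cj (x i.succ)) (x 0), C.mul (C.cj (y i.succ)) (y 0)⟫
      = ∑ i : Fin n, ⟪C.mul (C.cj (x 0)) (x i.succ), C.mul (C.cj (y 0)) (y i.succ)⟫ :=
    Finset.sum_congr rfl fun i _ => G_symm C _ _ _ _
  rw [e3]
  ring

end Form

/-- the decomposition of `E` into blocks -/
theorem Part.dec (h : Part V) {k : ℕ} (hk : ∀ v, v ≠ 0 → Module.finrank ℝ (V v) = k)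
    (hlt : k < Module.finrank ℝ E) :
    ∃ (A : Submodule ℝ E) (C : Blaschke.CompAlg A) (m : ℕ) (φ : (Fin m → A) ≃ₗ[ℝ] E),
      Module.finrank ℝ A = k ∧ 2 ≤ m ∧ Module.finrank ℝ E = m * k ∧ (∀ x, ‖φ x‖ ^ 2 = ∑ i, ‖x i‖ ^ 2) ∧
      (∀ x y, NN V (φ x) (φ y) = ∑ i, ∑ j, ⟪C.mul (C.cj (x i)) (x j), C.mul (C.cj (y i)) (y j)⟫) ∧
      (3 ≤ m → ∀ a b c, C.mul (C.mul a b) c = C.mul a (C.mul b c)) := by
  have : Nontrivial E := Module.nontrivial_of_finrank_pos (R := ℝ) (by omega)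
  obtain ⟨v, hv0⟩ := exists_ne (0 : E)
  obtain ⟨e, he⟩ : ∃ e : E, ‖e‖ = 1 :=
    ⟨(‖v‖⁻¹ : ℝ) • v, by rw [norm_smul, norm_inv, norm_norm, inv_mul_cancel₀ (norm_ne_zero_iff.2 hv0)]⟩
  have he0 := ne_zero_of_one he
  obtain ⟨n, w, hn, hwo, hij, hspan⟩ := h.family he _ (V e)ᗮ le_rfl le_rfl (fun v hv hv0 => h.orth hv0 hv)
  have hk0 := hk e he0
  -- there is at least one block
  obtain ⟨n', rfl⟩ : ∃ n', n = n' + 1 := by
    rcases Nat.eq_zero_or_eq_succ_pred n with h1 | h1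
    · exfalso
      subst h1
      have h2 : (V e)ᗮ = ⊥ := by
        rw [Submodule.eq_bot_iff]
        intro z hz
        obtain ⟨x, hx⟩ := hspan z hz
        rw [hx, Finset.univ_eq_empty, Finset.sum_empty]
      have h3 : V e = ⊤ := Submodule.orthogonal_eq_bot_iff.1 h2
      rw [h3, finrank_top] at hk0
      omega
    · exact ⟨_, h1⟩
  have hw : ‖w 0‖ = 1 := hn 0
  have ho : w 0 ∈ (V e)ᗮ := hwo 0
  obtain ⟨C, hC⟩ : ∃ C, C = h.alg he hw ho := ⟨_, rfl⟩
  have hmul : ∀ i p q, h.LM e (C.mul p q) (w i) = h.LM e p (h.LM e q (w i)) := by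
    intro i p q
    rw [hC]
    by_cases hi : i = 0
    · rw [hi]
      exact h.alg_mul he hw ho p q
    · exact h.LM_mul he hw ho (hwo i) (ne_zero_of_one (hn i)) (hij 0 i (Ne.symm hi)) p q (hwo i)
  have has : 2 ≤ n' + 1 → ∀ a b c, C.mul (C.mul a b) c = C.mul a (C.mul b c) := by
    intro h2 a b c
    have h01 : (0 : Fin (n' + 1)) ≠ Fin.last n' := by
      intro h3
      have h4 := congrArg Fin.val h3
      rw [Fin.val_zero, Fin.val_last] at h4
      omega
    rw [hC]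
    exact h.assoc he hw ho (hwo (Fin.last n')) (ne_zero_of_one (hn _)) (hij 0 _ h01) a b c
  have hinj : Function.Injective (h.PH (e := e) w) := by
    rw [← LinearMap.ker_eq_bot, LinearMap.ker_eq_bot']
    intro x hx
    have h1 := h.PH_norm he hn hwo hij x
    rw [hx, norm_zero] at h1
    have h2 : ∑ i, ‖x i‖ ^ 2 = 0 := by
      rw [← h1]
      norm_num
    rw [Finset.sum_eq_zero_iff_of_nonneg (fun i _ => by positivity)] at h2
    ext i
    have h3 := h2 i (Finset.mem_univ i)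
    have h4 : x i = 0 := norm_eq_zero.1 (pow_eq_zero_iff two_ne_zero |>.1 h3)
    rw [h4]
    rfl
  have hsurj : Function.Surjective (h.PH (e := e) w) := by
    intro z
    have hP : (V e).starProjection z ∈ V e := Submodule.starProjection_apply_mem _ _
    have hR : z - (V e).starProjection z ∈ (V e)ᗮ := Submodule.sub_starProjection_mem_orthogonal z
    obtain ⟨x, hx⟩ := hspan _ hR
    refine ⟨Fin.cons ⟨_, hP⟩ x, ?_⟩
    rw [h.PH_apply]
    simp only [Fin.cons_zero, Fin.cons_succ]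
    rw [← hx]
    abel
  obtain ⟨φ, hφ⟩ : ∃ φ : (Fin (n' + 1 + 1) → V e) ≃ₗ[ℝ] E, ∀ x, φ x = h.PH w x :=
    ⟨LinearEquiv.ofBijective (h.PH w) ⟨hinj, hsurj⟩, fun x => rfl⟩
  refine ⟨V e, C, n' + 1 + 1, φ, hk0, by omega, ?_, ?_, ?_, ?_⟩
  · rw [← φ.finrank_eq, Module.finrank_pi_fintype, Finset.sum_const, Finset.card_univ, Fintype.card_fin, hk0,
      smul_eq_mul]
  · intro x
    rw [hφ]
    exact h.PH_norm he hn hwo hij x
  · intro x y
    rw [hφ, hφ, hC]
    exact h.NN_PH he hw ho hn hwo hij (by rw [← hC]; exact hmul) (by rw [← hC]; exact has) x y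
  · intro h3
    exact has (by omega)

/-- the form if there is only one block -/
theorem NN_top (htop : ∀ v, v ≠ 0 → V v = ⊤) (v w : E) : NN V v w = ‖v‖ ^ 2 * ‖w‖ ^ 2 := by
  by_cases h0 : v = 0
  · rw [h0, NN_zero_left, norm_zero]
    ring
  · exact NN_of_mem (by rw [htop v h0]; exact Submodule.mem_top)

theorem NN_of_finrank (hk : ∀ v, v ≠ 0 → Module.finrank ℝ (V v) = Module.finrank ℝ E) (v w : E) :
    NN V v w = ‖v‖ ^ 2 * ‖w‖ ^ 2 :=
  NN_top (fun v hv => Submodule.eq_top_of_finrank_eq (hk v hv)) v w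

/-- symmetry of `NN` implies that `NN` is quadratic in the first variable -/
theorem Part.of_symm (hmem : ∀ v, v ∈ V v) (heq : ∀ {v w : E}, w ∈ V v → w ≠ 0 → V w = V v)
    (hsymm : ∀ v w, NN V v w = NN V w v) : Part V where
  mem := hmem
  eq_of_mem := heq
  quad := fun w => by
    refine ⟨LinearMap.mk₂ ℝ (fun x y => ‖w‖ ^ 2 * ⟪(V w).starProjection x, (V w).starProjection y⟫) ?_ ?_ ?_ ?_,
      fun x y => ?_, fun v => ?_⟩
    · intro x x' y
      rw [map_add, inner_add_left, mul_add]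
    · intro c x y
      rw [map_smul, inner_smul_left, smul_eq_mul]
      simp only [conj_trivial]
      ring
    · intro x y y'
      rw [map_add, inner_add_right, mul_add]
    · intro c x y
      rw [map_smul, inner_smul_right, smul_eq_mul]
      ring
    · rw [LinearMap.mk₂_apply, LinearMap.mk₂_apply, real_inner_comm]
    · rw [LinearMap.mk₂_apply, hsymm v w, NN, real_inner_self_eq_norm_sq]

end Pool.Agent.Lib.MP_ccbbf6_gt.Cl
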