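import Pool.Agent.Lib.MP_ccbbf6_gt.Cl.Q2

/-!
# DecA: the bilinear operator valued form of `|v|² proj_(V v)` (helper59)
-/

set_option autoImplicit false

open RealInnerProductSpace

namespace Pool.Agent.Lib.MP_ccbbf6_gt.Cl

variable {E : Type*} [NormedAddCommGroup E] [InnerProductSpace ℝ E] [FiniteDimensional ℝ E]

/-- `|v|² proj_(V v)` -/
noncomputable def SS (V : E → Submodule ℝ E) (v : E) : E →ₗ[ℝ] E :=
  (‖v‖ ^ 2) • ((V v).starProjection : E →L[ℝ] E).toLinearMap

/-- the polarised form -/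
noncomputable def S4 (V : E → Submodule ℝ E) (v w : E) : E →ₗ[ℝ] E :=
  (4 : ℝ)⁻¹ • (SS V (v + w) - SS V (v - w))

variable {V : E → Submodule ℝ E}

theorem SS_apply (v x : E) : SS V v x = ‖v‖ ^ 2 • (V v).starProjection x := rfl

theorem SS_zero : SS V 0 = 0 := by
  ext x
  simp [SS_apply]

theorem SS_symm (v x y : E) : ⟪SS V v x, y⟫ = ⟪x, SS V v y⟫ := by
  rw [SS_apply, SS_apply, inner_smul_left, inner_smul_right, Submodule.inner_starProjection_left_eq_right]
  rfl

theorem SS_self (v x : E) : ⟪SS V v x, x⟫ = NN V v x := by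
  rw [SS_apply, inner_smul_left, NN]
  congr 1
  have h : (V v).starProjection ((V v).starProjection x) = (V v).starProjection x :=
    Submodule.starProjection_eq_self_iff.2 (Submodule.starProjection_apply_mem _ _)
  rw [← real_inner_self_eq_norm_sq, Submodule.inner_starProjection_left_eq_right (V v) x ((V v).starProjection x), h]
  exact real_inner_comm _ _

theorem Part.SS_of_mem (h : Part V) {v w : E} (hw : w ∈ V v) (h0 : w ≠ 0) (x : E) :
    ‖v‖ ^ 2 • SS V w x = ‖w‖ ^ 2 • SS V v x := by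
  rw [SS_apply, SS_apply, h.eq_of_mem hw h0, smul_comm]

theorem Part.V_neg (h : Part V) (v : E) : V (-v) = V v := by
  by_cases h0 : v = 0
  · rw [h0, neg_zero]
  · exact h.eq_of_mem ((V v).neg_mem (h.mem v)) (neg_ne_zero.2 h0)

theorem Part.SS_neg (h : Part V) (v : E) : SS V (-v) = SS V v := by
  ext x
  rw [SS_apply, SS_apply, norm_neg, h.V_neg]

theorem Part.SS_smul (h : Part V) (c : ℝ) (v : E) : SS V (c • v) = c ^ 2 • SS V v := by
  ext x
  by_cases h0 : c • v = 0
  · rw [h0, SS_zero]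
    rcases smul_eq_zero.1 h0 with h1 | h1
    · simp [h1]
    · simp [h1, SS_zero]
  · rw [LinearMap.smul_apply, SS_apply, SS_apply, h.eq_of_mem ((V v).smul_mem c (h.mem v)) h0, norm_smul, mul_pow,
      Real.norm_eq_abs, sq_abs, mul_smul]

theorem S4_apply (v w x : E) : S4 V v w x = (4 : ℝ)⁻¹ • (SS V (v + w) x - SS V (v - w) x) := rfl

theorem S4_symm (v w x y : E) : ⟪S4 V v w x, y⟫ = ⟪x, S4 V v w y⟫ := by
  rw [S4_apply, S4_apply, inner_smul_left, inner_smul_right, inner_sub_left, inner_sub_right, SS_symm, SS_symm]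
  rfl

theorem Part.S4_comm (h : Part V) (v w : E) : S4 V v w = S4 V w v := by
  unfold S4
  rw [add_comm v w, ← neg_sub w v, h.SS_neg]

theorem Part.S4_self (h : Part V) (v : E) : S4 V v v = SS V v := by
  unfold S4
  rw [sub_self, SS_zero, sub_zero, ← two_smul ℝ v, h.SS_smul, smul_smul]
  norm_num

omit [FiniteDimensional ℝ E] in
/-- two symmetric operators with the same quadratic form -/
theorem eq_of_quad {A B : E →ₗ[ℝ] E} (hA : ∀ x y, ⟪A x, y⟫ = ⟪x, A y⟫) (hB : ∀ x y, ⟪B x, y⟫ = ⟪x, B y⟫)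
    (h : ∀ x, ⟪A x, x⟫ = ⟪B x, x⟫) : A = B := by
  have hs : (A - B).IsSymmetric := by
    intro x y
    rw [LinearMap.sub_apply, LinearMap.sub_apply, inner_sub_left, inner_sub_right, hA, hB]
  have h0 := (LinearMap.IsSymmetric.inner_map_self_eq_zero (T := A - B) hs).1 (fun x => by
    rw [LinearMap.sub_apply, inner_sub_left, h, sub_self])
  exact sub_eq_zero.1 h0

theorem Part.quad_S4 (h : Part V) (x : E) : ∃ B : E →ₗ[ℝ] E →ₗ[ℝ] ℝ, (∀ v w, B v w = B w v) ∧
    ∀ v w, ⟪S4 V v w x, x⟫ = B v w := by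
  obtain ⟨B, hB, hq⟩ := h.quad x
  refine ⟨B, hB, fun v w => ?_⟩
  rw [S4_apply, inner_smul_left, inner_sub_left, SS_self, SS_self, ← hq, ← hq]
  simp only [map_add, map_sub, LinearMap.add_apply, LinearMap.sub_apply]
  rw [hB w v]
  simp
  ring

theorem Part.S4_add_left (h : Part V) (v v' w : E) : S4 V (v + v') w = S4 V v w + S4 V v' w := by
  refine eq_of_quad (fun x y => S4_symm _ _ _ _) (fun x y => ?_) fun x => ?_
  · rw [LinearMap.add_apply, LinearMap.add_apply, inner_add_left, inner_add_right, S4_symm, S4_symm]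
  · obtain ⟨B, -, hq⟩ := h.quad_S4 x
    rw [LinearMap.add_apply, inner_add_left, hq, hq, hq, map_add, LinearMap.add_apply]

theorem Part.S4_smul_left (h : Part V) (c : ℝ) (v w : E) : S4 V (c • v) w = c • S4 V v w := by
  refine eq_of_quad (fun x y => S4_symm _ _ _ _) (fun x y => ?_) fun x => ?_
  · rw [LinearMap.smul_apply, LinearMap.smul_apply, inner_smul_left, inner_smul_right, S4_symm]
    rfl
  · obtain ⟨B, -, hq⟩ := h.quad_S4 x
    rw [LinearMap.smul_apply, inner_smul_left, hq, hq, map_smul, LinearMap.smul_apply]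
    rfl

theorem Part.S4_add_right (h : Part V) (v w w' : E) : S4 V v (w + w') = S4 V v w + S4 V v w' := by
  rw [h.S4_comm, h.S4_add_left, h.S4_comm w, h.S4_comm w']

theorem Part.S4_smul_right (h : Part V) (c : ℝ) (v w : E) : S4 V v (c • w) = c • S4 V v w := by
  rw [h.S4_comm, h.S4_smul_left, h.S4_comm w]

theorem Part.SS_add (h : Part V) (v w : E) : SS V (v + w) = SS V v + (2 : ℝ) • S4 V v w + SS V w := by
  rw [← h.S4_self (v + w), h.S4_add_left, h.S4_add_right, h.S4_add_right, h.S4_self, h.S4_self, h.S4_comm w v, two_smul]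
  abel

/-- the symmetry of the 4-linear form -/
theorem Part.swap (h : Part V) (v w x y : E) : ⟪S4 V v w x, y⟫ = ⟪S4 V x y v, w⟫ := by
  -- equal pairs
  have h1 : ∀ v x, ⟪S4 V v v x, x⟫ = ⟪S4 V x x v, v⟫ := fun v x => by
    rw [h.S4_self, h.S4_self, SS_self, SS_self, h.symm]
  have h2 : ∀ v w x, ⟪S4 V v w x, x⟫ = ⟪S4 V x x v, w⟫ := fun v w x => by
    have e := h1 (v + w) x
    rw [h.S4_add_left, h.S4_add_right, h.S4_add_right] at e
    simp only [LinearMap.add_apply, inner_add_left, inner_add_right, map_add] at e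
    have e' : ⟪S4 V x x w, v⟫ = ⟪S4 V x x v, w⟫ := by rw [S4_symm, real_inner_comm]
    rw [h1 v x, h1 w x, h.S4_comm w v, e'] at e
    linarith
  have e := h2 v w (x + y)
  rw [h.S4_add_left, h.S4_add_right, h.S4_add_right] at e
  simp only [LinearMap.add_apply, inner_add_left, inner_add_right, map_add] at e
  have e' : ⟪S4 V v w y, x⟫ = ⟪S4 V v w x, y⟫ := by rw [S4_symm, real_inner_comm]
  rw [h2 v w x, h2 v w y, h.S4_comm y x, e'] at e
  linarith

end Pool.Agent.Lib.MP_ccbbf6_gt.Cl
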