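import Pool.Agent.Lib.MP_ccbbf6_gt.Cls.DecA

/-!
# DecB: two orthogonal blocks (helper59)

For `w ∈ (V v)ᗮ`, `v, w ≠ 0`, the map `FB v w = 2 S4 v w` exchanges `V v` and `V w`, is `|v| |w|` times an isometry, `FB v w v = |v|² w`, and vanishes
on the orthogonal complement of `V v + V w`.
-/

set_option autoImplicit false

open RealInnerProductSpace

namespace Pool.Agent.Lib.MP_ccbbf6_gt.Cl

variable {E : Type*} [NormedAddCommGroup E] [InnerProductSpace ℝ E] [FiniteDimensional ℝ E]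

/-- the map exchanging two orthogonal blocks -/
noncomputable def FB (V : E → Submodule ℝ E) (v w : E) : E →ₗ[ℝ] E := (2 : ℝ) • S4 V v w

variable {V : E → Submodule ℝ E}

theorem proj_eq_zero {U : Submodule ℝ E} {x : E} (h : x ∈ Uᗮ) : U.starProjection x = 0 :=
  (Submodule.starProjection_apply_eq_zero_iff _).2 h

theorem proj_congr {U W : Submodule ℝ E} (h : U = W) (x : E) : U.starProjection x = W.starProjection x := by
  subst h
  rfl

theorem proj_of_mem {U : Submodule ℝ E} {x : E} (h : x ∈ U) : U.starProjection x = x :=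
  Submodule.starProjection_eq_self_iff.2 h

theorem SS_eq_zero {v x : E} (h : x ∈ (V v)ᗮ) : SS V v x = 0 := by
  rw [SS_apply, proj_eq_zero h, smul_zero]

theorem SS_mem (v x : E) : SS V v x ∈ V v := (V v).smul_mem _ (Submodule.starProjection_apply_mem _ _)

theorem SS_of_mem_self {v x : E} (h : x ∈ V v) : SS V v x = ‖v‖ ^ 2 • x := by
  rw [SS_apply, proj_of_mem h]

theorem SS_idem (v x : E) : SS V v (SS V v x) = ‖v‖ ^ 2 • SS V v x := SS_of_mem_self (SS_mem v x)

theorem SS_norm (v x : E) : ‖SS V v x‖ ^ 2 = ‖v‖ ^ 2 * ⟪SS V v x, x⟫ := by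
  rw [← real_inner_self_eq_norm_sq, ← SS_symm, SS_idem, inner_smul_left]
  rfl

theorem FB_symm (v w x y : E) : ⟪FB V v w x, y⟫ = ⟪x, FB V v w y⟫ := by
  simp only [FB, LinearMap.smul_apply, inner_smul_left, inner_smul_right, S4_symm]
  rfl

theorem Part.FB_comm (h : Part V) (v w : E) : FB V v w = FB V w v := by rw [FB, FB, h.S4_comm]

theorem Part.SS_add' (h : Part V) (v w x : E) : SS V (v + w) x = SS V v x + FB V v w x + SS V w x := by
  rw [h.SS_add]
  rfl

/-- orthogonality of the blocks -/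
theorem Part.orth (h : Part V) {v w : E} (hw : w ≠ 0) (hvw : w ∈ (V v)ᗮ) : V w ≤ (V v)ᗮ := by
  intro y hy
  rw [Submodule.mem_orthogonal]
  intro u hu
  by_cases hu0 : u = 0
  · rw [hu0, inner_zero_left]
  · have h1 : NN V u w = 0 := by
      rw [NN, proj_congr (h.eq_of_mem hu hu0), proj_eq_zero hvw]
      simp
    rw [h.symm, NN] at h1
    have h2 : (V w).starProjection u = 0 := by
      have : ‖(V w).starProjection u‖ ^ 2 = 0 := by
        rcases mul_eq_zero.1 h1 with h3 | h3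
        · exact absurd h3 (by positivity)
        · exact h3
      exact norm_eq_zero.1 (pow_eq_zero_iff (two_ne_zero) |>.1 this)
    exact (real_inner_comm _ _).trans ((Submodule.mem_orthogonal _ _).1
      ((Submodule.starProjection_apply_eq_zero_iff _).1 h2) y hy)

theorem Part.orth' (h : Part V) {v w : E} (hw : w ≠ 0) (hvw : w ∈ (V v)ᗮ) : V v ≤ (V w)ᗮ := by
  intro u hu
  rw [Submodule.mem_orthogonal]
  intro y hy
  exact (real_inner_comm _ _).trans ((Submodule.mem_orthogonal _ _).1 (h.orth hw hvw hy) u hu)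

theorem Part.inner_zero (h : Part V) {v w x y : E} (hw : w ≠ 0) (hvw : w ∈ (V v)ᗮ) (hx : x ∈ V v) (hy : y ∈ V w) :
    ⟪x, y⟫ = 0 := (Submodule.mem_orthogonal _ _).1 (h.orth hw hvw hy) x hx

omit [FiniteDimensional ℝ E] in
theorem norm_sq_add_of {v w : E} (hvw : ⟪v, w⟫ = 0) : ‖v + w‖ ^ 2 = ‖v‖ ^ 2 + ‖w‖ ^ 2 := by
  rw [norm_add_sq_real, hvw]
  ring

/-- `FB v w` maps `V v` into its orthogonal complement -/
theorem Part.FB_orth (h : Part V) {v w x : E} (hvw : w ∈ (V v)ᗮ) (hx : x ∈ V v) :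
    FB V v w x ∈ (V v)ᗮ := by
  rw [Submodule.mem_orthogonal]
  intro x' hx'
  have key : ∀ u ∈ V v, ⟪SS V u v, w⟫ = 0 := by
    intro u hu
    by_cases hu0 : u = 0
    · rw [hu0, SS_zero, LinearMap.zero_apply, inner_zero_left]
    · have : SS V u v ∈ V v := by
        have := SS_mem (V := V) u v
        rwa [h.eq_of_mem hu hu0] at this
      exact (Submodule.mem_orthogonal _ _).1 hvw _ this
  rw [real_inner_comm, FB, LinearMap.smul_apply, inner_smul_left, h.swap, S4_apply, inner_smul_left, inner_sub_left,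
    key _ ((V v).add_mem hx hx'), key _ ((V v).sub_mem hx hx')]
  simp

/-- the block of a sum is contained in the sum of the blocks -/
theorem Part.split (h : Part V) {v w z : E} (hv : v ≠ 0) (hw : w ≠ 0) (hvw : w ∈ (V v)ᗮ) (hz : z ∈ V (v + w)) :
    z = (V v).starProjection z + (V w).starProjection z := by
  have hi : ⟪v, w⟫ = 0 := h.inner_zero hw hvw (h.mem v) (h.mem w)
  have hu0 : v + w ≠ 0 := by
    intro h0
    have := norm_sq_add_of hi
    rw [h0, norm_zero] at this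
    have h1 : 0 < ‖v‖ ^ 2 := by positivity
    have h2 : 0 < ‖w‖ ^ 2 := by positivity
    nlinarith
  by_cases hz0 : z = 0
  · rw [hz0]; simp
  have key : ∀ a ∈ ({v, w} : Set E), a ≠ 0 → (V a).starProjection (v + w) = a →
      ‖v + w‖ ^ 2 * ‖(V a).starProjection z‖ ^ 2 = ‖z‖ ^ 2 * ‖a‖ ^ 2 := by
    intro a _ ha0 hpa
    have e1 := h.symm a z
    have e2 := h.symm (v + w) a
    rw [NN, NN, proj_congr (h.eq_of_mem hz hz0)] at e1
    rw [NN, NN, hpa] at e2
    have ha : 0 < ‖a‖ ^ 2 := by positivity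
    have e3 : ‖a‖ ^ 2 * (‖v + w‖ ^ 2 * ‖(V a).starProjection z‖ ^ 2) = ‖a‖ ^ 2 * (‖z‖ ^ 2 * ‖a‖ ^ 2) := by
      calc _ = ‖v + w‖ ^ 2 * (‖a‖ ^ 2 * ‖(V a).starProjection z‖ ^ 2) := by ring
        _ = ‖z‖ ^ 2 * (‖v + w‖ ^ 2 * ‖(V (v + w)).starProjection a‖ ^ 2) := by rw [e1]; ring
        _ = _ := by rw [e2]; ring
    exact mul_left_cancel₀ ha.ne' e3
  have hpv : (V v).starProjection (v + w) = v := by
    rw [map_add, proj_of_mem (h.mem v), proj_eq_zero hvw, add_zero]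
  have hpw : (V w).starProjection (v + w) = w := by
    rw [map_add, proj_of_mem (h.mem w), proj_eq_zero (h.orth' hw hvw (h.mem v)), zero_add]
  have k1 := key v (by simp) hv hpv
  have k2 := key w (by simp) hw hpw
  set a := (V v).starProjection z with ha
  set b := (V w).starProjection z with hb
  have haV : a ∈ V v := Submodule.starProjection_apply_mem _ _
  have hbV : b ∈ V w := Submodule.starProjection_apply_mem _ _
  have hab : ⟪a, b⟫ = 0 := h.inner_zero hw hvw haV hbV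
  have hza : ⟪z, a⟫ = ‖a‖ ^ 2 := by
    have : ⟪z - a, a⟫ = 0 := Submodule.starProjection_inner_eq_zero z a haV
    rw [inner_sub_left, real_inner_self_eq_norm_sq] at this
    linarith
  have hzb : ⟪z, b⟫ = ‖b‖ ^ 2 := by
    have : ⟪z - b, b⟫ = 0 := Submodule.starProjection_inner_eq_zero z b hbV
    rw [inner_sub_left, real_inner_self_eq_norm_sq] at this
    linarith
  have hs := norm_sq_add_of hi
  have hpos : 0 < ‖v + w‖ ^ 2 := by
    have : 0 < ‖v + w‖ := norm_pos_iff.2 hu0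
    positivity
  have hsum : ‖a‖ ^ 2 + ‖b‖ ^ 2 = ‖z‖ ^ 2 := by
    have : ‖v + w‖ ^ 2 * (‖a‖ ^ 2 + ‖b‖ ^ 2) = ‖v + w‖ ^ 2 * ‖z‖ ^ 2 := by
      rw [mul_add, k1, k2, ← mul_add, ← hs]
      ring
    exact mul_left_cancel₀ hpos.ne' this
  have hd : ‖z - (a + b)‖ ^ 2 = 0 := by
    rw [norm_sub_sq_real, inner_add_right, hza, hzb, norm_sq_add_of hab]
    linarith
  exact sub_eq_zero.1 (norm_eq_zero.1 (pow_eq_zero_iff (two_ne_zero) |>.1 hd))

/-- `FB v w` maps `V v` into `V w` -/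
theorem Part.FB_mem (h : Part V) {v w x : E} (hv : v ≠ 0) (hw : w ≠ 0) (hvw : w ∈ (V v)ᗮ) (hx : x ∈ V v) :
    FB V v w x ∈ V w := by
  have h1 : SS V (v + w) x = ‖v‖ ^ 2 • x + FB V v w x := by
    rw [h.SS_add', SS_of_mem_self hx, SS_eq_zero (h.orth' hw hvw hx), add_zero]
  have h2 := h.split hv hw hvw (SS_mem (V := V) (v + w) x)
  have h3 := h.FB_orth hvw hx
  rw [h1, map_add, map_add, map_smul, map_smul, proj_of_mem hx, proj_eq_zero h3,
    proj_eq_zero (h.orth' hw hvw hx), smul_zero, zero_add, add_zero] at h2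
  have h4 := add_left_cancel h2
  rw [h4]
  exact Submodule.starProjection_apply_mem _ _

theorem Part.SS_add_of_mem (h : Part V) {v w x : E} (hw : w ≠ 0) (hvw : w ∈ (V v)ᗮ) (hx : x ∈ V v) :
    SS V (v + w) x = ‖v‖ ^ 2 • x + FB V v w x := by
  rw [h.SS_add', SS_of_mem_self hx, SS_eq_zero (h.orth' hw hvw hx), add_zero]

theorem Part.FB_norm (h : Part V) {v w x : E} (hv : v ≠ 0) (hw : w ≠ 0) (hvw : w ∈ (V v)ᗮ) (hx : x ∈ V v) :
    ‖FB V v w x‖ ^ 2 = ‖v‖ ^ 2 * ‖w‖ ^ 2 * ‖x‖ ^ 2 := by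
  have h1 := h.SS_add_of_mem hw hvw hx
  have hFm := h.FB_mem hv hw hvw hx
  have hxF : ⟪x, FB V v w x⟫ = 0 := h.inner_zero hw hvw hx hFm
  have hFx : ⟪FB V v w x, x⟫ = 0 := by rw [real_inner_comm]; exact hxF
  have hi : ⟪v, w⟫ = 0 := h.inner_zero hw hvw (h.mem v) (h.mem w)
  have h2 := SS_norm (V := V) (v + w) x
  rw [h1, norm_sq_add_of (by rw [inner_smul_left, hxF, mul_zero]), norm_sq_add_of hi, inner_add_left, inner_smul_left,
    hFx, norm_smul, real_inner_self_eq_norm_sq] at h2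
  simp only [Real.norm_eq_abs, abs_pow, abs_norm, mul_pow, conj_trivial, add_zero] at h2
  linarith [h2]

theorem Part.FB_self (h : Part V) {v w : E} (hv : v ≠ 0) (hw : w ≠ 0) (hvw : w ∈ (V v)ᗮ) :
    FB V v w v = ‖v‖ ^ 2 • w := by
  have hi : ⟪v, w⟫ = 0 := h.inner_zero hw hvw (h.mem v) (h.mem w)
  have hwv : v ∈ (V w)ᗮ := h.orth' hw hvw (h.mem v)
  have h1 := h.SS_add_of_mem hw hvw (h.mem v)
  have h2 : SS V (v + w) w = ‖w‖ ^ 2 • w + FB V v w w := by
    rw [add_comm v w, h.FB_comm v w]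
    exact h.SS_add_of_mem hv hwv (h.mem w)
  have h3 : SS V (v + w) (v + w) = ‖v + w‖ ^ 2 • (v + w) := SS_of_mem_self (h.mem _)
  rw [map_add, h1, h2, norm_sq_add_of hi] at h3
  have hF1 := h.FB_mem hv hw hvw (h.mem v)
  have hF2 : FB V v w w ∈ V v := by
    rw [h.FB_comm]
    exact h.FB_mem hw hv hwv (h.mem w)
  have h4 := congrArg (V w).starProjection h3
  simp only [map_add, map_smul] at h4
  rw [proj_eq_zero hwv, proj_of_mem hF1, proj_of_mem (h.mem w), proj_eq_zero (h.orth' hw hvw hF2), smul_zero, zero_add,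
    add_zero, zero_add, add_smul] at h4
  exact add_right_cancel h4

theorem Part.FB_FB (h : Part V) {v w x : E} (hv : v ≠ 0) (hw : w ≠ 0) (hvw : w ∈ (V v)ᗮ) (hx : x ∈ V v) :
    FB V v w (FB V v w x) = (‖v‖ ^ 2 * ‖w‖ ^ 2) • x := by
  have hi : ⟪v, w⟫ = 0 := h.inner_zero hw hvw (h.mem v) (h.mem w)
  have hwv : v ∈ (V w)ᗮ := h.orth' hw hvw (h.mem v)
  have hFm := h.FB_mem hv hw hvw hx
  have h1 := h.SS_add_of_mem hw hvw hx
  have h2 : SS V (v + w) (FB V v w x) = ‖w‖ ^ 2 • FB V v w x + FB V v w (FB V v w x) := by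
    have := h.SS_add_of_mem hv hwv hFm
    rw [add_comm w v] at this
    rw [this, h.FB_comm w v]
  have h3 := SS_idem (V := V) (v + w) x
  rw [h1, map_add, map_smul, h1, h2, norm_sq_add_of hi] at h3
  have h4 : FB V v w (FB V v w x) - (‖v‖ ^ 2 * ‖w‖ ^ 2) • x = 0 := by
    have h5 := sub_eq_zero.2 h3
    rw [← h5]
    module
  exact sub_eq_zero.1 h4

theorem Part.FB_eq_zero (h : Part V) {v w z : E} (hv : v ≠ 0) (hw : w ≠ 0) (hvw : w ∈ (V v)ᗮ) (h1 : z ∈ (V v)ᗮ)
    (h2 : z ∈ (V w)ᗮ) : FB V v w z = 0 := by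
  have h3 : z ∈ (V (v + w))ᗮ := by
    rw [Submodule.mem_orthogonal]
    intro y hy
    rw [h.split hv hw hvw hy, inner_add_left,
      (Submodule.mem_orthogonal _ _).1 h1 _ (Submodule.starProjection_apply_mem _ _),
      (Submodule.mem_orthogonal _ _).1 h2 _ (Submodule.starProjection_apply_mem _ _), add_zero]
  have h4 := h.SS_add' v w z
  rw [SS_eq_zero h3, SS_eq_zero h1, SS_eq_zero h2, zero_add, add_zero] at h4
  exact h4.symm

end Pool.Agent.Lib.MP_ccbbf6_gt.Cl
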