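import Pool.Agent.Lib.MP_ccbbf6_gt.ML

/-!
# Hur1: real composition algebras with unit, identities and the Cayley-Dickson doubling step
-/

open scoped RealInnerProductSpace

namespace Blaschke

/-- A real composition algebra with unit on the real inner product space `A` (multiplication not assumed associative). -/
structure CompAlg (A : Type*) [NormedAddCommGroup A] [InnerProductSpace ℝ A] where
  mul : A →ₗ[ℝ] A →ₗ[ℝ] A
  one : A
  one_mul : ∀ x, mul one x = x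
  mul_one : ∀ x, mul x one = x
  norm_mul : ∀ x y, ‖mul x y‖ = ‖x‖ * ‖y‖
  norm_one : ‖one‖ = 1

namespace CompAlg

variable {A : Type*} [NormedAddCommGroup A] [InnerProductSpace ℝ A] (C : CompAlg A)

/-- The conjugation. -/
def cj (x : A) : A := (2 * ⟪x, C.one⟫) • C.one - x

theorem inner_one_one : ⟪C.one, C.one⟫ = 1 := by
  rw [real_inner_self_eq_norm_sq, C.norm_one]; norm_num

theorem inner_mul_self (x y : A) : ⟪C.mul x y, C.mul x y⟫ = ⟪x, x⟫ * ⟪y, y⟫ := by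
  rw [real_inner_self_eq_norm_sq, real_inner_self_eq_norm_sq, real_inner_self_eq_norm_sq, C.norm_mul]; ring

/-- `⟪x y, x z⟫ = ⟪x, x⟫ ⟪y, z⟫`. -/
theorem inner_mul_left (x y z : A) : ⟪C.mul x y, C.mul x z⟫ = ⟪x, x⟫ * ⟪y, z⟫ := by
  have h := C.inner_mul_self x (y + z)
  simp only [map_add, inner_add_left, inner_add_right] at h
  have h1 := C.inner_mul_self x y
  have h2 := C.inner_mul_self x z
  have h3 := real_inner_comm (C.mul x y) (C.mul x z)
  have h4 := real_inner_comm y z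
  rw [h1, h2, h3, h4] at h
  linarith

/-- The exchange law. -/
theorem exch (x y u z : A) : ⟪C.mul x y, C.mul u z⟫ + ⟪C.mul u y, C.mul x z⟫ = 2 * ⟪x, u⟫ * ⟪y, z⟫ := by
  have h := C.inner_mul_left (x + u) y z
  simp only [map_add, LinearMap.add_apply, inner_add_left, inner_add_right] at h
  have h1 := C.inner_mul_left x y z
  have h2 := C.inner_mul_left u y z
  have h4 := real_inner_comm x u
  rw [h1, h2, h4] at h
  linarith

theorem cj_cj (x : A) : C.cj (C.cj x) = x := by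
  unfold cj
  rw [inner_sub_left, real_inner_smul_left, C.inner_one_one]
  have : 2 * (2 * ⟪x, C.one⟫ * 1 - ⟪x, C.one⟫) = 2 * ⟪x, C.one⟫ := by ring
  rw [this]
  abel

theorem cj_add (x y : A) : C.cj (x + y) = C.cj x + C.cj y := by
  unfold cj
  rw [inner_add_left, mul_add, add_smul]; abel

theorem cj_neg (x : A) : C.cj (-x) = - C.cj x := by
  unfold cj
  rw [inner_neg_left, mul_neg, neg_smul]; abel

theorem cj_one : C.cj C.one = C.one := by
  unfold cj
  rw [C.inner_one_one, _root_.mul_one, two_smul]; abel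

/-- `⟪x y, z⟫ = ⟪y, x̄ z⟫`. -/
theorem adj_left (x y z : A) : ⟪C.mul x y, z⟫ = ⟪y, C.mul (C.cj x) z⟫ := by
  have h := C.exch x y C.one z
  rw [C.one_mul, C.one_mul] at h
  unfold cj
  simp only [map_sub, map_smul, LinearMap.sub_apply, LinearMap.smul_apply, inner_sub_right, real_inner_smul_right, C.one_mul]
  linarith

/-- `⟪x y, z⟫ = ⟪x, z ȳ⟫`. -/
theorem adj_right (x y z : A) : ⟪C.mul x y, z⟫ = ⟪x, C.mul z (C.cj y)⟫ := by
  have h := C.exch x y z C.one
  rw [C.mul_one, C.mul_one] at h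
  unfold cj
  simp only [map_sub, map_smul, inner_sub_right, real_inner_smul_right, C.mul_one]
  have h2 := real_inner_comm (C.mul z y) x
  have h3 := real_inner_comm z x
  linarith

theorem inner_cj (x y : A) : ⟪C.cj x, C.cj y⟫ = ⟪x, y⟫ := by
  unfold cj
  simp only [inner_sub_left, inner_sub_right, real_inner_smul_left, real_inner_smul_right, C.inner_one_one]
  have h := real_inner_comm y C.one
  rw [h]; ring

theorem norm_cj (x : A) : ‖C.cj x‖ = ‖x‖ := by
  have h := C.inner_cj x x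
  rw [real_inner_self_eq_norm_sq, real_inner_self_eq_norm_sq] at h
  exact (sq_eq_sq₀ (norm_nonneg _) (norm_nonneg _)).1 h

theorem inner_cj_left (x y : A) : ⟪C.cj x, y⟫ = ⟪x, C.cj y⟫ := by
  have h := C.inner_cj x (C.cj y)
  rwa [C.cj_cj] at h

/-- `conj (x y) = ȳ x̄`. -/
theorem cj_mul (x y : A) : C.cj (C.mul x y) = C.mul (C.cj y) (C.cj x) := by
  refine ext_inner_left ℝ fun z => ?_
  have h1 : ⟪z, C.cj (C.mul x y)⟫ = ⟪C.mul x y, C.cj z⟫ := by
    rw [real_inner_comm, C.inner_cj_left]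
  have h2 : ⟪C.mul x y, C.cj z⟫ = ⟪y, C.mul (C.cj x) (C.cj z)⟫ := C.adj_left x y _
  have h3 : ⟪C.mul y z, C.cj x⟫ = ⟪y, C.mul (C.cj x) (C.cj z)⟫ := C.adj_right y z _
  have h4 : ⟪C.mul y z, C.cj x⟫ = ⟪z, C.mul (C.cj y) (C.cj x)⟫ := C.adj_left y z _
  rw [h1, h2, ← h3, h4]

/-- `x̄ (x y) = |x|² y`. -/
theorem cj_mul_mul (x y : A) : C.mul (C.cj x) (C.mul x y) = ⟪x, x⟫ • y := by
  refine ext_inner_left ℝ fun z => ?_
  rw [← C.adj_left, C.inner_mul_left, real_inner_smul_right]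

theorem mul_cj_mul (x y : A) : C.mul x (C.mul (C.cj x) y) = ⟪x, x⟫ • y := by
  have h := C.cj_mul_mul (C.cj x) y
  rwa [C.cj_cj, C.inner_cj] at h

/-- `(y x) x̄ = |x|² y`. -/
theorem mul_mul_cj (x y : A) : C.mul (C.mul y x) (C.cj x) = ⟪x, x⟫ • y := by
  have h := congrArg C.cj (C.cj_mul_mul (C.cj x) (C.cj y))
  rw [C.cj_mul, C.cj_mul, C.cj_cj, C.cj_cj, C.inner_cj] at h
  rw [h]
  unfold cj
  rw [real_inner_smul_left, inner_sub_left, real_inner_smul_left, C.inner_one_one, smul_sub, smul_smul]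
  rw [show 2 * (⟪x, x⟫ * (2 * ⟪y, C.one⟫ * 1 - ⟪y, C.one⟫)) = ⟪x, x⟫ * (2 * ⟪y, C.one⟫) by ring]
  abel

theorem cj_mul_self (x : A) : C.mul (C.cj x) x = ⟪x, x⟫ • C.one := by
  have h := C.cj_mul_mul x C.one
  rwa [C.mul_one] at h

theorem mul_cj_self (x : A) : C.mul x (C.cj x) = ⟪x, x⟫ • C.one := by
  have h := C.mul_cj_mul x C.one
  rwa [C.mul_one] at h

/-! ### The doubling -/

section Double

variable {i : A}

theorem cj_of_orth (h1 : ⟪i, C.one⟫ = 0) : C.cj i = - i := by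
  unfold cj; rw [h1]; simp

/-- `i (i y) = - |i|² y` for `i ⊥ 1`. -/
theorem mul_mul_of_orth (h1 : ⟪i, C.one⟫ = 0) (y : A) : C.mul i (C.mul i y) = - (⟪i, i⟫ • y) := by
  have h := C.cj_mul_mul i y
  rw [C.cj_of_orth h1] at h
  simp only [map_neg, LinearMap.neg_apply] at h
  rw [← h, neg_neg]

/-- `(y i) i = - |i|² y` for `i ⊥ 1`. -/
theorem mul_mul_of_orth' (h1 : ⟪i, C.one⟫ = 0) (y : A) : C.mul (C.mul y i) i = - (⟪i, i⟫ • y) := by
  have h := C.mul_mul_cj i y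
  rw [C.cj_of_orth h1] at h
  simp only [map_neg] at h
  rw [← h, neg_neg]

/-- `i b = b̄ i` for `i ⊥ 1`, `i ⊥ b̄`. -/
theorem mul_comm_of_orth (h1 : ⟪i, C.one⟫ = 0) {b : A} (hb : ⟪i, C.cj b⟫ = 0) : C.mul i b = C.mul (C.cj b) i := by
  have h0 : ⟪C.mul i b, C.one⟫ = 0 := by
    rw [C.adj_right, C.one_mul]; exact hb
  have h2 : C.cj (C.mul i b) = - C.mul i b := C.cj_of_orth h0
  rw [C.cj_mul, C.cj_of_orth h1, map_neg] at h2
  exact (neg_injective h2).symm

/-- `a (i d) = i (ā d)` for `i ⊥ 1`, `i ⊥ ā`. -/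
theorem dbl1 (h1 : ⟪i, C.one⟫ = 0) {a : A} (ha : ⟪i, C.cj a⟫ = 0) (d : A) : C.mul a (C.mul i d) = C.mul i (C.mul (C.cj a) d) := by
  refine ext_inner_left ℝ fun t => ?_
  have e1 : ⟪t, C.mul a (C.mul i d)⟫ = ⟪C.mul i d, C.mul (C.cj a) t⟫ := by
    rw [real_inner_comm, C.adj_left]
  have e2 := C.exch i d (C.cj a) t
  rw [ha] at e2
  have e3 : ⟪t, C.mul i (C.mul (C.cj a) d)⟫ = - ⟪C.mul (C.cj a) d, C.mul i t⟫ := by
    rw [real_inner_comm, C.adj_left, C.cj_of_orth h1]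
    simp only [map_neg, LinearMap.neg_apply, inner_neg_right]
  rw [e1, e3]
  linarith

/-- `(i b) c = i (c b)` for `i ⊥ 1, b̄, c̄, b̄ c̄`. -/
theorem dbl2 (h1 : ⟪i, C.one⟫ = 0) {b c : A} (hb : ⟪i, C.cj b⟫ = 0) (hc : ⟪i, C.cj c⟫ = 0)
    (hcb : ⟪i, C.cj (C.mul c b)⟫ = 0) : C.mul (C.mul i b) c = C.mul i (C.mul c b) := by
  have e0 := C.mul_comm_of_orth h1 hb
  have e1 := C.mul_comm_of_orth h1 hcb
  rw [e1, C.cj_mul]
  refine ext_inner_left ℝ fun t => ?_
  have f1 : ⟪t, C.mul (C.mul i b) c⟫ = ⟪C.mul (C.cj b) i, C.mul t (C.cj c)⟫ := by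
    rw [real_inner_comm, C.adj_right, e0]
  have f2 := C.exch (C.cj b) i t (C.cj c)
  rw [hc] at f2
  have f3 : ⟪t, C.mul (C.mul (C.cj b) (C.cj c)) i⟫ = - ⟪C.mul t i, C.mul (C.cj b) (C.cj c)⟫ := by
    rw [real_inner_comm, C.adj_right, C.cj_of_orth h1]
    simp only [map_neg, inner_neg_right]
    rw [real_inner_comm]
  rw [f1, f3]
  linarith

/-- `(i b) (i d) = - d b̄` for `i ⊥ 1, b, d, b̄, d̄`, unit. -/
theorem dbl3 (h1 : ⟪i, C.one⟫ = 0) (hi : ⟪i, i⟫ = 1) {b d : A} (hd' : ⟪i, C.cj d⟫ = 0)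
    (hdb : ⟪i, C.mul d (C.cj b)⟫ = 0) : C.mul (C.mul i b) (C.mul i d) = - C.mul d (C.cj b) := by
  refine ext_inner_left ℝ fun t => ?_
  have hid : C.cj (C.mul i d) = - C.mul i d := by
    refine C.cj_of_orth ?_
    rw [C.adj_right, C.one_mul]; exact hd'
  have e1 : ⟪t, C.mul (C.mul i b) (C.mul i d)⟫ = - ⟪C.mul i b, C.mul t (C.mul i d)⟫ := by
    rw [real_inner_comm, C.adj_right, hid, map_neg, inner_neg_right]
  rw [e1, inner_neg_right]
  congr 1
  -- decompose `t`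
  set s : ℝ := ⟪i, C.cj t⟫ with hs
  have hsi : C.cj i = - i := C.cj_of_orth h1
  set u : A := t + s • i with hu
  have hut : t = u - s • i := by rw [hu]; abel
  have hui : ⟪i, C.cj u⟫ = 0 := by
    have : C.cj u = C.cj t - s • i := by
      rw [hu, C.cj_add]
      have : C.cj (s • i) = - (s • i) := by
        refine C.cj_of_orth ?_
        rw [real_inner_smul_left, h1, mul_zero]
      rw [this]; abel
    rw [this, inner_sub_right, real_inner_smul_right, hi, ← hs]; ring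
  have g1 : C.mul u (C.mul i d) = C.mul i (C.mul (C.cj u) d) := C.dbl1 h1 hui d
  have g2 : C.mul i (C.mul i d) = - d := by
    rw [C.mul_mul_of_orth h1, hi, one_smul]
  have g3 : C.mul t (C.mul i d) = C.mul i (C.mul (C.cj u) d) + s • d := by
    conv_lhs => rw [hut]
    simp only [map_sub, map_smul, LinearMap.sub_apply, LinearMap.smul_apply]
    rw [g1, g2, smul_neg, sub_neg_eq_add]
  rw [g3, inner_add_right, C.inner_mul_left, hi, _root_.one_mul, real_inner_smul_right]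
  have g4 : ⟪C.mul i b, d⟫ = 0 := by
    rw [C.adj_right]; exact hdb
  rw [g4, mul_zero, add_zero]
  have g5 : ⟪b, C.mul (C.cj u) d⟫ = ⟪C.mul d (C.cj b), u⟫ := by
    have k1 : ⟪C.mul d (C.cj b), u⟫ = ⟪C.cj (C.mul d (C.cj b)), C.cj u⟫ := (C.inner_cj _ _).symm
    rw [k1, C.cj_mul, C.cj_cj, C.adj_right, C.cj_cj]
  rw [g5, hut, inner_sub_left, real_inner_smul_left, hdb, mul_zero, sub_zero, real_inner_comm]

end Double

section Step

variable {K : Type*} [NormedAddCommGroup K] [InnerProductSpace ℝ K] (B : CompAlg K)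

theorem map_cj (φ : K →ₗᵢ[ℝ] A) (h1 : φ B.one = C.one) (x : K) : φ (B.cj x) = C.cj (φ x) := by
  unfold cj
  rw [map_sub, map_smul, h1, ← h1, φ.inner_map_map]

/-- The doubling step. -/
theorem step [FiniteDimensional ℝ K] (φ : K →ₗᵢ[ℝ] A) (h1 : φ B.one = C.one)
    (hm : ∀ x y, φ (B.mul x y) = C.mul (φ x) (φ y)) (hs : ¬ Function.Surjective φ) :
    ∃ i : A, ‖i‖ = 1 ∧ (∀ x, ⟪i, φ x⟫ = 0) ∧
      (∀ a b c d : K, C.mul (φ a + C.mul i (φ b)) (φ c + C.mul i (φ d))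
        = φ (B.mul a c - B.mul d (B.cj b)) + C.mul i (φ (B.mul c b + B.mul (B.cj a) d))) ∧
      (∀ a b c d : K, ⟪φ a + C.mul i (φ b), φ c + C.mul i (φ d)⟫ = ⟪a, c⟫ + ⟪b, d⟫) ∧
      (∀ x y z : K, B.mul (B.mul x y) z = B.mul x (B.mul y z)) := by
  classical
  -- a unit vector orthogonal to the range
  obtain ⟨i, hin, hir⟩ : ∃ i : A, ‖i‖ = 1 ∧ ∀ x, ⟪i, φ x⟫ = 0 := by
    have hr : (LinearMap.range φ.toLinearMap) ≠ ⊤ := by
      intro h
      exact hs (LinearMap.range_eq_top.1 h)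
    have hr' : (LinearMap.range φ.toLinearMap)ᗮ ≠ ⊥ := by
      intro h
      apply hr
      exact (Submodule.orthogonal_eq_bot_iff).1 h
    obtain ⟨v, hv, hv0⟩ := Submodule.exists_mem_ne_zero_of_ne_bot hr'
    refine ⟨(‖v‖⁻¹ : ℝ) • v, ?_, fun x => ?_⟩
    · rw [norm_smul, norm_inv, norm_norm, inv_mul_cancel₀ (norm_ne_zero_iff.2 hv0)]
    · rw [real_inner_smul_left, real_inner_comm]
      have := (Submodule.mem_orthogonal _ v).1 hv (φ x) ⟨x, rfl⟩
      rw [this, mul_zero]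
  have hii : ⟪i, i⟫ = 1 := by rw [real_inner_self_eq_norm_sq, hin]; norm_num
  have hi1 : ⟪i, C.one⟫ = 0 := by rw [← h1]; exact hir _
  have hc : ∀ x, ⟪i, C.cj (φ x)⟫ = 0 := fun x => by rw [← C.map_cj B φ h1]; exact hir _
  have hprod : ∀ a b c d : K, C.mul (φ a + C.mul i (φ b)) (φ c + C.mul i (φ d))
        = φ (B.mul a c - B.mul d (B.cj b)) + C.mul i (φ (B.mul c b + B.mul (B.cj a) d)) := by
    intro a b c d
    have e1 := C.dbl1 hi1 (hc a) (φ d)
    have e2 := C.dbl2 hi1 (hc b) (hc c) (by rw [← hm]; exact hc _)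
    have e3 := C.dbl3 (b := φ b) hi1 hii (hc d) (by rw [← C.map_cj B φ h1, ← hm]; exact hir _)
    simp only [map_add, map_sub, LinearMap.add_apply]
    rw [e1, e2, e3, hm, hm, hm, hm, C.map_cj B φ h1, C.map_cj B φ h1]
    abel
  have hinner : ∀ a b c d : K, ⟪φ a + C.mul i (φ b), φ c + C.mul i (φ d)⟫ = ⟪a, c⟫ + ⟪b, d⟫ := by
    intro a b c d
    have e1 : ⟪φ a, C.mul i (φ d)⟫ = 0 := by
      rw [real_inner_comm, C.adj_right, ← C.map_cj B φ h1, ← hm]; exact hir _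
    have e2 : ⟪C.mul i (φ b), φ c⟫ = 0 := by
      rw [C.adj_right, ← C.map_cj B φ h1, ← hm]; exact hir _
    rw [inner_add_left, inner_add_right, inner_add_right, e1, e2, C.inner_mul_left, hii, φ.inner_map_map, φ.inner_map_map]
    ring
  refine ⟨i, hin, hir, hprod, hinner, ?_⟩
  -- associativity of `B`
  intro x y z
  -- `a = x`, `c = y`, `b = z`
  refine ext_inner_right ℝ fun d => ?_
  have key : ∀ a b c d : K, ⟪B.mul a c, B.mul d (B.cj b)⟫ = ⟪B.mul c b, B.mul (B.cj a) d⟫ := by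
    intro a b c d
    have n1 := C.inner_mul_self (φ a + C.mul i (φ b)) (φ c + C.mul i (φ d))
    rw [hprod, hinner, hinner, hinner] at n1
    simp only [inner_sub_left, inner_sub_right, inner_add_left, inner_add_right] at n1
    have m1 := B.inner_mul_self a c
    have m2 := B.inner_mul_self d (B.cj b)
    have m3 := B.inner_mul_self c b
    have m4 := B.inner_mul_self (B.cj a) d
    rw [B.inner_cj] at m2 m4
    rw [m1, m2, m3, m4, real_inner_comm (B.mul a c) (B.mul d (B.cj b)), real_inner_comm (B.mul c b) (B.mul (B.cj a) d)] at n1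
    linarith
  have k := key x z y d
  rw [B.adj_right (B.mul x y) z d, k, B.adj_left x (B.mul y z) d]

end Step

end CompAlg

end Blaschke
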