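import Pool.Agent.Lib.MP_ccbbf6_gt.Cls.DecB
import Pool.Agent.Lib.MP_ccbbf6_gt.Cls.Hur1

/-!
# DecC: the composition algebra of a block (helper59)

`e` a unit vector, `A = V e`.  For `x : A` and `w ∈ Aᗮ` let `LM x w = FB V e w x`.  It is bilinear, `‖LM x w‖ = ‖x‖ ‖w‖`, `LM e w = w` and
`V w = {LM x w}`.  A unit vector `w₀ ∈ Aᗮ` gives a composition algebra on `A` with `LM (x y) w₀ = LM x (LM y w₀)`.
-/

set_option autoImplicit false

open RealInnerProductSpace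

namespace Pool.Agent.Lib.MP_ccbbf6_gt.Cl

variable {E : Type*} [NormedAddCommGroup E] [InnerProductSpace ℝ E] [FiniteDimensional ℝ E]

variable {V : E → Submodule ℝ E}

theorem Part.FB_add_right (h : Part V) (v w w' : E) : FB V v (w + w') = FB V v w + FB V v w' := by
  rw [FB, FB, FB, h.S4_add_right, smul_add]

theorem Part.FB_smul_right (h : Part V) (c : ℝ) (v w : E) : FB V v (c • w) = c • FB V v w := by
  rw [FB, FB, h.S4_smul_right, smul_comm]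

theorem Part.FB_add_left (h : Part V) (v v' w : E) : FB V (v + v') w = FB V v w + FB V v' w := by
  rw [FB, FB, FB, h.S4_add_left, smul_add]

theorem Part.FB_smul_left (h : Part V) (c : ℝ) (v w : E) : FB V (c • v) w = c • FB V v w := by
  rw [FB, FB, h.S4_smul_left, smul_comm]

theorem Part.FB_zero_right (h : Part V) (v : E) : FB V v 0 = 0 := by
  have := h.FB_smul_right 0 v 0
  rwa [zero_smul, zero_smul] at this

theorem Part.FB_zero_left (h : Part V) (v : E) : FB V 0 v = 0 := by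
  rw [h.FB_comm, h.FB_zero_right]

/-- the action of the block `V e` -/
noncomputable def Part.LM (h : Part V) (e : E) : V e →ₗ[ℝ] E →ₗ[ℝ] E :=
  LinearMap.mk₂ ℝ (fun x w => FB V e w (x : E))
    (fun x x' w => by rw [Submodule.coe_add, map_add])
    (fun c x w => by rw [Submodule.coe_smul, map_smul])
    (fun x w w' => by rw [h.FB_add_right, LinearMap.add_apply])
    (fun c x w => by rw [h.FB_smul_right, LinearMap.smul_apply])

theorem Part.LM_apply (h : Part V) {e : E} (x : V e) (w : E) : h.LM e x w = FB V e w (x : E) := rfl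

omit [InnerProductSpace ℝ E] [FiniteDimensional ℝ E] in
theorem ne_zero_of_one {e : E} (he : ‖e‖ = 1) : e ≠ 0 := by
  intro h0
  rw [h0, norm_zero] at he
  exact zero_ne_one he

theorem Part.LM_one (h : Part V) {e w : E} (he : ‖e‖ = 1) (hw : w ∈ (V e)ᗮ) : h.LM e ⟨e, h.mem e⟩ w = w := by
  by_cases h0 : w = 0
  · rw [h0, map_zero]
  · rw [h.LM_apply, h.FB_self (ne_zero_of_one he) h0 hw, he, one_pow, one_smul]

theorem Part.LM_mem (h : Part V) {e w : E} (he : ‖e‖ = 1) (hw : w ∈ (V e)ᗮ) (h0 : w ≠ 0) (x : V e) :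
    h.LM e x w ∈ V w := by
  rw [h.LM_apply]
  exact h.FB_mem (ne_zero_of_one he) h0 hw x.2

theorem Part.LM_orth (h : Part V) {e w : E} (hw : w ∈ (V e)ᗮ) (x : V e) :
    h.LM e x w ∈ (V e)ᗮ := by
  rw [h.LM_apply]
  exact h.FB_orth hw x.2

theorem Part.LM_sq (h : Part V) {e w : E} (he : ‖e‖ = 1) (hw : w ∈ (V e)ᗮ) (x : V e) :
    ‖h.LM e x w‖ ^ 2 = ‖x‖ ^ 2 * ‖w‖ ^ 2 := by
  by_cases h0 : w = 0
  · rw [h0, map_zero]; simp
  · rw [h.LM_apply, h.FB_norm (ne_zero_of_one he) h0 hw x.2, he]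
    rw [Submodule.coe_norm]
    ring

theorem Part.LM_norm (h : Part V) {e w : E} (he : ‖e‖ = 1) (hw : w ∈ (V e)ᗮ) (x : V e) :
    ‖h.LM e x w‖ = ‖x‖ * ‖w‖ := by
  have := h.LM_sq he hw x
  rw [← mul_pow] at this
  exact (sq_eq_sq₀ (norm_nonneg _) (by positivity)).1 this

/-- polarised in `x` -/
theorem Part.LM_inner_left (h : Part V) {e w : E} (he : ‖e‖ = 1) (hw : w ∈ (V e)ᗮ) (x y : V e) :
    ⟪h.LM e x w, h.LM e y w⟫ = ⟪x, y⟫ * ‖w‖ ^ 2 := by
  have h1 := h.LM_sq he hw (x + y)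
  rw [map_add, LinearMap.add_apply, norm_add_sq_real, h.LM_sq he hw, h.LM_sq he hw, norm_add_sq_real] at h1
  linarith

/-- polarised in `w` -/
theorem Part.LM_inner_right (h : Part V) {e w w' : E} (he : ‖e‖ = 1) (hw : w ∈ (V e)ᗮ) (hw' : w' ∈ (V e)ᗮ) (x : V e) :
    ⟪h.LM e x w, h.LM e x w'⟫ = ‖x‖ ^ 2 * ⟪w, w'⟫ := by
  have h1 := h.LM_sq he ((V e)ᗮ.add_mem hw hw') x
  rw [map_add, norm_add_sq_real, h.LM_sq he hw, h.LM_sq he hw', norm_add_sq_real] at h1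
  linarith

theorem Part.LM_exch (h : Part V) {e w w' : E} (he : ‖e‖ = 1) (hw : w ∈ (V e)ᗮ) (hw' : w' ∈ (V e)ᗮ) (x y : V e) :
    ⟪h.LM e x w, h.LM e y w'⟫ + ⟪h.LM e y w, h.LM e x w'⟫ = 2 * ⟪x, y⟫ * ⟪w, w'⟫ := by
  have h1 := h.LM_inner_right he hw hw' (x + y)
  rw [map_add, LinearMap.add_apply, LinearMap.add_apply, inner_add_left, inner_add_right, inner_add_right,
    h.LM_inner_right he hw hw', h.LM_inner_right he hw hw', norm_add_sq_real] at h1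
  linarith

theorem Part.LM_inj (h : Part V) {e w : E} (he : ‖e‖ = 1) (hw : w ∈ (V e)ᗮ) (h0 : w ≠ 0) {x y : V e}
    (hxy : h.LM e x w = h.LM e y w) : x = y := by
  have h1 := h.LM_norm he hw (x - y)
  rw [map_sub, LinearMap.sub_apply, hxy, sub_self, norm_zero] at h1
  rcases mul_eq_zero.1 h1.symm with h2 | h2
  · exact sub_eq_zero.1 (norm_eq_zero.1 h2)
  · exact absurd (norm_eq_zero.1 h2) h0

/-- the inverse of `x ↦ LM x w` -/
theorem Part.LM_back (h : Part V) {e w y : E} (he : ‖e‖ = 1) (hw : w ∈ (V e)ᗮ) (h0 : w ≠ 0) (hy : y ∈ V w) :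
    FB V e w y ∈ V e ∧ FB V e w (FB V e w y) = ‖w‖ ^ 2 • y := by
  have he0 := ne_zero_of_one he
  have ho : e ∈ (V w)ᗮ := h.orth' h0 hw (h.mem e)
  constructor
  · rw [h.FB_comm]
    exact h.FB_mem h0 he0 ho hy
  · rw [h.FB_comm, h.FB_FB h0 he0 ho hy, he]
    simp

theorem Part.LM_surj (h : Part V) {e w y : E} (he : ‖e‖ = 1) (hw : w ∈ (V e)ᗮ) (h0 : w ≠ 0) (hy : y ∈ V w) :
    ∃ x : V e, h.LM e x w = y := by
  obtain ⟨h1, h2⟩ := h.LM_back he hw h0 hy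
  refine ⟨(‖w‖ ^ 2)⁻¹ • ⟨FB V e w y, h1⟩, ?_⟩
  rw [map_smul, LinearMap.smul_apply, h.LM_apply, h2, smul_smul, inv_mul_cancel₀ (by positivity), one_smul]

theorem Part.V_LM (h : Part V) {e w : E} (he : ‖e‖ = 1) (hw : w ∈ (V e)ᗮ) (h0 : w ≠ 0) {x : V e} (hx : x ≠ 0) :
    h.LM e x w ≠ 0 ∧ V (h.LM e x w) = V w := by
  have h1 : h.LM e x w ≠ 0 := by
    intro h2
    have := h.LM_norm he hw x
    rw [h2, norm_zero] at this
    rcases mul_eq_zero.1 this.symm with h3 | h3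
    · exact hx (norm_eq_zero.1 h3)
    · exact h0 (norm_eq_zero.1 h3)
  exact ⟨h1, h.eq_of_mem (h.LM_mem he hw h0 x) h1⟩

theorem Part.LM_LM_mem (h : Part V) {e w : E} (he : ‖e‖ = 1) (hw : w ∈ (V e)ᗮ) (h0 : w ≠ 0) (x y : V e) :
    h.LM e x (h.LM e y w) ∈ V w := by
  by_cases hy : y = 0
  · rw [hy, map_zero, LinearMap.zero_apply, map_zero]
    exact (V w).zero_mem
  · obtain ⟨h1, h2⟩ := h.V_LM he hw h0 hy
    rw [← h2]
    exact h.LM_mem he (h.LM_orth hw y) h1 x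

theorem Part.alg_norm (h : Part V) {e w₀ : E} (he : ‖e‖ = 1) (hw : ‖w₀‖ = 1) (ho : w₀ ∈ (V e)ᗮ) (x y : V e) :
    ‖FB V e w₀ (h.LM e x (h.LM e y w₀))‖ = ‖x‖ * ‖y‖ := by
  have h0 := ne_zero_of_one hw
  have h1 : ‖FB V w₀ e (h.LM e x (h.LM e y w₀))‖ ^ 2 = ‖w₀‖ ^ 2 * ‖e‖ ^ 2 * ‖h.LM e x (h.LM e y w₀)‖ ^ 2 :=
    h.FB_norm h0 (ne_zero_of_one he) (h.orth' h0 ho (h.mem e)) (h.LM_LM_mem he ho h0 x y)
  rw [hw, he, one_pow, one_mul, one_mul, h.LM_norm he (h.LM_orth ho y), h.LM_norm he ho, hw, mul_one, h.FB_comm] at h1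
  exact (sq_eq_sq₀ (norm_nonneg _) (by positivity)).1 h1

/-- the product of the block `V e` defined by the unit vector `w₀` -/
noncomputable def Part.alg (h : Part V) {e w₀ : E} (he : ‖e‖ = 1) (hw : ‖w₀‖ = 1) (ho : w₀ ∈ (V e)ᗮ) :
    Blaschke.CompAlg (V e) where
  mul := LinearMap.mk₂ ℝ (fun x y => ⟨FB V e w₀ (h.LM e x (h.LM e y w₀)),
      (h.LM_back he ho (ne_zero_of_one hw) (h.LM_LM_mem he ho (ne_zero_of_one hw) x y)).1⟩)
    (fun x x' y => Subtype.ext (by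
      rw [Submodule.coe_add]
      simp only [map_add, LinearMap.add_apply]))
    (fun c x y => Subtype.ext (by
      rw [Submodule.coe_smul]
      simp only [map_smul, LinearMap.smul_apply]))
    (fun x y y' => Subtype.ext (by
      rw [Submodule.coe_add]
      simp only [map_add, LinearMap.add_apply]))
    (fun c x y => Subtype.ext (by
      rw [Submodule.coe_smul]
      simp only [map_smul, LinearMap.smul_apply]))
  one := ⟨e, h.mem e⟩
  one_mul := fun x => Subtype.ext (by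
    rw [LinearMap.mk₂_apply]
    change FB V e w₀ (h.LM e ⟨e, h.mem e⟩ (h.LM e x w₀)) = x
    rw [h.LM_one he (h.LM_orth ho x), h.LM_apply, h.FB_FB (ne_zero_of_one he) (ne_zero_of_one hw) ho x.2, he, hw]
    simp)
  mul_one := fun x => Subtype.ext (by
    rw [LinearMap.mk₂_apply]
    change FB V e w₀ (h.LM e x (h.LM e ⟨e, h.mem e⟩ w₀)) = x
    rw [h.LM_one he ho, h.LM_apply, h.FB_FB (ne_zero_of_one he) (ne_zero_of_one hw) ho x.2, he, hw]
    simp)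
  norm_mul := fun x y => by
    rw [LinearMap.mk₂_apply, Submodule.coe_norm]
    exact h.alg_norm he hw ho x y
  norm_one := he

section Alg

variable {e w₀ : E} (h : Part V) (he : ‖e‖ = 1) (hw : ‖w₀‖ = 1) (ho : w₀ ∈ (V e)ᗮ)

theorem Part.alg_one : (h.alg he hw ho).one = ⟨e, h.mem e⟩ := rfl

theorem Part.alg_mul (x y : V e) : h.LM e ((h.alg he hw ho).mul x y) w₀ = h.LM e x (h.LM e y w₀) := by
  have h0 := ne_zero_of_one hw
  have h1 := h.LM_back he ho h0 (h.LM_LM_mem he ho h0 x y)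
  rw [h.LM_apply]
  change FB V e w₀ (FB V e w₀ (h.LM e x (h.LM e y w₀))) = _
  rw [h1.2, hw, one_pow, one_smul]

theorem Part.LM_cj (x : V e) {w : E} (hwo : w ∈ (V e)ᗮ) :
    h.LM e ((h.alg he hw ho).cj x) w = (2 * ⟪(x : E), e⟫) • w - h.LM e x w := by
  unfold Blaschke.CompAlg.cj
  rw [map_sub, map_smul, LinearMap.sub_apply, LinearMap.smul_apply, h.alg_one, h.LM_one he hwo, Submodule.coe_inner]

theorem Part.LM_adj (x : V e) {w w' : E} (h1 : w ∈ (V e)ᗮ) (h2 : w' ∈ (V e)ᗮ) :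
    ⟪h.LM e x w, w'⟫ = ⟪w, h.LM e ((h.alg he hw ho).cj x) w'⟫ := by
  have h3 := h.LM_exch he h1 h2 x ⟨e, h.mem e⟩
  rw [h.LM_one he h1, h.LM_one he h2] at h3
  rw [h.LM_cj he hw ho x h2, inner_sub_right, inner_smul_right]
  rw [Submodule.coe_inner] at h3
  linarith

theorem Part.LM_cj_LM (x : V e) {w : E} (h1 : w ∈ (V e)ᗮ) :
    h.LM e ((h.alg he hw ho).cj x) (h.LM e x w) = ‖x‖ ^ 2 • w := by
  have h3 : h.LM e ((h.alg he hw ho).cj x) (h.LM e x w) - ‖x‖ ^ 2 • w ∈ (V e)ᗮ :=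
    (V e)ᗮ.sub_mem (h.LM_orth (h.LM_orth h1 _) _) ((V e)ᗮ.smul_mem _ h1)
  have h2 : ∀ w' ∈ (V e)ᗮ, ⟪w', h.LM e ((h.alg he hw ho).cj x) (h.LM e x w) - ‖x‖ ^ 2 • w⟫ = 0 := by
    intro w' hw'
    rw [inner_sub_right, ← h.LM_adj he hw ho x hw' (h.LM_orth h1 _), h.LM_inner_right he hw' h1, inner_smul_right,
      sub_self]
  exact sub_eq_zero.1 (inner_self_eq_zero.1 (h2 _ h3))

end Alg

end Pool.Agent.Lib.MP_ccbbf6_gt.Cl
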