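import Pool.Agent.Lib.MP_ccbbf6_gt.Cls.DecC

/-!
# DecD: the form `NN` on `A + Aᗮ`, independence of the product, associativity (helper59)
-/

set_option autoImplicit false

open RealInnerProductSpace

namespace Pool.Agent.Lib.MP_ccbbf6_gt.Cl

variable {E : Type*} [NormedAddCommGroup E] [InnerProductSpace ℝ E] [FiniteDimensional ℝ E]

variable {V : E → Submodule ℝ E}

omit [FiniteDimensional ℝ E] in
theorem inner_of_orth {U : Submodule ℝ E} {x y : E} (hx : x ∈ U) (hy : y ∈ Uᗮ) : ⟪x, y⟫ = 0 :=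
  (Submodule.mem_orthogonal _ _).1 hy x hx

omit [FiniteDimensional ℝ E] in
theorem inner_of_orth' {U : Submodule ℝ E} {x y : E} (hx : x ∈ U) (hy : y ∈ Uᗮ) : ⟪y, x⟫ = 0 := by
  rw [real_inner_comm]
  exact inner_of_orth hx hy

/-- `FB a w c = LM c (FB a w e)` -/
theorem Part.FB_eq (h : Part V) {e : E} (he : ‖e‖ = 1) {a c w : E} (ha : a ∈ V e) (ha0 : a ≠ 0) (hc : c ∈ V e)
    (hwo : w ∈ (V e)ᗮ) (h0 : w ≠ 0) : FB V a w c = FB V e (FB V a w e) c := by
  have hVa : V a = V e := h.eq_of_mem ha ha0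
  have hwa : w ∈ (V a)ᗮ := by rw [hVa]; exact hwo
  have hea : e ∈ V a := by rw [hVa]; exact h.mem e
  have hca : c ∈ V a := by rw [hVa]; exact hc
  have hapos : 0 < ‖a‖ ^ 2 := by
    have : 0 < ‖a‖ := norm_pos_iff.2 ha0
    positivity
  have hwpos : 0 < ‖w‖ ^ 2 := by
    have : 0 < ‖w‖ := norm_pos_iff.2 h0
    positivity
  have hi : ⟪a, w⟫ = 0 := inner_of_orth ha hwo
  obtain ⟨w', hw'⟩ : ∃ w', w' = FB V a w e := ⟨_, rfl⟩
  have hw'm : w' ∈ V w := by rw [hw']; exact h.FB_mem ha0 h0 hwa hea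
  have hw'n : ‖w'‖ ^ 2 = ‖a‖ ^ 2 * ‖w‖ ^ 2 := by
    rw [hw', h.FB_norm ha0 h0 hwa hea, he]
    ring
  have hw'0 : w' ≠ 0 := by
    intro h1
    rw [h1, norm_zero] at hw'n
    have : 0 < ‖a‖ ^ 2 * ‖w‖ ^ 2 := by positivity
    rw [← hw'n] at this
    norm_num at this
  have hw'o : w' ∈ (V e)ᗮ := h.orth h0 hwo hw'm
  have hz : SS V (a + w) e = ‖a‖ ^ 2 • e + w' := by
    rw [h.SS_add_of_mem h0 hwa hea, hw']
  have hzm : ‖a‖ ^ 2 • e + w' ∈ V (a + w) := by
    rw [← hz]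
    exact SS_mem _ _
  have hzi : ⟪‖a‖ ^ 2 • e, w'⟫ = 0 := by
    rw [inner_smul_left, inner_of_orth (h.mem e) hw'o, mul_zero]
  have hzn : ‖‖a‖ ^ 2 • e + w'‖ ^ 2 = ‖a‖ ^ 2 * ‖a + w‖ ^ 2 := by
    rw [norm_sq_add_of hzi, norm_sq_add_of hi, hw'n, norm_smul, he]
    simp only [norm_pow, norm_norm]
    ring
  have hawpos : 0 < ‖a + w‖ ^ 2 := by
    rw [norm_sq_add_of hi]
    positivity
  have hz0 : ‖a‖ ^ 2 • e + w' ≠ 0 := by
    intro h1
    rw [h1, norm_zero] at hzn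
    have : 0 < ‖a‖ ^ 2 * ‖a + w‖ ^ 2 := by positivity
    rw [← hzn] at this
    norm_num at this
  have key := h.SS_of_mem hzm hz0 c
  have hae0 : ‖a‖ ^ 2 • e ≠ 0 := smul_ne_zero hapos.ne' (ne_zero_of_one he)
  have hVae : V (‖a‖ ^ 2 • e) = V e := h.eq_of_mem ((V e).smul_mem _ (h.mem e)) hae0
  rw [h.SS_add_of_mem h0 hwa hca, h.SS_add_of_mem hw'0 (by rw [hVae]; exact hw'o) (by rw [hVae]; exact hc), hzn,
    h.FB_smul_left, LinearMap.smul_apply, norm_smul, he] at key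
  simp only [norm_pow, norm_norm] at key
  have key2 : (‖a‖ ^ 2 * ‖a + w‖ ^ 2) • (FB V e w' c - FB V a w c) = 0 := by
    have h5 := sub_eq_zero.2 key
    rw [← h5]
    module
  rcases smul_eq_zero.1 key2 with h6 | h6
  · exact absurd h6 (by positivity)
  · rw [← hw']
    exact (sub_eq_zero.1 h6).symm

section Alg

variable {e w₀ : E} (h : Part V) (he : ‖e‖ = 1) (hw : ‖w₀‖ = 1) (ho : w₀ ∈ (V e)ᗮ)

/-- the key formula -/
theorem Part.FB_LM (a c : V e) {w : E} (hwo : w ∈ (V e)ᗮ) :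
    FB V a w c = h.LM e c (h.LM e ((h.alg he hw ho).cj a) w) := by
  by_cases h0 : w = 0
  · rw [h0, h.FB_zero_right, map_zero, map_zero]
    rfl
  by_cases ha : a = 0
  · have hc0 : (h.alg he hw ho).cj 0 = 0 := by
      unfold Blaschke.CompAlg.cj
      simp
    rw [ha, hc0, Submodule.coe_zero, h.FB_zero_left, map_zero (h.LM e), LinearMap.zero_apply, LinearMap.zero_apply,
      map_zero]
  have ha0 : (a : E) ≠ 0 := fun h1 => ha (Subtype.ext h1)
  have hVa : V a = V e := h.eq_of_mem a.2 ha0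
  have hwa : w ∈ (V a)ᗮ := by rw [hVa]; exact hwo
  have h1 := h.FB_eq he a.2 ha0 c.2 hwo h0
  have h2 := h.FB_eq he a.2 ha0 a.2 hwo h0
  rw [h.FB_self ha0 h0 hwa] at h2
  have hw'o : FB V a w e ∈ (V e)ᗮ := by
    have := h.FB_orth (v := a) (w := w) (x := e) hwa (by rw [hVa]; exact h.mem e)
    rwa [hVa] at this
  have h3 := h.LM_cj_LM he hw ho a hw'o
  rw [h.LM_apply a, ← h2, map_smul] at h3
  have h4 : (‖(a : E)‖ ^ 2) • (h.LM e ((h.alg he hw ho).cj a) w - FB V a w e) = 0 := by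
    rw [smul_sub, sub_eq_zero]
    exact h3
  have h5 : h.LM e ((h.alg he hw ho).cj a) w = FB V a w e := by
    rcases smul_eq_zero.1 h4 with h6 | h6
    · exact absurd h6 (by positivity)
    · exact sub_eq_zero.1 h6
  rw [h1, h5, h.LM_apply]

include h in
theorem Part.SS_coe (a : V e) (c : V e) {u : E} (hu : u ∈ (V e)ᗮ) : SS V (a : E) (c + u) = ‖a‖ ^ 2 • (c : E) := by
  by_cases ha : a = 0
  · rw [ha]
    simp [SS_zero]
  have ha0 : (a : E) ≠ 0 := fun h1 => ha (Subtype.ext h1)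
  have hVa : V a = V e := h.eq_of_mem a.2 ha0
  rw [map_add, SS_of_mem_self (by rw [hVa]; exact c.2), SS_eq_zero (by rw [hVa]; exact hu), add_zero, Submodule.coe_norm]

include h in
theorem Part.SS_orth {c w : E} (hc : c ∈ V e) (hwo : w ∈ (V e)ᗮ) : SS V w c = 0 := by
  by_cases h0 : w = 0
  · rw [h0, SS_zero]
    rfl
  · exact SS_eq_zero (h.orth' h0 hwo hc)

/-- the form on `A + Aᗮ` -/
theorem Part.NN_split (a c : V e) {w u : E} (hwo : w ∈ (V e)ᗮ) (huo : u ∈ (V e)ᗮ) :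
    NN V (a + w) (c + u) = ‖a‖ ^ 2 * ‖c‖ ^ 2 + NN V w u
      + 2 * ⟪h.LM e c (h.LM e ((h.alg he hw ho).cj a) w), u⟫ := by
  have hcu : ⟪(c : E), u⟫ = 0 := inner_of_orth c.2 huo
  have e1 : ⟪SS V (a : E) (c + u), (c : E) + u⟫ = ‖a‖ ^ 2 * ‖c‖ ^ 2 := by
    rw [h.SS_coe a c huo, inner_smul_left, inner_add_right, hcu, real_inner_self_eq_norm_sq, add_zero,
      ← Submodule.coe_norm]
    rfl
  have e2 : ⟪SS V w (c + u), (c : E) + u⟫ = NN V w u := by
    have h1 : SS V w (c : E) = 0 := h.SS_orth c.2 hwo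
    rw [map_add, h1, zero_add, inner_add_right, SS_symm, h1, inner_zero_right, zero_add, SS_self]
  have e3 : ⟪FB V a w (c + u), (c : E) + u⟫ = 2 * ⟪FB V a w c, u⟫ := by
    have h1 : ⟪FB V a w c, (c : E)⟫ = 0 := by
      rw [h.FB_LM he hw ho a c hwo]
      exact inner_of_orth' c.2 (h.LM_orth (h.LM_orth hwo _) _)
    have h2 : ⟪FB V a w u, u⟫ = 0 := by
      rw [FB, LinearMap.smul_apply, inner_smul_left, h.swap, h.S4_self, h.SS_orth a.2 huo, inner_zero_left, mul_zero]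
    have h3 : ⟪FB V a w u, (c : E)⟫ = ⟪FB V a w c, u⟫ := by
      rw [FB_symm, real_inner_comm]
    rw [map_add, inner_add_left, inner_add_right, inner_add_right, h1, h2, h3]
    ring
  rw [← SS_self, h.SS_add', inner_add_left, inner_add_left, e1, e2, e3, h.FB_LM he hw ho a c hwo]
  ring

include h he in
/-- the product does not depend on the block -/
theorem Part.indep {w w' : E} (hwo : w ∈ (V e)ᗮ) (hwo' : w' ∈ (V e)ᗮ) (h0 : w ≠ 0) (h0' : w' ≠ 0)
    (hww : w' ∈ (V w)ᗮ) {p q r : V e} (hr : h.LM e r w = h.LM e p (h.LM e q w)) :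
    h.LM e r w' = h.LM e p (h.LM e q w') := by
  have hi : ⟪w, w'⟫ = 0 := inner_of_orth (h.mem w) hww
  have hs0 : w + w' ≠ 0 := by
    intro h1
    have h2 := norm_sq_add_of hi
    have h3 : 0 < ‖w‖ ^ 2 := by
      have : 0 < ‖w‖ := norm_pos_iff.2 h0
      positivity
    have h4 : 0 ≤ ‖w'‖ ^ 2 := by positivity
    rw [h1, norm_zero] at h2
    linarith
  have hso : w + w' ∈ (V e)ᗮ := (V e)ᗮ.add_mem hwo hwo'
  obtain ⟨r', hr'⟩ := h.LM_surj he hso hs0 (h.LM_LM_mem he hso hs0 p q)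
  simp only [map_add] at hr'
  have hm1 : h.LM e r' w ∈ V w := h.LM_mem he hwo h0 _
  have hm2 : h.LM e r' w' ∈ (V w)ᗮ := h.orth h0' hww (h.LM_mem he hwo' h0' _)
  have hm3 : h.LM e p (h.LM e q w) ∈ V w := h.LM_LM_mem he hwo h0 _ _
  have hm4 : h.LM e p (h.LM e q w') ∈ (V w)ᗮ := h.orth h0' hww (h.LM_LM_mem he hwo' h0' _ _)
  have h1 : h.LM e r' w = h.LM e p (h.LM e q w) := by
    have h2 := congrArg (V w).starProjection hr'
    rwa [map_add, map_add, proj_of_mem hm1, proj_eq_zero hm2, proj_of_mem hm3, proj_eq_zero hm4, add_zero,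
      add_zero] at h2
  have h3 : r' = r := h.LM_inj he hwo h0 (h1.trans hr.symm)
  rw [h1] at hr'
  rw [← h3]
  exact add_left_cancel hr'

/-- if there are three blocks then `LM` is multiplicative -/
theorem Part.LM_mul {w₁ : E} (ho₁ : w₁ ∈ (V e)ᗮ) (h0₁ : w₁ ≠ 0) (h01 : w₁ ∈ (V w₀)ᗮ) (p q : V e) {w : E}
    (hwo : w ∈ (V e)ᗮ) : h.LM e ((h.alg he hw ho).mul p q) w = h.LM e p (h.LM e q w) := by
  have h0 := ne_zero_of_one hw
  have base := h.alg_mul he hw ho p q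
  have hst : ∀ w' ∈ (V w₀)ᗮ, w' ∈ (V e)ᗮ → h.LM e ((h.alg he hw ho).mul p q) w' = h.LM e p (h.LM e q w') := by
    intro w' hw' hw'o
    by_cases h0' : w' = 0
    · rw [h0', map_zero, map_zero, map_zero]
    · exact h.indep he ho hw'o h0 h0' hw' base
  have hst2 : ∀ w' ∈ V w₀, h.LM e ((h.alg he hw ho).mul p q) w' = h.LM e p (h.LM e q w') := by
    intro w' hw'
    by_cases h0' : w' = 0
    · rw [h0', map_zero, map_zero, map_zero]
    · exact h.indep he ho₁ (h.orth h0 ho hw') h0₁ h0' (h.orth' h0₁ h01 hw') (hst w₁ h01 ho₁)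
  have hP : (V w₀).starProjection w ∈ V w₀ := Submodule.starProjection_apply_mem _ _
  have hR : w - (V w₀).starProjection w ∈ (V w₀)ᗮ := Submodule.sub_starProjection_mem_orthogonal w
  have hPo : (V w₀).starProjection w ∈ (V e)ᗮ := h.orth h0 ho hP
  have h1 := hst2 _ hP
  have h2 := hst _ hR ((V e)ᗮ.sub_mem hwo hPo)
  have h3 : w = (V w₀).starProjection w + (w - (V w₀).starProjection w) := by abel
  rw [h3]
  simp only [map_add, h1, h2]

theorem Part.assoc {w₁ : E} (ho₁ : w₁ ∈ (V e)ᗮ) (h0₁ : w₁ ≠ 0) (h01 : w₁ ∈ (V w₀)ᗮ) (p q r : V e) :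
    (h.alg he hw ho).mul ((h.alg he hw ho).mul p q) r = (h.alg he hw ho).mul p ((h.alg he hw ho).mul q r) := by
  refine h.LM_inj he ho (ne_zero_of_one hw) ?_
  rw [h.alg_mul, h.LM_mul he hw ho ho₁ h0₁ h01 p q (h.LM_orth ho r), h.alg_mul, h.alg_mul]

include h he in
/-- the form on `Aᗮ` -/
theorem Part.NN_of_adj {w u : E} (hwo : w ∈ (V e)ᗮ) {y : V e} (hy : ∀ z : V e, ⟪u, h.LM e z w⟫ = ⟪y, z⟫) :
    NN V w u = ‖y‖ ^ 2 := by
  by_cases h0 : w = 0
  · have h1 := hy y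
    rw [h0, map_zero, inner_zero_right, real_inner_self_eq_norm_sq] at h1
    rw [h0, NN_zero_left, h1]
  · have hP : (V w).starProjection u ∈ V w := Submodule.starProjection_apply_mem _ _
    have hR : u - (V w).starProjection u ∈ (V w)ᗮ := Submodule.sub_starProjection_mem_orthogonal u
    obtain ⟨y', hy'⟩ := h.LM_surj he hwo h0 hP
    have h1 : y = ‖w‖ ^ 2 • y' := by
      refine ext_inner_right ℝ fun z => ?_
      rw [← hy z, inner_smul_left]
      have h2 : ⟪u - (V w).starProjection u, h.LM e z w⟫ = 0 := inner_of_orth' (h.LM_mem he hwo h0 z) hR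
      rw [inner_sub_left, ← hy', h.LM_inner_left he hwo] at h2
      simp only [conj_trivial]
      linarith
    have hwpos : 0 < ‖w‖ := norm_pos_iff.2 h0
    rw [NN, ← hy', h.LM_norm he hwo, h1, norm_smul]
    simp only [norm_pow, norm_norm]
    ring

end Alg

end Pool.Agent.Lib.MP_ccbbf6_gt.Cl
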