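import Pool.Agent.Lib.MP_ccbbf6_gt.Cls.Fin1

/-!
# Q6b: from the distance formula to projective spaces
-/

set_option autoImplicit false

open Set Filter Topology Metric Real
open scoped RealInnerProductSpace LinearAlgebra.Projectivization

noncomputable section

namespace Blaschke

section alg

variable {K : Type*} [NormedDivisionRing K] [StarRing K] [NormedAlgebra ℝ K] [StarModule ℝ K]

/-- the real part -/
structure RePart (ρ : K →ₗ[ℝ] ℝ) : Prop where
  add_sq : ∀ x y : K, ‖x + y‖ ^ 2 = ‖x‖ ^ 2 + 2 * ρ (x * star y) + ‖y‖ ^ 2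
  norm_star : ∀ x : K, ‖star x‖ = ‖x‖
  self : ∀ x : K, x * star x = algebraMap ℝ K (‖x‖ ^ 2)

variable {ι : Type*} [Fintype ι]

/-- the hermitian form -/
def herm (x y : ι → K) : K := ∑ i, x i * star (y i)

/-- the square of the norm -/
def nsq (x : ι → K) : ℝ := ∑ i, ‖x i‖ ^ 2

omit [NormedAlgebra ℝ K] [StarModule ℝ K] in
theorem herm_smul_left (a : K) (x y : ι → K) : herm (a • x) y = a * herm x y := by
  simp only [herm, Finset.mul_sum, Pi.smul_apply, smul_eq_mul, mul_assoc]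

omit [NormedAlgebra ℝ K] [StarModule ℝ K] in
theorem herm_smul_right (a : K) (x y : ι → K) : herm x (a • y) = herm x y * star a := by
  simp only [herm, Finset.sum_mul, Pi.smul_apply, smul_eq_mul, star_mul, mul_assoc]

omit [StarRing K] [NormedAlgebra ℝ K] [StarModule ℝ K] in
theorem nsq_smul (a : K) (x : ι → K) : nsq (a • x) = ‖a‖ ^ 2 * nsq x := by
  simp only [nsq, Finset.mul_sum, Pi.smul_apply, smul_eq_mul, norm_mul, mul_pow]

omit [StarRing K] [NormedAlgebra ℝ K] [StarModule ℝ K] in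
theorem nsq_nonneg (x : ι → K) : 0 ≤ nsq x := Finset.sum_nonneg fun _ _ => by positivity

omit [StarRing K] [NormedAlgebra ℝ K] [StarModule ℝ K] in
theorem nsq_eq_zero {x : ι → K} (h : nsq x = 0) : x = 0 := by
  funext i
  have h1 := (Finset.sum_eq_zero_iff_of_nonneg (fun i _ => by positivity)).1 h i (Finset.mem_univ i)
  exact norm_eq_zero.1 (pow_eq_zero_iff two_ne_zero |>.1 h1)

omit [StarRing K] [NormedAlgebra ℝ K] [StarModule ℝ K] in
theorem nsq_pos {x : ι → K} (h : x ≠ 0) : 0 < nsq x :=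
  lt_of_le_of_ne (nsq_nonneg x) fun h' => h (nsq_eq_zero h'.symm)

variable {ρ : K →ₗ[ℝ] ℝ}

namespace RePart

omit [StarModule ℝ K] in
theorem one (h : RePart ρ) : ρ 1 = 1 := by
  have h1 := h.add_sq 1 1
  rw [star_one, mul_one, norm_one] at h1
  have h2 : ‖(1 : K) + 1‖ = 2 := by
    have h3 : (1 : K) + 1 = algebraMap ℝ K 2 := by
      rw [← one_add_one_eq_two, map_add, map_one]
    rw [h3, norm_algebraMap', Real.norm_eq_abs, abs_of_pos two_pos]
  rw [h2] at h1
  linarith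

omit [StarModule ℝ K] in
theorem algebraMap (h : RePart ρ) (r : ℝ) : ρ (algebraMap ℝ K r) = r := by
  rw [Algebra.algebraMap_eq_smul_one, map_smul, h.one, smul_eq_mul, mul_one]

omit [StarModule ℝ K] in
theorem star (h : RePart ρ) (z : K) : ρ (Star.star z) = ρ z := by
  have h1 := h.add_sq 1 z
  have h2 := h.add_sq z 1
  rw [one_mul] at h1
  rw [star_one, mul_one, add_comm z 1] at h2
  linarith

omit [StarModule ℝ K] in
theorem self' (h : RePart ρ) (z : K) : ρ (z * Star.star z) = ‖z‖ ^ 2 := by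
  rw [h.self, h.algebraMap]

omit [StarModule ℝ K] in
theorem norm_real_add (h : RePart ρ) (r q : ℝ) (z : K) :
    ‖Algebra.algebraMap ℝ K r + q • z‖ ^ 2 = r ^ 2 + 2 * (r * (q * ρ z)) + q ^ 2 * ‖z‖ ^ 2 := by
  rw [h.add_sq, norm_smul, norm_algebraMap', Real.norm_eq_abs, Real.norm_eq_abs, sq_abs, mul_pow, sq_abs]
  have h1 : Algebra.algebraMap ℝ K r * Star.star (q • z) = r • Star.star (q • z) := by
    rw [← Algebra.smul_def]
  rw [h1, map_smul, h.star, map_smul, smul_eq_mul, smul_eq_mul]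

omit [StarModule ℝ K] in
theorem nsq_add (h : RePart ρ) (x y : ι → K) : nsq (x + y) = nsq x + 2 * ρ (herm x y) + nsq y := by
  simp only [nsq, herm, Pi.add_apply, h.add_sq, map_sum, Finset.sum_add_distrib, Finset.mul_sum]

/-- equality in the Cauchy-Schwarz inequality -/
theorem eq_smul (h : RePart ρ) {x y : ι → K} (hx : nsq x = 1) (hy : nsq y = 1) (hxy : ‖herm x y‖ = 1) :
    x = herm x y • y := by
  have h1 := h.nsq_add x ((-herm x y) • y)
  rw [herm_smul_right, nsq_smul, norm_neg, star_neg, mul_neg, map_neg, h.self', hx, hy, hxy] at h1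
  have h2 : nsq (x + (-herm x y) • y) = 0 := by
    rw [h1]
    norm_num
  have h3 := nsq_eq_zero h2
  rw [neg_smul, ← sub_eq_add_neg] at h3
  exact sub_eq_zero.1 h3

end RePart

end alg

variable {n : ℕ} {M : Type*} [MetricSpace M] {e : EuclideanSpace ℝ (Fin n) → M}

variable {K : Type*} [NormedDivisionRing K] [StarRing K] [NormedAlgebra ℝ K] [StarModule ℝ K] {ρ : K →ₗ[ℝ] ℝ}

/-- `K = ℝ, ℂ, ℍ` -/
theorem isProj_of (hρ : RePart ρ) {m : ℕ} (hn : 0 < n) (hd : ∀ x y : M, dist x y ≤ π)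
    (hs : ∀ x, ∃ ξ, ‖ξ‖ ≤ π ∧ e ξ = x) {N : EuclideanSpace ℝ (Fin n) → EuclideanSpace ℝ (Fin n) → ℝ}
    (hD : DistForm N e) (φ : EuclideanSpace ℝ (Fin n) →ₗ[ℝ] (Fin m → K)) (hφ : Function.Surjective φ)
    (hφ' : ∀ v, nsq (φ v) = ‖v‖ ^ 2) (hN : ∀ v w, ‖v‖ = 1 → ‖w‖ = 1 → N v w = ‖herm (φ v) (φ w)‖ ^ 2) :
    IsProj K m M := by
  have hinner : ∀ v w, ρ (herm (φ v) (φ w)) = ⟪v, w⟫ := by
    intro v w
    have h1 := hρ.nsq_add (φ v) (φ w)
    rw [← map_add, hφ', hφ', hφ', norm_add_sq_real] at h1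
    linarith
  let U : ℝ → EuclideanSpace ℝ (Fin n) → Fin (m + 1) → K := fun s v =>
    Fin.cons (algebraMap ℝ K (Real.cos (s / 2))) (fun i => Real.sin (s / 2) • φ v i)
  have hU : ∀ s t v w, herm (U s v) (U t w) = algebraMap ℝ K (Real.cos (s / 2) * Real.cos (t / 2)) +
      (Real.sin (s / 2) * Real.sin (t / 2)) • herm (φ v) (φ w) := by
    intro s t v w
    simp only [herm, U, Fin.sum_univ_succ, Fin.cons_zero, Fin.cons_succ, ← algebraMap_star_comm, star_trivial,
      map_mul, star_smul, smul_mul_smul_comm, Finset.smul_sum]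
  have hU1 : ∀ s v, ‖v‖ = 1 → nsq (U s v) = 1 := by
    intro s v hv
    simp only [nsq, U, Fin.sum_univ_succ, Fin.cons_zero, Fin.cons_succ, norm_smul, norm_algebraMap', mul_pow,
      Real.norm_eq_abs, sq_abs, ← Finset.mul_sum]
    have h1 := hφ' v
    rw [nsq] at h1
    rw [h1, hv, one_pow, mul_one]
    exact Real.cos_sq_add_sin_sq _
  have hU0 : ∀ s v, ‖v‖ = 1 → U s v ≠ 0 := by
    intro s v hv h0
    have h1 := hU1 s v hv
    rw [h0] at h1
    simp [nsq] at h1
  have hcos : ∀ z z' : Pol n, Real.cos (dist (e (z.1.1 • z.1.2)) (e (z'.1.1 • z'.1.2)) / 2) =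
      ‖herm (U z.1.1 z.1.2) (U z'.1.1 z'.1.2)‖ := by
    intro z z'
    have h1 := hD z.1.2 z'.1.2 z.2.2 z'.2.2 z.1.1 z.2.1 z'.1.1 z'.2.1
    rw [hN _ _ z.2.2 z'.2.2] at h1
    have h2 : 0 ≤ Real.cos (dist (e (z.1.1 • z.1.2)) (e (z'.1.1 • z'.1.2)) / 2) := by
      have h3 := hd (e (z.1.1 • z.1.2)) (e (z'.1.1 • z'.1.2))
      have h4 : 0 ≤ dist (e (z.1.1 • z.1.2)) (e (z'.1.1 • z'.1.2)) := dist_nonneg
      exact Real.cos_nonneg_of_mem_Icc ⟨by linarith [pi_pos], by linarith⟩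
    refine (sq_eq_sq₀ h2 (norm_nonneg _)).1 ?_
    rw [h1, hU, hρ.norm_real_add, hinner]
    ring
  let u : Pol n → ℙ K (Fin (m + 1) → K) := fun z => Projectivization.mk K (U z.1.1 z.1.2) (hU0 _ _ z.2.2)
  have huniq : ∀ z z' : Pol n, e (z.1.1 • z.1.2) = e (z'.1.1 • z'.1.2) ↔ u z = u z' := by
    intro z z'
    rw [eq_iff_cos hd, hcos]
    change _ ↔ Projectivization.mk K (U z.1.1 z.1.2) _ = Projectivization.mk K (U z'.1.1 z'.1.2) _
    rw [Projectivization.mk_eq_mk_iff']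
    constructor
    · intro h
      have h1 : ‖herm (U z.1.1 z.1.2) (U z'.1.1 z'.1.2)‖ = 1 :=
        (pow_eq_one_iff_of_nonneg (norm_nonneg _) two_ne_zero).1 h
      exact ⟨_, (hρ.eq_smul (hU1 _ _ z.2.2) (hU1 _ _ z'.2.2) h1).symm⟩
    · rintro ⟨a, ha⟩
      have h1 := hU1 z.1.1 z.1.2 z.2.2
      rw [← ha, nsq_smul, hU1 _ _ z'.2.2, mul_one] at h1
      rw [← ha, herm_smul_left, norm_mul, mul_pow, h1, one_mul]
      have h2 : herm (U z'.1.1 z'.1.2) (U z'.1.1 z'.1.2) = 1 := by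
        have h3 := hU1 z'.1.1 z'.1.2 z'.2.2
        simp only [herm, hρ.self, ← map_sum]
        rw [nsq] at h3
        rw [h3, map_one]
      rw [h2, norm_one, one_pow]
  have husurj : Function.Surjective u := by
    intro p
    induction p using Projectivization.ind with
    | h w hw =>
      have hnw := nsq_pos hw
      have hrt : 0 < √(nsq w) := Real.sqrt_pos.2 hnw
      have hrt2 : √(nsq w) ^ 2 = nsq w := Real.sq_sqrt hnw.le
      obtain ⟨b, hb, hbw⟩ : ∃ b : K, ‖b‖ = 1 ∧ b * w 0 = algebraMap ℝ K ‖w 0‖ := by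
        by_cases h0 : w 0 = 0
        · exact ⟨1, norm_one, by rw [h0, mul_zero, norm_zero, map_zero]⟩
        · refine ⟨algebraMap ℝ K ‖w 0‖ * (w 0)⁻¹, ?_, ?_⟩
          · rw [norm_mul, norm_inv, norm_algebraMap', norm_norm, mul_inv_cancel₀ (norm_ne_zero_iff.2 h0)]
          · rw [mul_assoc, inv_mul_cancel₀ h0, mul_one]
      set a : K := algebraMap ℝ K (√(nsq w))⁻¹ * b with ha
      have hna : ‖a‖ = (√(nsq w))⁻¹ := by
        rw [ha, norm_mul, hb, mul_one, norm_algebraMap', Real.norm_eq_abs, abs_of_pos (inv_pos.2 hrt)]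
      have ha0 : a ≠ 0 := by
        rw [← norm_ne_zero_iff, hna]
        exact (inv_pos.2 hrt).ne'
      set w' : Fin (m + 1) → K := a • w with hw'
      have hw'1 : nsq w' = 1 := by
        rw [hw', nsq_smul, hna, inv_pow, hrt2, inv_mul_cancel₀ hnw.ne']
      set c : ℝ := (√(nsq w))⁻¹ * ‖w 0‖ with hc
      have hw'0 : w' 0 = algebraMap ℝ K c := by
        rw [hw', Pi.smul_apply, smul_eq_mul, ha, mul_assoc, hbw, ← map_mul]
      have hc0 : 0 ≤ c := mul_nonneg (inv_pos.2 hrt).le (norm_nonneg _)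
      have hsplit : c ^ 2 + nsq (fun i : Fin m => w' i.succ) = 1 := by
        have h1 := hw'1
        rw [nsq, Fin.sum_univ_succ, hw'0, norm_algebraMap', Real.norm_eq_abs, sq_abs] at h1
        exact h1
      have hc1 : c ≤ 1 := by
        have := nsq_nonneg (fun i : Fin m => w' i.succ)
        nlinarith
      have hcc : Real.cos (2 * Real.arccos c / 2) = c := by
        rw [mul_div_cancel_left₀ _ two_ne_zero, Real.cos_arccos (by linarith) hc1]
      have hss : Real.sin (2 * Real.arccos c / 2) ^ 2 = nsq (fun i : Fin m => w' i.succ) := by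
        rw [mul_div_cancel_left₀ _ two_ne_zero, Real.sin_arccos, Real.sq_sqrt (by nlinarith)]
        linarith
      have hsI : 2 * Real.arccos c ∈ Icc 0 π := by
        have h1 := Real.arccos_nonneg c
        have h2 : Real.arccos c ≤ π / 2 := Real.arccos_le_pi_div_two.2 hc0
        exact ⟨by linarith, by linarith⟩
      have key : ∀ v : EuclideanSpace ℝ (Fin n), ‖v‖ = 1 →
          (∀ i, Real.sin (2 * Real.arccos c / 2) • φ v i = w' i.succ) → ∃ z, u z = Projectivization.mk K w hw := by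
        intro v hv hvw
        refine ⟨⟨(2 * Real.arccos c, v), hsI, hv⟩, ?_⟩
        change Projectivization.mk K (U (2 * Real.arccos c) v) _ = _
        rw [Projectivization.mk_eq_mk_iff']
        refine ⟨a, ?_⟩
        change w' = _
        funext i
        refine Fin.cases ?_ (fun i => ?_) i
        · rw [hw'0]
          simp only [U, Fin.cons_zero, hcc]
        · simp only [U, Fin.cons_succ, hvw]
      by_cases hS : Real.sin (2 * Real.arccos c / 2) = 0
      · have : Nonempty (Fin n) := ⟨⟨0, hn⟩⟩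
        obtain ⟨v, hv⟩ := exists_norm_eq (EuclideanSpace ℝ (Fin n)) zero_le_one
        refine key v hv fun i => ?_
        rw [hS, zero_smul]
        rw [hS] at hss
        have h1 : (fun i : Fin m => w' i.succ) = 0 := nsq_eq_zero (by rw [← hss]; norm_num)
        exact (congrFun h1 i).symm
      · obtain ⟨v, hv⟩ := hφ ((Real.sin (2 * Real.arccos c / 2))⁻¹ • fun i : Fin m => w' i.succ)
        refine key v ?_ fun i => ?_
        · have h1 := hφ' v
          have h2 : nsq (φ v) = 1 := by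
            rw [hv]
            have h3 : nsq ((Real.sin (2 * Real.arccos c / 2))⁻¹ • fun i : Fin m => w' i.succ) =
                ((Real.sin (2 * Real.arccos c / 2))⁻¹) ^ 2 * nsq (fun i : Fin m => w' i.succ) := by
              simp only [nsq, Finset.mul_sum, Pi.smul_apply, norm_smul, mul_pow, Real.norm_eq_abs, sq_abs]
            rw [h3, ← hss, ← mul_pow, inv_mul_cancel₀ hS, one_pow]
          rw [h2] at h1
          exact (pow_eq_one_iff_of_nonneg (norm_nonneg _) two_ne_zero).1 h1.symm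
        · rw [hv, Pi.smul_apply, smul_smul, mul_inv_cancel₀ hS, one_smul]
  obtain ⟨f, hf⟩ := exists_equiv_of_fibres (pol_surj hn hs) husurj huniq
  refine ⟨f, fun x y p q hp hq hfx hfy => ⟨hd x y, ?_⟩⟩
  obtain ⟨z, rfl⟩ := pol_surj hn hs x
  obtain ⟨z', rfl⟩ := pol_surj hn hs y
  have h1 := (hf z).symm.trans hfx
  have h2 := (hf z').symm.trans hfy
  obtain ⟨a, ha⟩ := (Projectivization.mk_eq_mk_iff' K _ _ _ _).1 h1.symm
  obtain ⟨b, hb⟩ := (Projectivization.mk_eq_mk_iff' K _ _ _ _).1 h2.symm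
  have h3 : ∑ i, ‖p i‖ ^ 2 = ‖a‖ ^ 2 := by
    have := nsq_smul a (U z.1.1 z.1.2)
    rw [ha, hU1 _ _ z.2.2, mul_one] at this
    exact this
  have h4 : ∑ i, ‖q i‖ ^ 2 = ‖b‖ ^ 2 := by
    have := nsq_smul b (U z'.1.1 z'.1.2)
    rw [hb, hU1 _ _ z'.2.2, mul_one] at this
    exact this
  have h5 : ‖herm p q‖ = ‖a‖ * ‖b‖ * ‖herm (U z.1.1 z.1.2) (U z'.1.1 z'.1.2)‖ := by
    rw [← ha, ← hb, herm_smul_left, herm_smul_right, norm_mul, norm_mul, hρ.norm_star]
    ring
  rw [h3, h4, Real.sqrt_sq (norm_nonneg _), Real.sqrt_sq (norm_nonneg _)]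
  change Real.cos (dist (e (z.1.1 • z.1.2)) (e (z'.1.1 • z'.1.2)) / 2) * _ = ‖herm p q‖
  rw [h5, hcos]
  ring

end Blaschke
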