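import Pool.Agent.Lib.MP_ccbbf6_gt.Cls.Fin2

/-!
# Fin3: the real parts of `ℝ`, `ℂ`, `ℍ`
-/

set_option autoImplicit false

open scoped Quaternion RealInnerProductSpace

noncomputable section

namespace Blaschke

theorem rePart_real : RePart (K := ℝ) LinearMap.id where
  add_sq x y := by
    simp only [Real.norm_eq_abs, sq_abs, star_trivial, LinearMap.id_apply]
    ring
  norm_star x := by rw [star_trivial]
  self x := by
    simp only [Real.norm_eq_abs, sq_abs, star_trivial, Algebra.algebraMap_self, RingHom.id_apply]
    ring

theorem rePart_complex : RePart (K := ℂ) Complex.reLm where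
  add_sq x y := by
    rw [Complex.sq_norm, Complex.sq_norm, Complex.sq_norm, Complex.normSq_add]
    simp only [Complex.reLm_coe, Complex.star_def]
    ring
  norm_star x := norm_star x
  self x := by
    rw [Complex.star_def, Complex.mul_conj, Complex.sq_norm]
    rfl

/-- the real part of a quaternion -/
def quatRe : ℍ[ℝ] →ₗ[ℝ] ℝ where
  toFun q := q.re
  map_add' _ _ := rfl
  map_smul' _ _ := rfl

theorem rePart_quaternion : RePart (K := ℍ[ℝ]) quatRe where
  add_sq x y := by
    rw [norm_add_sq_real]
    rfl
  norm_star x := norm_star x
  self x := by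
    rw [Quaternion.self_mul_star, Quaternion.normSq_eq_norm_mul_self, sq]
    rfl

end Blaschke
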