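import Pool.Agent.Lib.MP_ccbbf6_gt.Cls.Fin1

/-!
# FinO: from the distance formula to the Cayley plane (helper78)
-/

set_option autoImplicit false

open Set Metric Real
open scoped RealInnerProductSpace Quaternion

noncomputable section

namespace Pool.Agent.Lib.MP_ccbbf6_gt.Cls

open Blaschke

theorem oct_ext {x y : Oct} (h1 : x.fst = y.fst) (h2 : x.snd = y.snd) : x = y :=
  WithLp.ofLp_injective 2 (Prod.ext h1 h2)

theorem mul_fst (x y : Oct) : (Oct.mul x y).fst = x.fst * y.fst - star y.snd * x.snd := rfl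

theorem mul_snd (x y : Oct) : (Oct.mul x y).snd = y.snd * x.fst + x.snd * star y.fst := rfl

theorem conj_fst (x : Oct) : (Oct.conj x).fst = star x.fst := rfl

theorem conj_snd (x : Oct) : (Oct.conj x).snd = -x.snd := rfl

theorem smul_fst' (r : ℝ) (x : Oct) : (r • x).fst = r • x.fst := rfl

theorem smul_snd' (r : ℝ) (x : Oct) : (r • x).snd = r • x.snd := rfl

theorem add_fst' (x y : Oct) : (x + y).fst = x.fst + y.fst := rfl

theorem add_snd' (x y : Oct) : (x + y).snd = x.snd + y.snd := rfl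

/-- the real octonions -/
def rO (r : ℝ) : Oct := WithLp.toLp 2 ((r : ℍ[ℝ]), 0)

theorem rO_fst (r : ℝ) : (rO r).fst = (r : ℍ[ℝ]) := rfl

theorem rO_snd (r : ℝ) : (rO r).snd = 0 := rfl

theorem star_mul_quat (a : ℍ[ℝ]) : star a * a = ((‖a‖ ^ 2 : ℝ) : ℍ[ℝ]) := by
  rw [Quaternion.star_mul_self, Quaternion.normSq_eq_norm_mul_self, pow_two]

theorem mul_star_quat (a : ℍ[ℝ]) : a * star a = ((‖a‖ ^ 2 : ℝ) : ℍ[ℝ]) := by
  rw [Quaternion.self_mul_star, Quaternion.normSq_eq_norm_mul_self, pow_two]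

theorem oct_norm_sq (x : Oct) : ‖x‖ ^ 2 = ‖x.fst‖ ^ 2 + ‖x.snd‖ ^ 2 := WithLp.prod_norm_sq_eq_of_L2 x

theorem oct_inner (x y : Oct) : ⟪x, y⟫ = ⟪x.fst, y.fst⟫ + ⟪x.snd, y.snd⟫ := WithLp.prod_inner_apply x y

theorem mul_rO (x : Oct) (r : ℝ) : Oct.mul x (rO r) = r • x := by
  refine oct_ext ?_ ?_
  · rw [mul_fst, rO_fst, rO_snd, smul_fst', star_zero, zero_mul, sub_zero, ← Quaternion.coe_mul_eq_smul, Quaternion.coe_commutes]
  · rw [mul_snd, rO_fst, rO_snd, smul_snd', zero_mul, zero_add, Quaternion.star_coe, ← Quaternion.coe_mul_eq_smul,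
      Quaternion.coe_commutes]

theorem rO_mul (r : ℝ) (x : Oct) : Oct.mul (rO r) x = r • x := by
  refine oct_ext ?_ ?_
  · rw [mul_fst, rO_fst, rO_snd, smul_fst', mul_zero, sub_zero, ← Quaternion.coe_mul_eq_smul]
  · rw [mul_snd, rO_fst, rO_snd, smul_snd', zero_mul, add_zero, ← Quaternion.coe_mul_eq_smul, Quaternion.coe_commutes]

theorem smul_omul (r : ℝ) (x y : Oct) : Oct.mul (r • x) y = r • Oct.mul x y := by
  refine oct_ext ?_ ?_
  · rw [mul_fst, smul_fst', smul_snd', smul_fst', mul_fst, smul_mul_assoc, mul_smul_comm, smul_sub]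
  · rw [mul_snd, smul_fst', smul_snd', smul_snd', mul_snd, smul_mul_assoc, mul_smul_comm, smul_add]

theorem omul_smul (r : ℝ) (x y : Oct) : Oct.mul x (r • y) = r • Oct.mul x y := by
  refine oct_ext ?_ ?_
  · rw [mul_fst, smul_fst', smul_snd', smul_fst', mul_fst, Quaternion.star_smul, smul_mul_assoc, mul_smul_comm, smul_sub]
  · rw [mul_snd, smul_fst', smul_snd', smul_snd', mul_snd, Quaternion.star_smul, smul_mul_assoc, mul_smul_comm, smul_add]

theorem conj_smul' (r : ℝ) (x : Oct) : Oct.conj (r • x) = r • Oct.conj x := by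
  refine oct_ext ?_ ?_
  · rw [conj_fst, smul_fst', smul_fst', conj_fst, Quaternion.star_smul]
  · rw [conj_snd, smul_snd', smul_snd', conj_snd, smul_neg]

theorem conj_conj' (x : Oct) : Oct.conj (Oct.conj x) = x := by
  refine oct_ext ?_ ?_
  · rw [conj_fst, conj_fst, star_star]
  · rw [conj_snd, conj_snd, neg_neg]

theorem conj_rO (r : ℝ) : Oct.conj (rO r) = rO r := by
  refine oct_ext ?_ ?_
  · rw [conj_fst, rO_fst, Quaternion.star_coe]
  · rw [conj_snd, rO_snd, neg_zero]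

theorem conj_omul (x y : Oct) : Oct.conj (Oct.mul x y) = Oct.mul (Oct.conj y) (Oct.conj x) := by
  refine oct_ext ?_ ?_
  · simp only [conj_fst, mul_fst, conj_snd, star_sub, star_mul, star_star, star_neg]
    noncomm_ring
  · simp only [conj_fst, mul_snd, conj_snd, star_star]
    noncomm_ring

theorem omul_conj_self (x : Oct) : Oct.mul x (Oct.conj x) = rO (‖x‖ ^ 2) := by
  refine oct_ext ?_ ?_
  · simp only [conj_fst, mul_fst, conj_snd, star_neg, neg_mul, sub_neg_eq_add, rO_fst, mul_star_quat, star_mul_quat, oct_norm_sq,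
      Quaternion.coe_add]
  · simp only [conj_fst, mul_snd, conj_snd, star_star, rO_snd, neg_mul, neg_add_cancel]

theorem conj_omul_self (x : Oct) : Oct.mul (Oct.conj x) x = rO (‖x‖ ^ 2) := by
  refine oct_ext ?_ ?_
  · simp only [conj_fst, mul_fst, conj_snd, mul_neg, sub_neg_eq_add, rO_fst, star_mul_quat, oct_norm_sq, Quaternion.coe_add]
  · simp only [conj_fst, mul_snd, conj_snd, rO_snd, neg_mul, add_neg_cancel]

theorem nsq_l (a c : ℍ[ℝ]) : ‖a‖ ^ 2 • c = star a * a * c := by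
  rw [star_mul_quat, Quaternion.coe_mul_eq_smul]

theorem nsq_r (a c : ℍ[ℝ]) : ‖a‖ ^ 2 • c = c * (star a * a) := by
  rw [star_mul_quat, ← Quaternion.coe_commutes, Quaternion.coe_mul_eq_smul]

theorem nsq_l' (a c : ℍ[ℝ]) : ‖a‖ ^ 2 • c = a * star a * c := by
  rw [mul_star_quat, Quaternion.coe_mul_eq_smul]

theorem nsq_r' (a c : ℍ[ℝ]) : ‖a‖ ^ 2 • c = c * (a * star a) := by
  rw [mul_star_quat, ← Quaternion.coe_commutes, Quaternion.coe_mul_eq_smul]

/-- the alternative laws -/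
theorem alt_left (x y : Oct) : Oct.mul (Oct.conj x) (Oct.mul x y) = ‖x‖ ^ 2 • y := by
  refine oct_ext ?_ ?_
  · rw [smul_fst', oct_norm_sq, add_smul, nsq_l x.fst, nsq_r x.snd]
    simp only [conj_fst, mul_fst, conj_snd, mul_snd, star_add, star_mul, star_star]
    noncomm_ring
  · rw [smul_snd', oct_norm_sq, add_smul, nsq_r' x.fst, nsq_l' x.snd]
    simp only [conj_fst, mul_fst, conj_snd, mul_snd, star_sub, star_mul, star_star]
    noncomm_ring

theorem alt_right (x y : Oct) : Oct.mul (Oct.mul y (Oct.conj x)) x = ‖x‖ ^ 2 • y := by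
  refine oct_ext ?_ ?_
  · rw [smul_fst', oct_norm_sq, add_smul, nsq_r x.fst, nsq_l x.snd]
    simp only [conj_fst, mul_fst, conj_snd, mul_snd, star_neg, star_star]
    noncomm_ring
  · rw [smul_snd', oct_norm_sq, add_smul, nsq_r' x.fst, nsq_l' x.snd]
    simp only [conj_fst, mul_fst, conj_snd, mul_snd, star_neg, star_star]
    noncomm_ring

theorem norm_conj' (x : Oct) : ‖Oct.conj x‖ = ‖x‖ := by
  rw [← sq_eq_sq₀ (norm_nonneg _) (norm_nonneg _), oct_norm_sq, oct_norm_sq, conj_fst, conj_snd, norm_star, norm_neg]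

theorem rO_injective {r s : ℝ} (h : rO r = rO s) : r = s := by
  have : ((r : ℝ) : ℍ[ℝ]) = s := congrArg (fun x : Oct => x.fst) h
  exact Quaternion.coe_injective this

theorem smul_rO (r s : ℝ) : r • rO s = rO (r * s) := by
  refine oct_ext ?_ ?_
  · rw [smul_fst', rO_fst, rO_fst, ← Quaternion.coe_mul_eq_smul, Quaternion.coe_mul]
  · rw [smul_snd', rO_snd, rO_snd, smul_zero]

theorem norm_rO (r : ℝ) : ‖rO r‖ = |r| := by
  rw [← sq_eq_sq₀ (norm_nonneg _) (abs_nonneg _), oct_norm_sq, rO_fst, rO_snd, norm_zero, Quaternion.norm_coe, Real.norm_eq_abs]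
  ring

theorem norm_omul (x y : Oct) : ‖Oct.mul x y‖ = ‖x‖ * ‖y‖ := by
  rw [← sq_eq_sq₀ (norm_nonneg _) (by positivity), mul_pow, oct_norm_sq, oct_norm_sq x, oct_norm_sq y, mul_fst, mul_snd,
    norm_sub_sq_real, norm_add_sq_real, norm_mul, norm_mul, norm_mul, norm_mul, norm_star, norm_star]
  have key : ⟪x.fst * y.fst, star y.snd * x.snd⟫ = ⟪y.snd * x.fst, x.snd * star y.fst⟫ := by
    rw [Quaternion.inner_def, Quaternion.inner_def]
    simp only [star_mul, star_star, Quaternion.re_mul, Quaternion.imI_mul, Quaternion.imJ_mul, Quaternion.imK_mul,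
      Quaternion.re_star, Quaternion.imI_star, Quaternion.imJ_star, Quaternion.imK_star]
    ring
  rw [key]
  ring

/-- additivity -/
theorem add_omul (x y z : Oct) : Oct.mul (x + y) z = Oct.mul x z + Oct.mul y z := by
  refine oct_ext ?_ ?_
  · rw [add_fst', mul_fst, mul_fst, mul_fst, add_fst', add_snd']
    noncomm_ring
  · rw [add_snd', mul_snd, mul_snd, mul_snd, add_fst', add_snd']
    noncomm_ring

theorem conj_inner (x y : Oct) : ⟪Oct.conj x, Oct.conj y⟫ = ⟪x, y⟫ := by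
  rw [oct_inner, oct_inner, conj_fst, conj_fst, conj_snd, conj_snd, inner_neg_neg, Quaternion.inner_def (star x.fst),
    Quaternion.inner_def x.fst, star_star]
  congr 1
  simp only [Quaternion.re_mul, Quaternion.re_star, Quaternion.imI_star, Quaternion.imJ_star, Quaternion.imK_star]
  ring

/-- the matrix `z z^*` for `z = (c, a, b)` -/
def omat (c : ℝ) (a b : Oct) : Fin 3 → Fin 3 → Oct :=
  ![![rO (c ^ 2), c • Oct.conj a, c • Oct.conj b],
    ![c • a, rO (‖a‖ ^ 2), Oct.mul a (Oct.conj b)],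
    ![c • b, Oct.mul b (Oct.conj a), rO (‖b‖ ^ 2)]]

theorem omat_herm (c : ℝ) (a b : Oct) (i j : Fin 3) : omat c a b j i = Oct.conj (omat c a b i j) := by
  fin_cases i <;> fin_cases j <;> simp [omat, conj_rO, conj_smul', conj_conj', conj_omul]

theorem omat_trace {c : ℝ} {a b : Oct} (h : c ^ 2 + ‖a‖ ^ 2 + ‖b‖ ^ 2 = 1) :
    ∑ i, omat c a b i i = WithLp.toLp 2 (1, 0) := by
  rw [Fin.sum_univ_three]
  refine oct_ext ?_ ?_
  · simp only [omat, Matrix.cons_val_zero, Matrix.cons_val_one, Matrix.cons_val, add_fst', rO_fst, ← Quaternion.coe_add, h]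
    rfl
  · simp [omat, rO_snd]

theorem omat_inner (c c' : ℝ) (a b a' b' : Oct) : ∑ i, ∑ j, ⟪omat c a b i j, omat c' a' b' i j⟫ =
    (c * c') ^ 2 + 2 * (c * c') * (⟪a, a'⟫ + ⟪b, b'⟫) + (‖a‖ ^ 2 * ‖a'‖ ^ 2 + ‖b‖ ^ 2 * ‖b'‖ ^ 2 +
      2 * ⟪Oct.mul a (Oct.conj b), Oct.mul a' (Oct.conj b')⟫) := by
  have h1 : ∀ r s : ℝ, ⟪rO r, rO s⟫ = r * s := by
    intro r s
    rw [oct_inner, rO_fst, rO_fst, rO_snd, rO_snd, inner_zero_left, add_zero, Quaternion.inner_def, Quaternion.star_coe,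
      ← Quaternion.coe_mul, Quaternion.re_coe]
  have h2 : ⟪Oct.mul b (Oct.conj a), Oct.mul b' (Oct.conj a')⟫ = ⟪Oct.mul a (Oct.conj b), Oct.mul a' (Oct.conj b')⟫ := by
    rw [← conj_inner (Oct.mul b (Oct.conj a)), conj_omul, conj_omul, conj_conj', conj_conj']
  simp only [Fin.sum_univ_three, omat, Matrix.cons_val_zero, Matrix.cons_val_one, Matrix.cons_val, inner_smul_left,
    inner_smul_right, conj_trivial, h1, conj_inner, h2]
  ring

theorem rO_add (r s : ℝ) : rO r + rO s = rO (r + s) := by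
  refine oct_ext ?_ ?_
  · rw [add_fst', rO_fst, rO_fst, rO_fst, Quaternion.coe_add]
  · rw [add_snd', rO_snd, rO_snd, rO_snd, add_zero]

theorem omat_idem {c : ℝ} {a b : Oct} (h : c ^ 2 + ‖a‖ ^ 2 + ‖b‖ ^ 2 = 1) (i k : Fin 3) :
    ∑ j, Oct.mul (omat c a b i j) (omat c a b j k) = omat c a b i k := by
  have e1 : Oct.mul (Oct.mul a (Oct.conj b)) (Oct.mul b (Oct.conj a)) = rO (‖a‖ ^ 2 * ‖b‖ ^ 2) := by
    have := omul_conj_self (Oct.mul a (Oct.conj b))
    rwa [conj_omul, conj_conj', norm_omul, norm_conj', mul_pow] at this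
  have e2 : Oct.mul (Oct.mul b (Oct.conj a)) (Oct.mul a (Oct.conj b)) = rO (‖a‖ ^ 2 * ‖b‖ ^ 2) := by
    have := omul_conj_self (Oct.mul b (Oct.conj a))
    rwa [conj_omul, conj_conj', norm_omul, norm_conj', mul_pow, mul_comm (‖b‖ ^ 2)] at this
  rw [Fin.sum_univ_three]
  fin_cases i <;> fin_cases k <;>
    simp only [omat, Fin.zero_eta, Fin.mk_one, Fin.reduceFinMk, Matrix.cons_val_zero, Matrix.cons_val_one, Matrix.cons_val,
      smul_omul, omul_smul, rO_mul, mul_rO, alt_left, alt_right, omul_conj_self, conj_omul_self, e1, e2, smul_smul, smul_rO,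
      rO_add, ← add_smul]
  · congr 1
    linear_combination c ^ 2 * h
  · congr 1
    linear_combination c * h
  · congr 1
    linear_combination c * h
  · congr 1
    linear_combination c * h
  · congr 1
    linear_combination ‖a‖ ^ 2 * h
  · rw [show c * c + ‖a‖ ^ 2 + ‖b‖ ^ 2 = 1 by linear_combination h, one_smul]
  · congr 1
    linear_combination c * h
  · rw [show c * c + ‖a‖ ^ 2 + ‖b‖ ^ 2 = 1 by linear_combination h, one_smul]
  · congr 1
    linear_combination ‖b‖ ^ 2 * h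

/-- real octonions -/
theorem eq_rO_of_conj {x : Oct} (h : x = Oct.conj x) : ∃ r : ℝ, x = rO r := by
  have h1 : x.fst = star x.fst := congrArg (fun x : Oct => x.fst) h
  have h2 : x.snd = -x.snd := congrArg (fun x : Oct => x.snd) h
  refine ⟨x.fst.re, oct_ext ?_ ?_⟩
  · rw [rO_fst]
    exact Quaternion.star_eq_self.1 h1.symm
  · rw [rO_snd]
    have h3 : (2 : ℝ) • x.snd = 0 := by
      rw [two_smul]
      nth_rewrite 1 [h2]
      exact neg_add_cancel _
    exact (smul_eq_zero.1 h3).resolve_left two_ne_zero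

theorem norm_sq_add_conj (x : Oct) : Oct.mul x (Oct.conj x) = rO (‖x‖ ^ 2) := omul_conj_self x

/-- every point of the Cayley plane is `z z^*` -/
theorem exists_omat (X : CayleyPlane) : ∃ (c : ℝ) (a b : Oct), 0 ≤ c ∧ c ^ 2 + (‖a‖ ^ 2 + ‖b‖ ^ 2) = 1 ∧ X.1 = omat c a b := by
  obtain ⟨X, hH, hI, hT⟩ := X
  obtain ⟨r0, h0⟩ := eq_rO_of_conj (hH 0 0)
  obtain ⟨r1, h1⟩ := eq_rO_of_conj (hH 1 1)
  obtain ⟨r2, h2⟩ := eq_rO_of_conj (hH 2 2)
  set p := X 1 0 with hp
  set q := X 2 0 with hq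
  set u := X 1 2 with hu
  have e01 : X 0 1 = Oct.conj p := by rw [hp, ← hH]
  have e02 : X 0 2 = Oct.conj q := by rw [hq, ← hH]
  have e21 : X 2 1 = Oct.conj u := by rw [hu, ← hH]
  have htr : r0 + r1 + r2 = 1 := by
    rw [Fin.sum_univ_three, h0, h1, h2, rO_add, rO_add] at hT
    exact rO_injective hT
  have i00 := hI 0 0
  have i11 := hI 1 1
  have i22 := hI 2 2
  have i12 := hI 1 2
  rw [Fin.sum_univ_three] at i00 i11 i22 i12
  rw [h0, e01, e02, ← hp, ← hq, rO_mul, conj_omul_self, conj_omul_self, smul_rO, rO_add, rO_add] at i00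
  rw [h1, e01, ← hp, ← hu, e21, rO_mul, omul_conj_self, omul_conj_self, smul_rO, rO_add, rO_add] at i11
  rw [h2, e02, ← hu, ← hq, e21, rO_mul, conj_omul_self, omul_conj_self, smul_rO, rO_add, rO_add] at i22
  rw [← hp, e02, h1, ← hu, h2, rO_mul, mul_rO] at i12
  have j00 := rO_injective i00
  have j11 := rO_injective i11
  have j22 := rO_injective i22
  have hP : ‖p‖ ^ 2 = r0 * r1 := by nlinarith only [j00, j11, j22, htr]
  have hQ : ‖q‖ ^ 2 = r0 * r2 := by nlinarith only [j00, j11, j22, htr]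
  have hU : ‖u‖ ^ 2 = r1 * r2 := by nlinarith only [j00, j11, j22, htr]
  have hpq : Oct.mul p (Oct.conj q) = r0 • u := by
    have : r0 • u = u - r1 • u - r2 • u := by
      rw [show r0 = 1 - r1 - r2 by linarith, sub_smul, sub_smul, one_smul]
    calc Oct.mul p (Oct.conj q) = (Oct.mul p (Oct.conj q) + r1 • u + r2 • u) - r1 • u - r2 • u := by abel
      _ = u - r1 • u - r2 • u := by rw [i12]
      _ = r0 • u := this.symm
  have hr0 : 0 ≤ r0 := by nlinarith only [j00, sq_nonneg ‖p‖, sq_nonneg ‖q‖, sq_nonneg r0]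
  have hr1 : 0 ≤ r1 := by nlinarith only [j11, sq_nonneg ‖p‖, sq_nonneg ‖u‖, sq_nonneg r1]
  have hr2 : 0 ≤ r2 := by nlinarith only [j22, sq_nonneg ‖q‖, sq_nonneg ‖u‖, sq_nonneg r2]
  have hfin : ∀ (c : ℝ) (a b : Oct), c ^ 2 = r0 → c • a = p → c • b = q → ‖a‖ ^ 2 = r1 → ‖b‖ ^ 2 = r2 →
      Oct.mul a (Oct.conj b) = u → X = omat c a b := by
    intro c a b f1 f2 f3 f4 f5 f6
    funext i j
    fin_cases i <;> fin_cases j
    · simp [omat, h0, f1]
    · simp [omat, e01, ← f2, conj_smul']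
    · simp [omat, e02, ← f3, conj_smul']
    · simp [omat, ← hp, ← f2]
    · simp [omat, h1, f4]
    · simp [omat, ← hu, ← f6]
    · simp [omat, ← hq, ← f3]
    · simp [omat, e21, ← f6, conj_omul, conj_conj']
    · simp [omat, h2, f5]
  rcases hr0.lt_or_eq with hr0' | hr0'
  · have hc0 : √r0 ≠ 0 := (Real.sqrt_pos.2 hr0').ne'
    have hc2 : √r0 ^ 2 = r0 := Real.sq_sqrt hr0
    have na : ‖(√r0)⁻¹ • p‖ ^ 2 = r1 := by
      rw [norm_smul, mul_pow, hP, norm_inv, Real.norm_eq_abs, inv_pow, sq_abs, hc2]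
      field_simp
    have nb : ‖(√r0)⁻¹ • q‖ ^ 2 = r2 := by
      rw [norm_smul, mul_pow, hQ, norm_inv, Real.norm_eq_abs, inv_pow, sq_abs, hc2]
      field_simp
    refine ⟨√r0, (√r0)⁻¹ • p, (√r0)⁻¹ • q, Real.sqrt_nonneg _, ?_, hfin _ _ _ hc2 ?_ ?_ na nb ?_⟩
    · rw [na, nb, hc2]
      linarith
    · rw [smul_smul, mul_inv_cancel₀ hc0, one_smul]
    · rw [smul_smul, mul_inv_cancel₀ hc0, one_smul]
    · rw [conj_smul', smul_omul, omul_smul, hpq, smul_smul, smul_smul, ← mul_inv, ← pow_two, hc2,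
        inv_mul_cancel₀ hr0'.ne', one_smul]
  · have hp0 : p = 0 := by
      have : ‖p‖ ^ 2 = 0 := by rw [hP, ← hr0', zero_mul]
      exact norm_eq_zero.1 (pow_eq_zero_iff two_ne_zero |>.1 this)
    have hq0 : q = 0 := by
      have : ‖q‖ ^ 2 = 0 := by rw [hQ, ← hr0', zero_mul]
      exact norm_eq_zero.1 (pow_eq_zero_iff two_ne_zero |>.1 this)
    rcases hr1.lt_or_eq with hr1' | hr1'
    · have hc0 : √r1 ≠ 0 := (Real.sqrt_pos.2 hr1').ne'
      have hc2 : √r1 ^ 2 = r1 := Real.sq_sqrt hr1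
      have na : ‖rO √r1‖ ^ 2 = r1 := by rw [norm_rO, sq_abs, hc2]
      have nb : ‖(√r1)⁻¹ • Oct.conj u‖ ^ 2 = r2 := by
        rw [norm_smul, norm_conj', mul_pow, hU, norm_inv, Real.norm_eq_abs, inv_pow, sq_abs, hc2]
        field_simp
      refine ⟨0, rO √r1, (√r1)⁻¹ • Oct.conj u, le_rfl, ?_, hfin _ _ _ ?_ ?_ ?_ na nb ?_⟩
      · rw [na, nb]
        linarith
      · rw [← hr0', zero_pow two_ne_zero]
      · rw [zero_smul, hp0]
      · rw [zero_smul, hq0]
      · rw [conj_smul', conj_conj', omul_smul, rO_mul, smul_smul, inv_mul_cancel₀ hc0, one_smul]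
    · have hu0 : u = 0 := by
        have : ‖u‖ ^ 2 = 0 := by rw [hU, ← hr1', zero_mul]
        exact norm_eq_zero.1 (pow_eq_zero_iff two_ne_zero |>.1 this)
      have hr2' : r2 = 1 := by linarith
      refine ⟨0, 0, rO 1, le_rfl, ?_, hfin _ _ _ ?_ ?_ ?_ ?_ ?_ ?_⟩
      · rw [norm_zero, norm_rO, abs_one]
        norm_num
      · rw [← hr0', zero_pow two_ne_zero]
      · rw [zero_smul, hp0]
      · rw [zero_smul, hq0]
      · rw [norm_zero, zero_pow two_ne_zero, hr1']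
      · rw [norm_rO, abs_one, one_pow, hr2']
      · rw [conj_rO, mul_rO, smul_zero, hu0]

end Pool.Agent.Lib.MP_ccbbf6_gt.Cls

namespace Blaschke

open Pool.Agent.Lib.MP_ccbbf6_gt.Cls

/-- **the Cayley plane** -/
theorem isCayley_of {n : ℕ} {M : Type*} [MetricSpace M] {e : EuclideanSpace ℝ (Fin n) → M} (hn : 0 < n)
    (hd : ∀ x y : M, dist x y ≤ π) (hs0 : ∀ x, ∃ ξ, ‖ξ‖ ≤ π ∧ e ξ = x)
    {N : EuclideanSpace ℝ (Fin n) → EuclideanSpace ℝ (Fin n) → ℝ} (hD : DistForm N e)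
    (φ : EuclideanSpace ℝ (Fin n) ≃ₗᵢ[ℝ] WithLp 2 (Oct × Oct))
    (hN : ∀ v w, ‖v‖ = 1 → ‖w‖ = 1 → N v w = ‖(φ v).fst‖ ^ 2 * ‖(φ w).fst‖ ^ 2 + ‖(φ v).snd‖ ^ 2 * ‖(φ w).snd‖ ^ 2 +
      2 * ⟪Oct.mul (φ v).fst (Oct.conj (φ v).snd), Oct.mul (φ w).fst (Oct.conj (φ w).snd)⟫) :
    IsCayley M := by
  classical
  have hsurj : ∀ x, ∃ (v : EuclideanSpace ℝ (Fin n)) (s : ℝ), ‖v‖ = 1 ∧ s ∈ Icc 0 π ∧ e (s • v) = x := by
    intro x
    obtain ⟨z, hz⟩ := pol_surj hn hs0 x
    exact ⟨z.1.2, z.1.1, z.2.2, z.2.1, hz⟩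
  have hnorm : ∀ v, ‖(φ v).fst‖ ^ 2 + ‖(φ v).snd‖ ^ 2 = ‖v‖ ^ 2 := by
    intro v
    rw [← φ.norm_map v, WithLp.prod_norm_sq_eq_of_L2 (φ v)]
  have hinner : ∀ v w, ⟪(φ v).fst, (φ w).fst⟫ + ⟪(φ v).snd, (φ w).snd⟫ = ⟪v, w⟫ := by
    intro v w
    rw [← φ.inner_map_map v w, WithLp.prod_inner_apply]
    rfl
  let m : EuclideanSpace ℝ (Fin n) → ℝ → Fin 3 → Fin 3 → Oct := fun v s =>
    omat (Real.cos (s / 2)) (Real.sin (s / 2) • (φ v).fst) (Real.sin (s / 2) • (φ v).snd)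
  have hcos : ∀ (v w : EuclideanSpace ℝ (Fin n)) (s t : ℝ), ‖v‖ = 1 → ‖w‖ = 1 → s ∈ Icc 0 π → t ∈ Icc 0 π →
      Real.cos (dist (e (s • v)) (e (t • w))) = 2 * (∑ i, ∑ j, ⟪m v s i j, m w t i j⟫) - 1 := by
    intro v w s t hv hw hs ht
    have h1 := hD v w hv hw s hs t ht
    have h2 : Real.cos (dist (e (s • v)) (e (t • w))) = 2 * Real.cos (dist (e (s • v)) (e (t • w)) / 2) ^ 2 - 1 := by
      rw [← Real.cos_two_mul]
      congr 1
      ring
    rw [h2, h1, omat_inner, hN v w hv hw, ← hinner]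
    simp only [inner_smul_left, inner_smul_right, conj_trivial, norm_smul, mul_pow, Real.norm_eq_abs, sq_abs, conj_smul',
      smul_omul, omul_smul]
    ring
  have hone : ∀ (v : EuclideanSpace ℝ (Fin n)) (s : ℝ), ‖v‖ = 1 → Real.cos (s / 2) ^ 2 + ‖Real.sin (s / 2) • (φ v).fst‖ ^ 2 +
      ‖Real.sin (s / 2) • (φ v).snd‖ ^ 2 = 1 := by
    intro v s hv
    have := hnorm v
    rw [hv] at this
    rw [norm_smul, norm_smul, mul_pow, mul_pow, Real.norm_eq_abs, sq_abs, add_assoc, ← mul_add, this, one_pow, mul_one]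
    exact Real.cos_sq_add_sin_sq _
  choose v s hv hs he using hsurj
  let f : M → CayleyPlane := fun x => ⟨m (v x) (s x), omat_herm _ _ _, omat_idem (hone _ _ (hv x)),
    omat_trace (hone _ _ (hv x))⟩
  have hf : ∀ x y, Real.cos (dist x y) = 2 * (∑ i, ∑ j, ⟪(f x).1 i j, (f y).1 i j⟫) - 1 := by
    intro x y
    rw [← hcos (v x) (v y) (s x) (s y) (hv x) (hv y) (hs x) (hs y), he, he]
  have hinj : Function.Injective f := by
    intro x y hxy
    have h1 := hf x y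
    have h2 := hf y y
    rw [hxy, ← h2, dist_self] at h1
    exact dist_eq_zero.1 (Real.injOn_cos ⟨dist_nonneg, hd x y⟩ ⟨le_rfl, Real.pi_pos.le⟩ h1)
  have hsurjf : Function.Surjective f := by
    intro X
    obtain ⟨c, a, b, hc, hcab, hX⟩ := exists_omat X
    set r : ℝ := √(‖a‖ ^ 2 + ‖b‖ ^ 2) with hr
    have hr2 : r ^ 2 = ‖a‖ ^ 2 + ‖b‖ ^ 2 := Real.sq_sqrt (by positivity)
    have hr0 : 0 ≤ r := Real.sqrt_nonneg _
    obtain ⟨w, t, hw, ht, hXw⟩ : ∃ (w : EuclideanSpace ℝ (Fin n)) (t : ℝ), ‖w‖ = 1 ∧ t ∈ Icc 0 π ∧ X.1 = m w t := by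
      have h1 : c ≤ 1 := by nlinarith [sq_nonneg r]
      have h2 : Real.cos (2 * Real.arccos c / 2) = c := by
        rw [mul_div_cancel_left₀ _ two_ne_zero]
        exact Real.cos_arccos (by linarith) h1
      have h3 : Real.sin (2 * Real.arccos c / 2) = r := by
        rw [mul_div_cancel_left₀ _ two_ne_zero, Real.sin_arccos, show 1 - c ^ 2 = r ^ 2 by linarith, Real.sqrt_sq hr0]
      have h4 : 2 * Real.arccos c ∈ Icc 0 π := by
        refine ⟨mul_nonneg two_pos.le (Real.arccos_nonneg c), ?_⟩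
        have := (Real.arccos_le_pi_div_two (x := c)).2 hc
        linarith
      by_cases hr0' : r = 0
      · rw [hr0'] at hr2
        have ha : a = 0 := by
          have : ‖a‖ ^ 2 = 0 := by nlinarith [sq_nonneg ‖a‖, sq_nonneg ‖b‖]
          exact norm_eq_zero.1 (pow_eq_zero_iff two_ne_zero |>.1 this)
        have hb : b = 0 := by
          have : ‖b‖ ^ 2 = 0 := by nlinarith [sq_nonneg ‖a‖, sq_nonneg ‖b‖]
          exact norm_eq_zero.1 (pow_eq_zero_iff two_ne_zero |>.1 this)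
        refine ⟨v (e 0), 2 * Real.arccos c, hv _, h4, ?_⟩
        show X.1 = omat _ _ _
        rw [h2, h3, hr0', zero_smul, zero_smul, hX, ha, hb]
      · refine ⟨φ.symm (r⁻¹ • WithLp.toLp 2 (a, b)), 2 * Real.arccos c, ?_, h4, ?_⟩
        · rw [φ.symm.norm_map, norm_smul, norm_inv, Real.norm_eq_abs, abs_of_nonneg hr0]
          have : ‖(WithLp.toLp 2 (a, b) : WithLp 2 (Oct × Oct))‖ = r := by
            rw [← sq_eq_sq₀ (norm_nonneg _) hr0, WithLp.prod_norm_sq_eq_of_L2 (WithLp.toLp 2 (a, b)), hr2]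
            rfl
          rw [this, inv_mul_cancel₀ hr0']
        · show X.1 = omat _ _ _
          rw [h2, h3, φ.apply_symm_apply, hX]
          have e1 : r • (r⁻¹ • (WithLp.toLp 2 (a, b) : WithLp 2 (Oct × Oct))).fst = a := by
            show r • (r⁻¹ • a) = a
            rw [smul_smul, mul_inv_cancel₀ hr0', one_smul]
          have e2 : r • (r⁻¹ • (WithLp.toLp 2 (a, b) : WithLp 2 (Oct × Oct))).snd = b := by
            show r • (r⁻¹ • b) = b
            rw [smul_smul, mul_inv_cancel₀ hr0', one_smul]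
          rw [e1, e2]
    refine ⟨e (t • w), Subtype.ext ?_⟩
    set x := e (t • w) with hx
    have k1 : 2 * (∑ i, ∑ j, ⟪(f x).1 i j, X.1 i j⟫) - 1 = 1 := by
      have := hcos (v x) w (s x) t (hv _) hw (hs _) ht
      rw [he, ← hx, dist_self, Real.cos_zero, ← hXw] at this
      exact this.symm
    have k2 : 2 * (∑ i, ∑ j, ⟪(f x).1 i j, (f x).1 i j⟫) - 1 = 1 := by
      have := hf x x
      rw [dist_self, Real.cos_zero] at this
      exact this.symm
    have k3 : 2 * (∑ i, ∑ j, ⟪X.1 i j, X.1 i j⟫) - 1 = 1 := by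
      have := hcos w w t t hw hw ht ht
      rw [dist_self, Real.cos_zero, ← hXw] at this
      exact this.symm
    have k4 : ∑ i, ∑ j, ‖(f x).1 i j - X.1 i j‖ ^ 2 = 0 := by
      have : ∀ i j, ‖(f x).1 i j - X.1 i j‖ ^ 2 = ⟪(f x).1 i j, (f x).1 i j⟫ - 2 * ⟪(f x).1 i j, X.1 i j⟫ +
          ⟪X.1 i j, X.1 i j⟫ := by
        intro i j
        rw [norm_sub_sq_real, real_inner_self_eq_norm_sq, real_inner_self_eq_norm_sq]
      simp only [this, Finset.sum_add_distrib, Finset.sum_sub_distrib, ← Finset.mul_sum]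
      linarith
    have k5 : ∀ i j, ‖(f x).1 i j - X.1 i j‖ ^ 2 = 0 := by
      intro i j
      have h1 := (Finset.sum_eq_zero_iff_of_nonneg fun i _ => Finset.sum_nonneg fun j _ => by positivity).1 k4 i
        (Finset.mem_univ i)
      exact (Finset.sum_eq_zero_iff_of_nonneg fun j _ => by positivity).1 h1 j (Finset.mem_univ j)
    funext i j
    exact sub_eq_zero.1 (norm_eq_zero.1 (pow_eq_zero_iff two_ne_zero |>.1 (k5 i j)))
  exact ⟨Equiv.ofBijective f ⟨hinj, hsurjf⟩, fun x y => ⟨hd x y, hf x y⟩⟩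

end Blaschke
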