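import Pool.Agent.Lib.MP_ccbbf6_gt.ML

/-!
# The model spaces: the round sphere and the projective spaces over `ℝ`, `ℂ`, `ℍ`, `𝕆`
-/

set_option autoImplicit false

namespace Blaschke

open Quaternion
open scoped LinearAlgebra.Projectivization RealInnerProductSpace

/-- `M` is isometric to the unit sphere of `ℝ^(n+1)` with its intrinsic distance: `d ≤ π`, `cos d(x, y) = ⟨x, y⟩`. -/
def IsSphere (n : ℕ) (M : Type*) [MetricSpace M] : Prop :=
  ∃ f : M ≃ Metric.sphere (0 : EuclideanSpace ℝ (Fin (n + 1))) 1, ∀ x y : M, dist x y ≤ Real.pi ∧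
    Real.cos (dist x y) = ⟪(f x : EuclideanSpace ℝ (Fin (n + 1))), f y⟫

/-- `M` is isometric to the projective space `KP^m` (`K = ℝ, ℂ, ℍ`) with its standard metric: `d ≤ π`,
`cos (d([u], [v]) / 2) = |∑ u_i v_i^*| / (|u| |v|)`. -/
def IsProj (K : Type*) [NormedDivisionRing K] [StarRing K] (m : ℕ) (M : Type*) [MetricSpace M] : Prop :=
  ∃ f : M ≃ ℙ K (Fin (m + 1) → K), ∀ (x y : M) (u v : Fin (m + 1) → K) (hu : u ≠ 0) (hv : v ≠ 0),
    f x = Projectivization.mk K u hu → f y = Projectivization.mk K v hv → dist x y ≤ Real.pi ∧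
      Real.cos (dist x y / 2) * (√(∑ i, ‖u i‖ ^ 2) * √(∑ i, ‖v i‖ ^ 2)) = ‖∑ i, u i * star (v i)‖

/-- The octonions (with their norm). -/
abbrev Oct : Type := WithLp 2 (ℍ × ℍ)

/-- multiplication of octonions: `(a, b) (c, d) = (a c - d^* b, d a + b c^*)` -/
noncomputable def Oct.mul (x y : Oct) : Oct :=
  WithLp.toLp 2 (x.fst * y.fst - star y.snd * x.snd, y.snd * x.fst + x.snd * star y.fst)

/-- conjugation of octonions: `(a, b)^* = (a^*, -b)` -/
noncomputable def Oct.conj (x : Oct) : Oct := WithLp.toLp 2 (star x.fst, -x.snd)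

/-- The Cayley plane: the hermitian `3 × 3` matrices `X` over the octonions with `X² = X` and trace `1`. -/
def CayleyPlane : Type :=
  {X : Fin 3 → Fin 3 → Oct // (∀ i j, X j i = Oct.conj (X i j)) ∧
    (∀ i k, ∑ j, Oct.mul (X i j) (X j k) = X i k) ∧ ∑ i, X i i = WithLp.toLp 2 (1, 0)}

/-- `M` is isometric to the Cayley plane with its standard metric: `d ≤ π`, `cos d(X, Y) = 2 tr (X ∘ Y) - 1`,
where `tr (X ∘ Y) = ∑ ⟨X_ij, Y_ij⟩`. -/
def IsCayley (M : Type*) [MetricSpace M] : Prop :=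
  ∃ f : M ≃ CayleyPlane, ∀ x y : M, dist x y ≤ Real.pi ∧
    Real.cos (dist x y) = 2 * (∑ i, ∑ j, ⟪(f x).1 i j, (f y).1 i j⟫) - 1

/-- `M` is isometric to the model space of dimension `n` and multiplicity `κ`: to `S^n` (`κ = n - 1`), `ℝP^n` (`κ = 0`),
`ℂP^m` (`κ = 1`, `n = 2 m`), `ℍP^m` (`κ = 3`, `n = 4 m`) or the Cayley plane (`κ = 7`, `n = 16`). -/
def IsModel (n κ : ℕ) (M : Type*) [MetricSpace M] : Prop :=
  (κ = n - 1 ∧ IsSphere n M) ∨ (κ = 0 ∧ IsProj ℝ n M) ∨ (κ = 1 ∧ ∃ m, n = 2 * m ∧ IsProj ℂ m M) ∨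
    (κ = 3 ∧ ∃ m, n = 4 * m ∧ IsProj ℍ m M) ∨ (κ = 7 ∧ n = 16 ∧ IsCayley M)

end Blaschke
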