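import Pool.Agent.Lib.MP_ccbbf6_gt.Cls.Hur1
import Pool.Agent.Lib.MP_ccbbf6_gt.Cls.Mod

/-!
# Hur2: Hurwitz's theorem, a finite-dimensional real composition algebra with unit is `ℝ`, `ℂ`, `ℍ` or `𝕆`
-/

open scoped RealInnerProductSpace Quaternion

namespace Blaschke

namespace CompAlg

/-- `ℝ` as a composition algebra -/
noncomputable def cR : CompAlg ℝ where
  mul := LinearMap.mul ℝ ℝ
  one := 1
  one_mul x := by simp
  mul_one x := by simp
  norm_mul x y := by simp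
  norm_one := by simp

/-- `ℂ` as a composition algebra -/
noncomputable def cC : CompAlg ℂ where
  mul := LinearMap.mul ℝ ℂ
  one := 1
  one_mul x := by simp
  mul_one x := by simp
  norm_mul x y := by simp
  norm_one := by simp

/-- `ℍ` as a composition algebra -/
noncomputable def cH : CompAlg ℍ[ℝ] where
  mul := LinearMap.mul ℝ ℍ[ℝ]
  one := 1
  one_mul x := by simp
  mul_one x := by simp
  norm_mul x y := by simp
  norm_one := by simp

@[simp] theorem cR_mul (x y : ℝ) : cR.mul x y = x * y := rfl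
@[simp] theorem cC_mul (x y : ℂ) : cC.mul x y = x * y := rfl
@[simp] theorem cH_mul (x y : ℍ[ℝ]) : cH.mul x y = x * y := rfl
@[simp] theorem cR_one : cR.one = 1 := rfl
@[simp] theorem cC_one : cC.one = 1 := rfl
@[simp] theorem cH_one : cH.one = 1 := rfl

@[simp] theorem cR_cj (x : ℝ) : cR.cj x = x := by
  unfold cj
  simp only [cR_one, smul_eq_mul]
  have : ⟪x, (1 : ℝ)⟫ = x := by simp
  rw [this]; ring

@[simp] theorem cC_cj (z : ℂ) : cC.cj z = star z := by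
  unfold cj
  simp only [cC_one]
  have : ⟪z, (1 : ℂ)⟫ = z.re := by rw [Complex.inner]; simp
  rw [this]
  apply Complex.ext
  · simp; ring
  · simp

@[simp] theorem cH_cj (q : ℍ[ℝ]) : cH.cj q = star q := by
  unfold cj
  simp only [cH_one]
  have : ⟪q, (1 : ℍ[ℝ])⟫ = q.re := by rw [Quaternion.inner_def]; simp
  rw [this]
  ext
  · simp; ring
  · simp
  · simp
  · simp

variable {A : Type*} [NormedAddCommGroup A] [InnerProductSpace ℝ A] (C : CompAlg A)

/-- the embedding of `ℝ` -/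
noncomputable def iR : ℝ →ₗᵢ[ℝ] A where
  toLinearMap := LinearMap.toSpanSingleton ℝ A C.one
  norm_map' x := by simp [norm_smul, C.norm_one]

theorem iR_apply (x : ℝ) : C.iR x = x • C.one := rfl

theorem iR_one : C.iR 1 = C.one := by rw [iR_apply, one_smul]

theorem iR_mul (x y : ℝ) : C.iR (x * y) = C.mul (C.iR x) (C.iR y) := by
  simp only [iR_apply, map_smul, LinearMap.smul_apply, C.one_mul, smul_smul, mul_comm y x]

/-- from `ℝ` to `ℂ` -/
theorem exists_iC (hs : ¬ Function.Surjective C.iR) :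
    ∃ φ : ℂ →ₗᵢ[ℝ] A, φ 1 = C.one ∧ ∀ x y, φ (x * y) = C.mul (φ x) (φ y) := by
  obtain ⟨i, hi, hir, hp, hin, -⟩ := C.step cR C.iR C.iR_one (fun x y => C.iR_mul x y) hs
  set L : ℂ →ₗ[ℝ] A := C.iR.toLinearMap ∘ₗ Complex.reLm + (C.mul i) ∘ₗ C.iR.toLinearMap ∘ₗ Complex.imLm with hL
  have hLa : ∀ z, L z = C.iR z.re + C.mul i (C.iR z.im) := fun z => rfl
  refine ⟨⟨L, fun z => ?_⟩, ?_, ?_⟩
  · have h := hin z.re z.im z.re z.im
    rw [← hLa, real_inner_self_eq_norm_sq] at h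
    have h2 : ‖z‖ ^ 2 = z.re * z.re + z.im * z.im := by
      rw [← Complex.normSq_eq_norm_sq, Complex.normSq_apply]
    have h3 : ‖L z‖ ^ 2 = ‖z‖ ^ 2 := by
      rw [h, h2]; simp; ring
    exact (sq_eq_sq₀ (norm_nonneg _) (norm_nonneg _)).1 h3
  · change L 1 = _
    rw [hLa]; simp [C.iR_one]
  · intro x y
    change L (x * y) = C.mul (L x) (L y)
    rw [hLa, hLa, hLa, hp]
    simp only [Complex.mul_re, Complex.mul_im, cR_mul, cR_cj]
    congr 2
    · rw [mul_comm y.im x.im]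
    · congr 1; ring

/-- from `ℂ` to `ℍ` -/
theorem exists_iH (φ : ℂ →ₗᵢ[ℝ] A) (h1 : φ 1 = C.one) (hm : ∀ x y, φ (x * y) = C.mul (φ x) (φ y))
    (hs : ¬ Function.Surjective φ) :
    ∃ ψ : ℍ[ℝ] →ₗᵢ[ℝ] A, ψ 1 = C.one ∧ ∀ x y, ψ (x * y) = C.mul (ψ x) (ψ y) := by
  obtain ⟨i, hi, hir, hp, hin, -⟩ := C.step cC φ h1 (fun x y => hm x y) hs
  let pa : ℍ[ℝ] →ₗ[ℝ] ℂ :=
    { toFun := fun q => ⟨q.re, q.imI⟩
      map_add' := fun x y => by apply Complex.ext <;> simp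
      map_smul' := fun r x => by apply Complex.ext <;> simp }
  let pb : ℍ[ℝ] →ₗ[ℝ] ℂ :=
    { toFun := fun q => ⟨q.imJ, -q.imK⟩
      map_add' := fun x y => by apply Complex.ext <;> simp; ring
      map_smul' := fun r x => by apply Complex.ext <;> simp }
  have hpa : ∀ q, pa q = ⟨q.re, q.imI⟩ := fun q => rfl
  have hpb : ∀ q, pb q = ⟨q.imJ, -q.imK⟩ := fun q => rfl
  set L : ℍ[ℝ] →ₗ[ℝ] A := φ.toLinearMap ∘ₗ pa + (C.mul i) ∘ₗ φ.toLinearMap ∘ₗ pb with hL
  have hLa : ∀ q, L q = φ (pa q) + C.mul i (φ (pb q)) := fun q => rfl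
  refine ⟨⟨L, fun q => ?_⟩, ?_, ?_⟩
  · have h := hin (pa q) (pb q) (pa q) (pb q)
    rw [← hLa, real_inner_self_eq_norm_sq, real_inner_self_eq_norm_sq, real_inner_self_eq_norm_sq] at h
    have h3 : ‖L q‖ ^ 2 = ‖q‖ ^ 2 := by
      rw [h, ← Complex.normSq_eq_norm_sq, ← Complex.normSq_eq_norm_sq, Complex.normSq_apply, Complex.normSq_apply]
      rw [sq ‖q‖, ← Quaternion.normSq_eq_norm_mul_self, Quaternion.normSq_def']
      simp only [hpa, hpb]; ring
    exact (sq_eq_sq₀ (norm_nonneg _) (norm_nonneg _)).1 h3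
  · change L 1 = _
    have e1 : pa 1 = 1 := by apply Complex.ext <;> simp [hpa]
    have e2 : pb 1 = 0 := by apply Complex.ext <;> simp [hpb]
    rw [hLa, e1, e2, h1]; simp
  · intro x y
    change L (x * y) = C.mul (L x) (L y)
    rw [hLa, hLa, hLa, hp]
    simp only [cC_mul, cC_cj]
    have e1 : pa (x * y) = pa x * pa y - pb y * star (pb x) := by
      apply Complex.ext
      · simp [hpa, hpb, Complex.mul_re, Quaternion.re_mul]; ring
      · simp [hpa, hpb, Complex.mul_im, Quaternion.imI_mul]; ring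
    have e2 : pb (x * y) = pa y * pb x + star (pa x) * pb y := by
      apply Complex.ext
      · simp [hpa, hpb, Complex.mul_re, Quaternion.imJ_mul]; ring
      · simp [hpa, hpb, Complex.mul_im, Quaternion.imK_mul]; ring
    rw [e1, e2]

/-- from `ℍ` to `𝕆` -/
theorem exists_iO (φ : ℍ[ℝ] →ₗᵢ[ℝ] A) (h1 : φ 1 = C.one) (hm : ∀ x y, φ (x * y) = C.mul (φ x) (φ y))
    (hs : ¬ Function.Surjective φ) :
    ∃ ψ : Oct →ₗᵢ[ℝ] A, ψ (WithLp.toLp 2 (1, 0)) = C.one ∧ ∀ x y, ψ (Oct.mul x y) = C.mul (ψ x) (ψ y) := by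
  obtain ⟨i, hi, hir, hp, hin, -⟩ := C.step cH φ h1 (fun x y => hm x y) hs
  let pa : Oct →ₗ[ℝ] ℍ[ℝ] :=
    { toFun := fun q => q.fst
      map_add' := fun x y => by simp
      map_smul' := fun r x => by simp }
  let pb : Oct →ₗ[ℝ] ℍ[ℝ] :=
    { toFun := fun q => star q.snd
      map_add' := fun x y => by simp
      map_smul' := fun r x => by simp }
  have hpa : ∀ q, pa q = q.fst := fun q => rfl
  have hpb : ∀ q, pb q = star q.snd := fun q => rfl
  set L : Oct →ₗ[ℝ] A := φ.toLinearMap ∘ₗ pa + (C.mul i) ∘ₗ φ.toLinearMap ∘ₗ pb with hL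
  have hLa : ∀ q, L q = φ (pa q) + C.mul i (φ (pb q)) := fun q => rfl
  refine ⟨⟨L, fun q => ?_⟩, ?_, ?_⟩
  · have h := hin (pa q) (pb q) (pa q) (pb q)
    rw [← hLa, real_inner_self_eq_norm_sq, real_inner_self_eq_norm_sq, real_inner_self_eq_norm_sq] at h
    have h3 : ‖L q‖ ^ 2 = ‖q‖ ^ 2 := by
      rw [h, hpa, hpb, WithLp.prod_norm_sq_eq_of_L2]
      simp
    exact (sq_eq_sq₀ (norm_nonneg _) (norm_nonneg _)).1 h3
  · change L _ = _
    rw [hLa, hpa, hpb]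
    simp [h1]
  · intro x y
    change L (Oct.mul x y) = C.mul (L x) (L y)
    rw [hLa, hLa, hLa, hp]
    simp only [cH_mul, cH_cj]
    have e1 : pa (Oct.mul x y) = pa x * pa y - pb y * star (pb x) := by
      simp [hpa, hpb, Oct.mul]
    have e2 : pb (Oct.mul x y) = pa y * pb x + star (pa x) * pb y := by
      simp [hpa, hpb, Oct.mul, add_comm]
    rw [e1, e2]

/-- the octonion multiplication as a bilinear map -/
noncomputable def octMul : Oct →ₗ[ℝ] Oct →ₗ[ℝ] Oct :=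
  LinearMap.mk₂ ℝ Oct.mul
    (fun x y z => by
      refine (WithLp.equiv 2 _).injective ?_
      simp [Oct.mul, add_mul, mul_add, add_sub_add_comm, add_add_add_comm])
    (fun r x y => by
      refine (WithLp.equiv 2 _).injective ?_
      simp [Oct.mul, smul_sub, smul_add])
    (fun x y z => by
      refine (WithLp.equiv 2 _).injective ?_
      simp [Oct.mul, add_mul, mul_add, add_sub_add_comm, add_add_add_comm])
    (fun r x y => by
      refine (WithLp.equiv 2 _).injective ?_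
      simp [Oct.mul, smul_sub, smul_add])

theorem oct_not_assoc : ¬ ∀ x y z : Oct, Oct.mul (Oct.mul x y) z = Oct.mul x (Oct.mul y z) := by
  intro h
  have h1 := h (WithLp.toLp 2 ((⟨0, 1, 0, 0⟩ : ℍ[ℝ]), 0)) (WithLp.toLp 2 ((⟨0, 0, 1, 0⟩ : ℍ[ℝ]), 0)) (WithLp.toLp 2 (0, 1))
  have h2 := congrArg (fun w : Oct => (w.snd).imK) h1
  simp [Oct.mul] at h2
  norm_num at h2

theorem surj_of_iO [FiniteDimensional ℝ A] (ψ : Oct →ₗᵢ[ℝ] A) (h1 : ψ (WithLp.toLp 2 (1, 0)) = C.one)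
    (hm : ∀ x y, ψ (Oct.mul x y) = C.mul (ψ x) (ψ y)) : Function.Surjective ψ := by
  by_contra hs
  let cO : CompAlg Oct :=
    { mul := octMul
      one := WithLp.toLp 2 (1, 0)
      one_mul := fun x => ψ.injective (by
        change ψ (Oct.mul _ x) = _
        rw [hm, h1, C.one_mul])
      mul_one := fun x => ψ.injective (by
        change ψ (Oct.mul x _) = _
        rw [hm, h1, C.mul_one])
      norm_mul := fun x y => by
        change ‖Oct.mul x y‖ = _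
        rw [← ψ.norm_map, hm, C.norm_mul, ψ.norm_map, ψ.norm_map]
      norm_one := by rw [← ψ.norm_map, h1, C.norm_one] }
  obtain ⟨i, hi, hir, hp, hin, hassoc⟩ := C.step cO ψ h1 (fun x y => hm x y) hs
  exact oct_not_assoc hassoc

/-- **Hurwitz's theorem.** -/
theorem hurwitz [FiniteDimensional ℝ A] :
    (∃ φ : ℝ ≃ₗᵢ[ℝ] A, φ 1 = C.one ∧ ∀ x y, φ (x * y) = C.mul (φ x) (φ y)) ∨
    (∃ φ : ℂ ≃ₗᵢ[ℝ] A, φ 1 = C.one ∧ ∀ x y, φ (x * y) = C.mul (φ x) (φ y)) ∨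
    (∃ φ : ℍ[ℝ] ≃ₗᵢ[ℝ] A, φ 1 = C.one ∧ ∀ x y, φ (x * y) = C.mul (φ x) (φ y)) ∨
    (∃ φ : Oct ≃ₗᵢ[ℝ] A, φ (WithLp.toLp 2 (1, 0)) = C.one ∧ ∀ x y, φ (Oct.mul x y) = C.mul (φ x) (φ y)) := by
  by_cases hs0 : Function.Surjective C.iR
  · exact Or.inl ⟨LinearIsometryEquiv.ofSurjective C.iR hs0, C.iR_one, C.iR_mul⟩
  obtain ⟨φ1, h11, h1m⟩ := C.exists_iC hs0
  by_cases hs1 : Function.Surjective φ1
  · exact Or.inr (Or.inl ⟨LinearIsometryEquiv.ofSurjective φ1 hs1, h11, h1m⟩)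
  obtain ⟨φ2, h21, h2m⟩ := C.exists_iH φ1 h11 h1m hs1
  by_cases hs2 : Function.Surjective φ2
  · exact Or.inr (Or.inr (Or.inl ⟨LinearIsometryEquiv.ofSurjective φ2 hs2, h21, h2m⟩))
  obtain ⟨φ3, h31, h3m⟩ := C.exists_iO φ2 h21 h2m hs2
  exact Or.inr (Or.inr (Or.inr ⟨LinearIsometryEquiv.ofSurjective φ3 (C.surj_of_iO φ3 h31 h3m), h31, h3m⟩))

end CompAlg

end Blaschke
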