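import Pool.Agent.Lib.MP_ccbbf6_gt.Cls.NK

/-!
# Main1: from the distance formula and the structure of the blocks to the models
-/

set_option autoImplicit false

open Set Module Real
open scoped RealInnerProductSpace Quaternion

noncomputable section

namespace Blaschke

variable {n : ℕ} {M : Type*} [MetricSpace M] {e : EuclideanSpace ℝ (Fin n) → M}
  {N : EuclideanSpace ℝ (Fin n) → EuclideanSpace ℝ (Fin n) → ℝ}

instance starModuleQuaternion : StarModule ℝ ℍ[ℝ] := ⟨fun r a => by rw [star_trivial r, Quaternion.star_smul]⟩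

/-- From the distance formula and the structure of `N` to the models. -/
theorem isModel_of (hn : 2 ≤ n) {κ : ℕ} (hd : ∀ x y : M, dist x y ≤ π) (hs : ∀ x, ∃ ξ, ‖ξ‖ ≤ π ∧ e ξ = x)
    (hD : DistForm N e) (hκ : κ ≤ n - 1)
    (htop : κ + 1 = n → ∀ v w, ‖v‖ = 1 → ‖w‖ = 1 → N v w = 1)
    (hcay : n = 16 → ∀ φ : EuclideanSpace ℝ (Fin n) ≃ₗᵢ[ℝ] WithLp 2 (Oct × Oct), (∀ v w, N v w =
      ‖(φ v).fst‖ ^ 2 * ‖(φ w).fst‖ ^ 2 + ‖(φ v).snd‖ ^ 2 * ‖(φ w).snd‖ ^ 2 +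
      2 * ⟪Oct.mul (φ v).fst (Oct.conj (φ v).snd), Oct.mul (φ w).fst (Oct.conj (φ w).snd)⟫) → IsCayley M)
    (hdec : κ + 1 < n → ∃ (A : Submodule ℝ (EuclideanSpace ℝ (Fin n))) (c : CompAlg A) (m : ℕ)
      (φ₀ : (Fin m → A) ≃ₗ[ℝ] EuclideanSpace ℝ (Fin n)), finrank ℝ A = κ + 1 ∧ 2 ≤ m ∧
      (∀ x, ‖φ₀ x‖ ^ 2 = ∑ i, ‖x i‖ ^ 2) ∧
      (∀ x y, N (φ₀ x) (φ₀ y) = ∑ i, ∑ j, ⟪c.mul (c.cj (x i)) (x j), c.mul (c.cj (y i)) (y j)⟫) ∧
      (3 ≤ m → ∀ x y z, c.mul (c.mul x y) z = c.mul x (c.mul y z))) : IsModel n κ M := by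
  have hn0 : 0 < n := by omega
  rcases (show κ + 1 = n ∨ κ + 1 < n by omega) with h1 | h1
  · exact Or.inl ⟨by omega, isSphere_of hn0 hd hs hD (htop h1)⟩
  · obtain ⟨A, c, m, φ₀, h2, h3, h4, h5, h6⟩ := hdec h1
    have hdim : n = m * (κ + 1) := by
      have h7 := φ₀.finrank_eq
      rw [finrank_euclideanSpace_fin, Module.finrank_pi_fintype] at h7
      simp only [h2, Finset.sum_const, Finset.card_univ, Fintype.card_fin, smul_eq_mul] at h7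
      exact h7.symm
    rcases classify_comp c h3 φ₀ h4 h5 h6 with ⟨h7, φ, h8, h9, h10⟩ | ⟨h7, φ, h8, h9, h10⟩ | ⟨h7, φ, h8, h9, h10⟩ |
      ⟨h7, h8, φ, h9⟩
    · have hκ0 : κ = 0 := by omega
      have hmn : m = n := by rw [hdim, hκ0]; ring
      subst hmn
      exact Or.inr (Or.inl ⟨hκ0, isProj_of rePart_real hn0 hd hs hD φ h8 h9 fun v w _ _ => h10 v w⟩)
    · have hκ0 : κ = 1 := by omega
      exact Or.inr (Or.inr (Or.inl ⟨hκ0, m, by rw [hdim, hκ0]; ring,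
        isProj_of rePart_complex hn0 hd hs hD φ h8 h9 fun v w _ _ => h10 v w⟩))
    · have hκ0 : κ = 3 := by omega
      exact Or.inr (Or.inr (Or.inr (Or.inl ⟨hκ0, m, by rw [hdim, hκ0]; ring,
        isProj_of rePart_quaternion hn0 hd hs hD φ h8 h9 fun v w _ _ => h10 v w⟩)))
    · have hκ0 : κ = 7 := by omega
      have hn16 : n = 16 := by rw [hdim, hκ0, h8]
      exact Or.inr (Or.inr (Or.inr (Or.inr ⟨hκ0, hn16, hcay hn16 φ h9⟩)))

end Blaschke
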