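import Pool.Agent.Lib.MP_ccbbf6_gt.Cls.Dec
import Pool.Agent.Lib.MP_ccbbf6_gt.Cls.FinO
import Pool.Agent.Lib.MP_ccbbf6_gt.Cls.Main1

/-!
# Main2: from the distance formula to the models
-/

set_option autoImplicit false

open Set Module Real
open scoped RealInnerProductSpace Quaternion

noncomputable section

namespace Pool.Agent.Lib.MP_ccbbf6_gt.Cl

/-- From the distance formula to the models. -/
theorem isModel_of_distForm {n : ℕ} {M : Type*} [MetricSpace M] {e : EuclideanSpace ℝ (Fin n) → M}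
    {V : EuclideanSpace ℝ (Fin n) → Submodule ℝ (EuclideanSpace ℝ (Fin n))} (hn : 2 ≤ n) {κ : ℕ}
    (hd : ∀ x y : M, dist x y ≤ π) (hs : ∀ x, ∃ ξ, ‖ξ‖ ≤ π ∧ e ξ = x) (hD : Blaschke.DistForm (NN V) e) (hκ : κ ≤ n - 1)
    (hV : Part V) (hk : ∀ v, v ≠ 0 → finrank ℝ (V v) = κ + 1) : Blaschke.IsModel n κ M := by
  have hn0 : 0 < n := by omega
  refine Blaschke.isModel_of hn hd hs hD hκ (fun h v w hv hw => ?_) (fun h φ hφ => ?_) fun h => ?_
  · rw [NN_of_finrank (fun v hv => by rw [hk v hv, finrank_euclideanSpace_fin, h]) v w, hv, hw]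
    norm_num
  · exact Blaschke.isCayley_of hn0 hd hs hD φ fun v w _ _ => hφ v w
  · obtain ⟨A, C, m, φ, h1, h2, -, h4, h5, h6⟩ := hV.dec hk (by rw [finrank_euclideanSpace_fin]; exact h)
    exact ⟨A, C, m, φ, h1, h2, h4, h5, h6⟩

end Pool.Agent.Lib.MP_ccbbf6_gt.Cl
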