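import Pool.Agent.Lib.MP_ccbbf6_gt.Cls.Br
import Pool.Agent.Lib.MP_ccbbf6_gt.Cls.Main2
import Pool.Agent.Lib.MP_ccbbf6_gt.Geo.ASM

/-!
# Main: the assembly with the classification (helper25)
-/

set_option autoImplicit false

open MeasureTheory Set Filter Topology Metric Real
open scoped ContDiff RealInnerProductSpace ENNReal

noncomputable section

namespace Pool.Agent.Lib.MP_ccbbf6_gt.Geo

/-- **Assembly**: `κ`, the spheres of directions, the volume inequality, the case of equality. -/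
theorem asm_model {n : ℕ} {M : Type*} [MetricSpace M] [CompactSpace M] [MeasurableSpace M] [BorelSpace M] [Nonempty M]
    (hn : 2 ≤ n) (𝒜 : SDist n M) (hB : Bl M) : ∃ κ : ℕ, κ ≤ n - 1 ∧
    (∀ p q : M, dist p q = π → ∃ V : Submodule ℝ (Eu n), 𝒜.Lam q p = {v | v ∈ V ∧ ‖v‖ = 1} ∧
      Module.finrank ℝ V = κ + 1) ∧
    Blaschke.modelVolume n κ ≤ μHE[n] (univ : Set M) ∧
    (μHE[n] (univ : Set M) = Blaschke.modelVolume n κ → Blaschke.IsModel n κ M) := by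
  obtain ⟨κ, hκ, h1, h2⟩ := exists_kappa 𝒜 hn hB
  have hk : 𝒜.HasKappa κ := h1
  have hn0 : 0 < n := by omega
  have := finite_of_sdist 𝒜
  have := openPos_of_sdist 𝒜
  have hP := polar 𝒜 hn0 hB
  refine ⟨κ, hκ, h2, 𝒜.volume_ge_polar hn0 hB hP fun t ht c hc => line_ineq 𝒜 hn hB hk ht hc, fun heq => ?_⟩
  have hG : ∀ c : ℝ → M, IsGeo c → ∃ V, 𝒜.Gram c V := by
    obtain ⟨N, rfl⟩ : ∃ N, n = N + 1 := ⟨n - 1, by omega⟩
    refine gram_of_J 𝒜 hB (κ := κ) (N := N) rfl (fun c hc L hL => thm1 𝒜 rfl hB hk hc hL) fun p q h0 h1 => ?_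
    exact 𝒜.J_eq_polar hn0 hB hP (fun t ht c hc => line_ineq 𝒜 hn hB hk ht hc) heq h0 h1
  obtain ⟨p⟩ : Nonempty M := inferInstance
  exact Cl.isModel_of_distForm hn hB.diam (fun q => by
    obtain ⟨ξ, h3, h4⟩ := Ex_surj 𝒜 hB p q
    exact ⟨ξ, h3.trans_le (hB.diam p q), h4⟩) (distForm_PV 𝒜 hB h1 hG p) hκ (part_PV 𝒜 hB h1 hG p)
    fun v hv => finrank_PV 𝒜 hB h1 p hv

end Pool.Agent.Lib.MP_ccbbf6_gt.Geo
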