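import Pool.Agent.Lib.MP_ccbbf6_gt.Cls.Fin3
import Pool.Agent.Lib.MP_ccbbf6_gt.Cls.Hur2

/-!
# Cls/NK: the function `N` in coordinates over `ℝ`, `ℂ`, `ℍ`, `𝕆`
-/

set_option autoImplicit false

open Set Module
open scoped RealInnerProductSpace Quaternion

noncomputable section

namespace Blaschke

section RP

variable {K : Type*} [NormedDivisionRing K] [StarRing K] [NormedAlgebra ℝ K] [StarModule ℝ K] {ρ : K →ₗ[ℝ] ℝ}

namespace RePart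

omit [StarModule ℝ K] in
theorem comm' (h : RePart ρ) (x y : K) : ρ (x * Star.star y) = ρ (y * Star.star x) := by
  have h1 := h.add_sq x y
  have h2 := h.add_sq y x
  rw [add_comm y x] at h2
  linarith

omit [StarModule ℝ K] in
theorem star_star' (h : RePart ρ) (x y : K) : ρ (Star.star x * y) = ρ (x * Star.star y) := by
  have h1 := h.add_sq x y
  have h2 := h.add_sq (Star.star x) (Star.star y)
  rw [← star_add, h.norm_star, h.norm_star, h.norm_star, _root_.star_star] at h2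
  linarith

omit [StarModule ℝ K] in
/-- the trace property -/
theorem mul_comm' (h : RePart ρ) (a b : K) : ρ (a * b) = ρ (b * a) := by
  have h1 := h.star_star' (Star.star a) b
  rw [_root_.star_star] at h1
  have h2 := h.star (b * a)
  rw [star_mul] at h2
  rw [h1, h2]

omit [StarModule ℝ K] in
theorem star_eq (h : RePart ρ) (x : K) : Star.star x = (2 * ρ x) • (1 : K) - x := by
  have h1 := h.self (x + 1)
  have h2 := h.self x
  have h3 := h.add_sq x 1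
  rw [star_one, _root_.mul_one] at h3
  rw [h3, map_add, map_add, star_add, star_one, add_mul, mul_add, mul_add, h2, _root_.mul_one, _root_.one_mul,
    _root_.mul_one, norm_one, one_pow, map_one] at h1
  have h4 : Star.star x = Algebra.algebraMap (R := ℝ) (A := K) (2 * ρ x) - x := by
    have h5 : x + Star.star x = Algebra.algebraMap (R := ℝ) (A := K) (2 * ρ x) := by
      have h7 : x + Star.star x = (Algebra.algebraMap (R := ℝ) (A := K) (‖x‖ ^ 2) + x + (Star.star x + 1)) -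
        Algebra.algebraMap (R := ℝ) (A := K) (‖x‖ ^ 2) - 1 := by abel
      rw [h7, h1]
      abel
    rw [← h5]
    abel
  rw [h4, Algebra.algebraMap_eq_smul_one]

omit [StarModule ℝ K] in
/-- the inner product of the products -/
theorem quad_form (h : RePart ρ) {m : ℕ} (x y : Fin m → K) :
    ∑ i, ∑ j, ρ ((Star.star (x i) * x j) * Star.star (Star.star (y i) * y j)) = ‖herm x y‖ ^ 2 := by
  rw [← h.self', h.mul_comm']
  simp only [herm, star_sum, star_mul, _root_.star_star, Finset.sum_mul_sum, map_sum]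
  refine Finset.sum_congr rfl fun i _ => Finset.sum_congr rfl fun j _ => ?_
  rw [← mul_assoc, h.mul_comm']
  congr 1
  simp only [mul_assoc]

end RePart

variable {T : Type*} [NormedAddCommGroup T] [InnerProductSpace ℝ T] {A : Type*} [NormedAddCommGroup A]
  [InnerProductSpace ℝ A]

omit [StarModule ℝ K] in
theorem coord_of (hρ : RePart ρ) (c : CompAlg A) {m : ℕ} {N : T → T → ℝ} (φ₀ : (Fin m → A) ≃ₗ[ℝ] T)
    (hφ₀ : ∀ x, ‖φ₀ x‖ ^ 2 = ∑ i, ‖x i‖ ^ 2)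
    (hN : ∀ x y, N (φ₀ x) (φ₀ y) = ∑ i, ∑ j, ⟪c.mul (c.cj (x i)) (x j), c.mul (c.cj (y i)) (y j)⟫)
    (ψ : K ≃ₗᵢ[ℝ] A) (h1 : ψ 1 = c.one) (hm : ∀ x y, ψ (x * y) = c.mul (ψ x) (ψ y)) :
    ∃ φ : T →ₗ[ℝ] (Fin m → K), Function.Surjective φ ∧ (∀ v, nsq (φ v) = ‖v‖ ^ 2) ∧
      ∀ v w, N v w = ‖herm (φ v) (φ w)‖ ^ 2 := by
  have hin : ∀ x y : K, ⟪ψ x, ψ y⟫ = ρ (x * star y) := by
    intro x y
    have h2 := hρ.add_sq x y
    have h3 := norm_add_sq_real (ψ x) (ψ y)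
    rw [← map_add, ψ.norm_map, ψ.norm_map, ψ.norm_map] at h3
    linarith
  have hcj : ∀ x : K, c.cj (ψ x) = ψ (star x) := by
    intro x
    rw [hρ.star_eq, map_sub, map_smul, h1, CompAlg.cj, ← h1, hin, star_one, _root_.mul_one]
  let φ : T →ₗ[ℝ] (Fin m → K) := (LinearMap.pi fun i =>
    (ψ.symm.toLinearEquiv : A →ₗ[ℝ] K) ∘ₗ (LinearMap.proj i)) ∘ₗ (φ₀.symm : T →ₗ[ℝ] (Fin m → A))
  have hφ : ∀ v i, φ v i = ψ.symm (φ₀.symm v i) := fun v i => rfl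
  have hφ' : ∀ v i, ψ (φ v i) = φ₀.symm v i := fun v i => by rw [hφ, ψ.apply_symm_apply]
  refine ⟨φ, fun x => ⟨φ₀ fun i => ψ (x i), ?_⟩, fun v => ?_, fun v w => ?_⟩
  · funext i
    rw [hφ, φ₀.symm_apply_apply, ψ.symm_apply_apply]
  · have h2 := hφ₀ (φ₀.symm v)
    rw [φ₀.apply_symm_apply] at h2
    rw [h2, nsq]
    refine Finset.sum_congr rfl fun i _ => ?_
    rw [← hφ', ψ.norm_map]
  · have h2 := hN (φ₀.symm v) (φ₀.symm w)
    rw [φ₀.apply_symm_apply, φ₀.apply_symm_apply] at h2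
    rw [h2, ← hρ.quad_form]
    refine Finset.sum_congr rfl fun i _ => Finset.sum_congr rfl fun j _ => ?_
    simp only [← hφ', hcj, ← hm, hin]

end RP

section Octonions

variable {T : Type*} [NormedAddCommGroup T] [InnerProductSpace ℝ T] {A : Type*} [NormedAddCommGroup A]
  [InnerProductSpace ℝ A]

theorem Oct.inner_def (x y : Oct) : ⟪x, y⟫ = ⟪x.fst, y.fst⟫ + ⟪x.snd, y.snd⟫ := WithLp.prod_inner_apply x y

theorem Oct.conj_eq (x : Oct) : Oct.conj x = (2 * ⟪x, (WithLp.toLp 2 (1, 0) : Oct)⟫) • (WithLp.toLp 2 (1, 0) : Oct) - x := by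
  rw [Oct.inner_def]
  refine WithLp.ofLp_injective 2 (Prod.ext ?_ ?_)
  · change star x.fst = (2 * (⟪x.fst, (1 : ℍ[ℝ])⟫ + ⟪x.snd, (0 : ℍ[ℝ])⟫)) • (1 : ℍ[ℝ]) - x.fst
    rw [inner_zero_right, add_zero, Quaternion.inner_def, star_one, mul_one]
    ext <;> (simp; try ring)
  · change -x.snd = (2 * (⟪x.fst, (1 : ℍ[ℝ])⟫ + ⟪x.snd, (0 : ℍ[ℝ])⟫)) • (0 : ℍ[ℝ]) - x.snd
    rw [smul_zero, zero_sub]

theorem Oct.conj_conj (x : Oct) : Oct.conj (Oct.conj x) = x := by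
  refine WithLp.ofLp_injective 2 (Prod.ext ?_ ?_)
  · exact star_star x.fst
  · exact neg_neg x.snd

theorem Oct.conj_mul (x y : Oct) : Oct.conj (Oct.mul x y) = Oct.mul (Oct.conj y) (Oct.conj x) := by
  refine WithLp.ofLp_injective 2 (Prod.ext ?_ ?_)
  · change star (x.fst * y.fst - star y.snd * x.snd) = star y.fst * star x.fst - star (-x.snd) * (-y.snd)
    simp [star_sub, star_mul]
  · change -(y.snd * x.fst + x.snd * star y.fst) = (-x.snd) * star y.fst + (-y.snd) * star (star x.fst)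
    rw [star_star, neg_mul, neg_mul]
    abel

theorem Oct.norm_sq (x : Oct) : ‖x‖ ^ 2 = ‖x.fst‖ ^ 2 + ‖x.snd‖ ^ 2 := by
  rw [WithLp.prod_norm_sq_eq_of_L2]

theorem Oct.norm_conj (x : Oct) : ‖Oct.conj x‖ = ‖x‖ := by
  have h : ‖Oct.conj x‖ ^ 2 = ‖x‖ ^ 2 := by
    rw [Oct.norm_sq, Oct.norm_sq]
    change ‖star x.fst‖ ^ 2 + ‖-x.snd‖ ^ 2 = _
    rw [norm_star, norm_neg]
  exact (sq_eq_sq₀ (norm_nonneg _) (norm_nonneg _)).1 h

/-- the conjugation as a linear isometry -/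
def Oct.conjL : Oct ≃ₗᵢ[ℝ] Oct where
  toFun := Oct.conj
  invFun := Oct.conj
  left_inv := Oct.conj_conj
  right_inv := Oct.conj_conj
  map_add' x y := by
    refine WithLp.ofLp_injective 2 (Prod.ext ?_ ?_)
    · exact star_add x.fst y.fst
    · exact neg_add x.snd y.snd
  map_smul' r x := by
    refine WithLp.ofLp_injective 2 (Prod.ext ?_ ?_)
    · change star (r • x.fst) = r • star x.fst
      rw [Quaternion.star_smul]
    · exact (smul_neg r x.snd).symm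
  norm_map' := Oct.norm_conj

theorem Oct.inner_conj (x y : Oct) : ⟪Oct.conj x, Oct.conj y⟫ = ⟪x, y⟫ := Oct.conjL.inner_map_map x y

theorem Oct.conj_mul_self (x : Oct) : Oct.mul (Oct.conj x) x = (‖x‖ ^ 2) • (WithLp.toLp 2 (1, 0) : Oct) := by
  refine WithLp.ofLp_injective 2 (Prod.ext ?_ ?_)
  · change star x.fst * x.fst - star x.snd * (-x.snd) = (‖x‖ ^ 2) • (1 : ℍ[ℝ])
    rw [mul_neg, sub_neg_eq_add, Quaternion.star_mul_self, Quaternion.star_mul_self, Oct.norm_sq,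
      Quaternion.normSq_eq_norm_mul_self, Quaternion.normSq_eq_norm_mul_self, ← Quaternion.coe_add,
      pow_two, pow_two]
    have h := Quaternion.smul_coe (x := ‖x.fst‖ * ‖x.fst‖ + ‖x.snd‖ * ‖x.snd‖) (y := (1 : ℝ))
    rw [mul_one] at h
    rw [← h, Quaternion.coe_one]
  · change x.snd * star x.fst + (-x.snd) * star x.fst = (‖x‖ ^ 2) • (0 : ℍ[ℝ])
    rw [neg_mul, add_neg_cancel, smul_zero]

theorem Oct.norm_one : ‖(WithLp.toLp 2 (1, 0) : Oct)‖ ^ 2 = 1 := by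
  rw [Oct.norm_sq]
  change ‖(1 : ℍ[ℝ])‖ ^ 2 + ‖(0 : ℍ[ℝ])‖ ^ 2 = 1
  simp

theorem coordO_of (c : CompAlg A) {N : T → T → ℝ} (φ₀ : (Fin 2 → A) ≃ₗ[ℝ] T)
    (hφ₀ : ∀ x, ‖φ₀ x‖ ^ 2 = ∑ i, ‖x i‖ ^ 2)
    (hN : ∀ x y, N (φ₀ x) (φ₀ y) = ∑ i, ∑ j, ⟪c.mul (c.cj (x i)) (x j), c.mul (c.cj (y i)) (y j)⟫)
    (ψ : Oct ≃ₗᵢ[ℝ] A) (h1 : ψ (WithLp.toLp 2 (1, 0)) = c.one) (hm : ∀ x y, ψ (Oct.mul x y) = c.mul (ψ x) (ψ y)) :
    ∃ φ : T ≃ₗᵢ[ℝ] WithLp 2 (Oct × Oct), ∀ v w, N v w = ‖(φ v).fst‖ ^ 2 * ‖(φ w).fst‖ ^ 2 +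
      ‖(φ v).snd‖ ^ 2 * ‖(φ w).snd‖ ^ 2 +
      2 * ⟪Oct.mul (φ v).fst (Oct.conj (φ v).snd), Oct.mul (φ w).fst (Oct.conj (φ w).snd)⟫ := by
  have hin : ∀ x y : Oct, ⟪ψ x, ψ y⟫ = ⟪x, y⟫ := fun x y => ψ.inner_map_map x y
  have hcj : ∀ x : Oct, c.cj (ψ x) = ψ (Oct.conj x) := by
    intro x
    rw [Oct.conj_eq, map_sub, map_smul, h1, CompAlg.cj, ← h1, hin]
  let L : (Fin 2 → A) ≃ₗ[ℝ] WithLp 2 (Oct × Oct) :=
    { toFun := fun x => WithLp.toLp 2 (Oct.conj (ψ.symm (x 0)), Oct.conj (ψ.symm (x 1)))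
      invFun := fun z => ![ψ (Oct.conj z.fst), ψ (Oct.conj z.snd)]
      map_add' := fun x y => by
        refine WithLp.ofLp_injective 2 (Prod.ext ?_ ?_)
        · change Oct.conjL (ψ.symm ((x + y) 0)) = Oct.conjL (ψ.symm (x 0)) + Oct.conjL (ψ.symm (y 0))
          rw [← map_add, ← map_add]
          rfl
        · change Oct.conjL (ψ.symm ((x + y) 1)) = Oct.conjL (ψ.symm (x 1)) + Oct.conjL (ψ.symm (y 1))
          rw [← map_add, ← map_add]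
          rfl
      map_smul' := fun r x => by
        refine WithLp.ofLp_injective 2 (Prod.ext ?_ ?_)
        · change Oct.conjL (ψ.symm ((r • x) 0)) = r • Oct.conjL (ψ.symm (x 0))
          rw [← map_smul, ← map_smul]
          rfl
        · change Oct.conjL (ψ.symm ((r • x) 1)) = r • Oct.conjL (ψ.symm (x 1))
          rw [← map_smul, ← map_smul]
          rfl
      left_inv := fun x => by
        funext i
        fin_cases i
        · change ψ (Oct.conj (Oct.conj (ψ.symm (x 0)))) = x 0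
          rw [Oct.conj_conj, ψ.apply_symm_apply]
        · change ψ (Oct.conj (Oct.conj (ψ.symm (x 1)))) = x 1
          rw [Oct.conj_conj, ψ.apply_symm_apply]
      right_inv := fun z => by
        refine WithLp.ofLp_injective 2 (Prod.ext ?_ ?_)
        · change Oct.conj (ψ.symm (ψ (Oct.conj z.fst))) = z.fst
          rw [ψ.symm_apply_apply, Oct.conj_conj]
        · change Oct.conj (ψ.symm (ψ (Oct.conj z.snd))) = z.snd
          rw [ψ.symm_apply_apply, Oct.conj_conj] }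
  have hL : ∀ x, ‖L x‖ ^ 2 = ∑ i, ‖x i‖ ^ 2 := by
    intro x
    rw [WithLp.prod_norm_sq_eq_of_L2, Fin.sum_univ_two]
    change ‖Oct.conj (ψ.symm (x 0))‖ ^ 2 + ‖Oct.conj (ψ.symm (x 1))‖ ^ 2 = _
    rw [Oct.norm_conj, Oct.norm_conj, ψ.symm.norm_map, ψ.symm.norm_map]
  let φ : T ≃ₗᵢ[ℝ] WithLp 2 (Oct × Oct) :=
    { (φ₀.symm.trans L) with
      norm_map' := fun v => by
        have h2 : ‖L (φ₀.symm v)‖ ^ 2 = ‖v‖ ^ 2 := by
          rw [hL, ← hφ₀, φ₀.apply_symm_apply]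
        exact (sq_eq_sq₀ (norm_nonneg _) (norm_nonneg _)).1 h2 }
  have hf : ∀ v, (φ v).fst = Oct.conj (ψ.symm (φ₀.symm v 0)) := fun v => rfl
  have hs : ∀ v, (φ v).snd = Oct.conj (ψ.symm (φ₀.symm v 1)) := fun v => rfl
  refine ⟨φ, fun v w => ?_⟩
  have h2 := hN (φ₀.symm v) (φ₀.symm w)
  rw [φ₀.apply_symm_apply, φ₀.apply_symm_apply] at h2
  rw [h2]
  obtain ⟨x, hx⟩ : ∃ x : Fin 2 → Oct, ∀ i, ψ (x i) = φ₀.symm v i := ⟨fun i => ψ.symm (φ₀.symm v i), fun i => ψ.apply_symm_apply _⟩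
  obtain ⟨y, hy⟩ : ∃ y : Fin 2 → Oct, ∀ i, ψ (y i) = φ₀.symm w i := ⟨fun i => ψ.symm (φ₀.symm w i), fun i => ψ.apply_symm_apply _⟩
  rw [hf, hf, hs, hs]
  simp only [← hx, ← hy, hcj, ← hm, hin, ψ.symm_apply_apply, Oct.conj_conj, Fin.sum_univ_two, Oct.norm_conj]
  have h4 : ∀ z z' : Oct, ⟪Oct.mul (Oct.conj z) z, Oct.mul (Oct.conj z') z'⟫ = ‖z‖ ^ 2 * ‖z'‖ ^ 2 := by
    intro z z'
    rw [Oct.conj_mul_self, Oct.conj_mul_self, inner_smul_left, inner_smul_right, real_inner_self_eq_norm_sq,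
      Oct.norm_one]
    simp
  have h5 : ⟪Oct.mul (Oct.conj (x 1)) (x 0), Oct.mul (Oct.conj (y 1)) (y 0)⟫ =
      ⟪Oct.mul (Oct.conj (x 0)) (x 1), Oct.mul (Oct.conj (y 0)) (y 1)⟫ := by
    rw [← Oct.inner_conj, Oct.conj_mul, Oct.conj_mul, Oct.conj_conj, Oct.conj_conj]
  rw [h4, h4, h5]
  ring

/-- **`N` in coordinates.** -/
theorem classify_comp [FiniteDimensional ℝ A] (c : CompAlg A) {m : ℕ} (h2 : 2 ≤ m) {N : T → T → ℝ}
    (φ₀ : (Fin m → A) ≃ₗ[ℝ] T) (hφ₀ : ∀ x, ‖φ₀ x‖ ^ 2 = ∑ i, ‖x i‖ ^ 2)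
    (hN : ∀ x y, N (φ₀ x) (φ₀ y) = ∑ i, ∑ j, ⟪c.mul (c.cj (x i)) (x j), c.mul (c.cj (y i)) (y j)⟫)
    (hassoc : 3 ≤ m → ∀ x y z, c.mul (c.mul x y) z = c.mul x (c.mul y z)) :
    (finrank ℝ A = 1 ∧ ∃ φ : T →ₗ[ℝ] (Fin m → ℝ), Function.Surjective φ ∧ (∀ v, nsq (φ v) = ‖v‖ ^ 2) ∧
      ∀ v w, N v w = ‖herm (φ v) (φ w)‖ ^ 2) ∨
    (finrank ℝ A = 2 ∧ ∃ φ : T →ₗ[ℝ] (Fin m → ℂ), Function.Surjective φ ∧ (∀ v, nsq (φ v) = ‖v‖ ^ 2) ∧
      ∀ v w, N v w = ‖herm (φ v) (φ w)‖ ^ 2) ∨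
    (finrank ℝ A = 4 ∧ ∃ φ : T →ₗ[ℝ] (Fin m → ℍ[ℝ]), Function.Surjective φ ∧ (∀ v, nsq (φ v) = ‖v‖ ^ 2) ∧
      ∀ v w, N v w = ‖herm (φ v) (φ w)‖ ^ 2) ∨
    (finrank ℝ A = 8 ∧ m = 2 ∧ ∃ φ : T ≃ₗᵢ[ℝ] WithLp 2 (Oct × Oct), ∀ v w, N v w =
      ‖(φ v).fst‖ ^ 2 * ‖(φ w).fst‖ ^ 2 + ‖(φ v).snd‖ ^ 2 * ‖(φ w).snd‖ ^ 2 +
      2 * ⟪Oct.mul (φ v).fst (Oct.conj (φ v).snd), Oct.mul (φ w).fst (Oct.conj (φ w).snd)⟫) := by
  have h4 : finrank ℝ ℍ[ℝ] = 4 := Quaternion.finrank_eq_four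
  rcases c.hurwitz with ⟨ψ, hψ1, hψ2⟩ | ⟨ψ, hψ1, hψ2⟩ | ⟨ψ, hψ1, hψ2⟩ | ⟨ψ, hψ1, hψ2⟩
  · exact Or.inl ⟨by rw [← ψ.toLinearEquiv.finrank_eq, finrank_self], coord_of rePart_real c φ₀ hφ₀ hN ψ hψ1 hψ2⟩
  · exact Or.inr (Or.inl ⟨by rw [← ψ.toLinearEquiv.finrank_eq, Complex.finrank_real_complex],
      coord_of rePart_complex c φ₀ hφ₀ hN ψ hψ1 hψ2⟩)
  · exact Or.inr (Or.inr (Or.inl ⟨by rw [← ψ.toLinearEquiv.finrank_eq, h4],
      coord_of rePart_quaternion c φ₀ hφ₀ hN ψ hψ1 hψ2⟩))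
  · have hm : m = 2 := by
      by_contra hne
      have h3 := hassoc (by omega)
      refine CompAlg.oct_not_assoc fun x y z => ψ.injective ?_
      rw [hψ2, hψ2, hψ2, hψ2, h3]
    subst hm
    refine Or.inr (Or.inr (Or.inr ⟨?_, rfl, coordO_of c φ₀ hφ₀ hN ψ hψ1 hψ2⟩))
    rw [← ψ.toLinearEquiv.finrank_eq, (WithLp.linearEquiv 2 ℝ (ℍ[ℝ] × ℍ[ℝ])).finrank_eq, finrank_prod, h4]

end Octonions

end Blaschke
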