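import Pool.Agent.Lib.MP_ccbbf6_gt.Geo.KAc

/-!
# PolA: the subspaces `PV p v` spanned by the directions of the segments from `p` to a cut point (helper79)
-/

set_option autoImplicit false

open Set Filter Topology Metric Real
open scoped ContDiff RealInnerProductSpace

noncomputable section

namespace Pool.Agent.Lib.MP_ccbbf6_gt.Geo

variable {n : ℕ} {M : Type*} [MetricSpace M] [CompactSpace M] (𝒜 : SDist n M)

open Classical in
/-- the subspace spanned by the directions at `p` of the segments from `p` to the cut point in the direction `v` -/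
def SDist.PV (p : M) (v : Eu n) : Submodule ℝ (Eu n) :=
  if v = 0 then ⊥ else Submodule.span ℝ (𝒜.Lam p (𝒜.Ex p (rad π v)))

theorem PV_zero (p : M) : 𝒜.PV p 0 = ⊥ := by
  unfold SDist.PV
  rw [if_pos rfl]

theorem PV_ne (p : M) {v : Eu n} (hv : v ≠ 0) : 𝒜.PV p v = Submodule.span ℝ (𝒜.Lam p (𝒜.Ex p (rad π v))) := by
  unfold SDist.PV
  rw [if_neg hv]

theorem dist_rad (hB : Bl M) (p : M) {v : Eu n} (hv : v ≠ 0) : dist (𝒜.Ex p (rad π v)) p = π := by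
  rw [kc_dist' 𝒜 hB p hv (by rw [abs_of_pos Real.pi_pos]), abs_of_pos Real.pi_pos]

/-- a subspace is determined by its unit sphere -/
theorem pol_eq_of_sphere {V W : Submodule ℝ (Eu n)}
    (h : {w : Eu n | w ∈ V ∧ ‖w‖ = 1} = {w : Eu n | w ∈ W ∧ ‖w‖ = 1}) : V = W := by
  have key : ∀ V W : Submodule ℝ (Eu n), {w : Eu n | w ∈ V ∧ ‖w‖ = 1} = {w : Eu n | w ∈ W ∧ ‖w‖ = 1} → V ≤ W := by
    intro V W h w hw
    by_cases h0 : w = 0
    · rw [h0]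
      exact W.zero_mem
    · have h1 : ‖w‖⁻¹ • w ∈ {w : Eu n | w ∈ V ∧ ‖w‖ = 1} := ⟨V.smul_mem _ hw, norm_normalize h0⟩
      rw [h] at h1
      exact (W.smul_mem_iff (inv_ne_zero (norm_ne_zero_iff.2 h0))).1 h1.1
  exact le_antisymm (key _ _ h) (key _ _ h.symm)

theorem PV_spec (hB : Bl M) (p : M) {v : Eu n} (hv : v ≠ 0) :
    𝒜.Lam p (𝒜.Ex p (rad π v)) = {w | w ∈ 𝒜.PV p v ∧ ‖w‖ = 1} := by
  obtain ⟨V, hV, u, hu⟩ := exists_submodule_Lam 𝒜 hB (dist_rad 𝒜 hB p hv)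
  have h1 : Submodule.span ℝ (𝒜.Lam p (𝒜.Ex p (rad π v))) = V := by
    apply le_antisymm
    · rw [Submodule.span_le]
      intro w hw
      rw [hV] at hw
      exact hw.1
    · intro w hw
      by_cases h0 : w = 0
      · rw [h0]
        exact Submodule.zero_mem _
      · have h2 : ‖w‖⁻¹ • w ∈ 𝒜.Lam p (𝒜.Ex p (rad π v)) := by
          rw [hV]
          exact ⟨V.smul_mem _ hw, norm_normalize h0⟩
        exact (Submodule.smul_mem_iff _ (inv_ne_zero (norm_ne_zero_iff.2 h0))).1 (Submodule.subset_span h2)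
  rw [PV_ne 𝒜 p hv, h1]
  exact hV

theorem mem_PV_iff (hB : Bl M) (p : M) {v w : Eu n} (hv : v ≠ 0) (hw : w ≠ 0) :
    w ∈ 𝒜.PV p v ↔ 𝒜.Ex p (rad π w) = 𝒜.Ex p (rad π v) := by
  rw [kc_Ex 𝒜 hB p hw]
  have hr : ‖w‖⁻¹ ≠ 0 := inv_ne_zero (norm_ne_zero_iff.mpr hw)
  have h := PV_spec 𝒜 hB p hv
  constructor
  · intro h1
    have h2 : ‖w‖⁻¹ • w ∈ 𝒜.Lam p (𝒜.Ex p (rad π v)) := by
      rw [h]
      exact ⟨Submodule.smul_mem _ _ h1, norm_normalize hw⟩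
    exact h2.2
  · intro h1
    have h2 : ‖w‖⁻¹ • w ∈ 𝒜.Lam p (𝒜.Ex p (rad π v)) := ⟨norm_normalize hw, h1⟩
    rw [h] at h2
    exact (Submodule.smul_mem_iff _ hr).1 h2.1

theorem mem_PV_self (hB : Bl M) (p : M) (v : Eu n) : v ∈ 𝒜.PV p v := by
  by_cases hv : v = 0
  · rw [hv]
    exact Submodule.zero_mem _
  · exact (mem_PV_iff 𝒜 hB p hv hv).2 rfl

theorem PV_eq_of_mem (hB : Bl M) (p : M) {v w : Eu n} (h : w ∈ 𝒜.PV p v) (hw : w ≠ 0) : 𝒜.PV p w = 𝒜.PV p v := by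
  have hv : v ≠ 0 := by
    intro hv
    rw [hv, PV_zero] at h
    exact hw ((Submodule.mem_bot ℝ).1 h)
  rw [PV_ne 𝒜 p hv, PV_ne 𝒜 p hw, (mem_PV_iff 𝒜 hB p hv hw).1 h]

theorem finrank_PV (hB : Bl M) {κ : ℕ} (hk : 𝒜.HK κ) (p : M) {v : Eu n} (hv : v ≠ 0) :
    Module.finrank ℝ (𝒜.PV p v) = κ + 1 := by
  obtain ⟨V, hV, hd⟩ := finrank_Lam 𝒜 hB hk (dist_rad 𝒜 hB p hv)
  rw [PV_spec 𝒜 hB p hv] at hV
  rw [pol_eq_of_sphere hV, hd]

theorem PV_smul (hB : Bl M) (p : M) {r : ℝ} (hr : r ≠ 0) (v : Eu n) : 𝒜.PV p (r • v) = 𝒜.PV p v := by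
  by_cases hv : v = 0
  · rw [hv, smul_zero]
  · exact PV_eq_of_mem 𝒜 hB p (Submodule.smul_mem _ _ (mem_PV_self 𝒜 hB p v)) (smul_ne_zero hr hv)

end Pool.Agent.Lib.MP_ccbbf6_gt.Geo
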