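import Pool.Agent.Lib.MP_ccbbf6_gt.Geo.EQa

/-!
# PolB: the norm of the derivative of the exponential map, up to and including distance `π` (helper79)
-/

set_option autoImplicit false

open Set Filter Topology Metric Real
open scoped ContDiff RealInnerProductSpace

noncomputable section

namespace Pool.Agent.Lib.MP_ccbbf6_gt.Geo

variable {n : ℕ} {M : Type*} [MetricSpace M] [CompactSpace M] (𝒜 : SDist n M)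

/-- the norm of `D Ex` is continuous -/
theorem continuous_norm_DE (hB : Bl M) (p : M) (η : Eu n) : Continuous fun ξ => ‖𝒜.DE p ξ η‖ ^ 2 := by
  rw [continuous_iff_continuousAt]
  intro ξ₀
  obtain ⟨q, hq⟩ : ∃ q, q = 𝒜.Ex p ξ₀ := ⟨_, rfl⟩
  obtain ⟨Φ, hΦ⟩ : ∃ Φ : Eu n → Eu n, Φ = fun η => 𝒜.ψ q (𝒜.Ex p η) := ⟨_, rfl⟩
  have hΦs : ContDiffAt ℝ ∞ Φ ξ₀ := by
    rw [hΦ]
    exact contDiffAt_Ex 𝒜 hB p ξ₀ (by rw [← hq]; exact 𝒜.mem q)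
  have hΦ0 : Φ ξ₀ = 0 := by
    rw [hΦ]
    show 𝒜.ψ q (𝒜.Ex p ξ₀) = 0
    rw [← hq]
    exact 𝒜.zero q
  have ht : Tendsto (fun ξ => (Φ ξ, Φ ξ)) (𝓝 ξ₀) (𝓝 (0, 0)) := by
    have := hΦs.continuousAt.tendsto
    rw [hΦ0] at this
    exact this.prodMk_nhds this
  have e1 : ∀ᶠ ξ in 𝓝 ξ₀, 𝒜.Ex p ξ ∈ (𝒜.ψ q).source :=
    (continuous_Ex 𝒜 hB p).continuousAt.eventually ((𝒜.ψ q).open_source.mem_nhds (by rw [← hq]; exact 𝒜.mem q))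
  have key : ∀ᶠ ξ in 𝓝 ξ₀, ‖𝒜.DE p ξ η‖ ^ 2 =
      -fderiv ℝ (fderiv ℝ (𝒜.F q q)) (Φ ξ, Φ ξ) (fderiv ℝ Φ ξ η, 0) (0, fderiv ℝ Φ ξ η) := by
    filter_upwards [e1, ht.eventually (F_diag_eventually 𝒜 q)] with ξ h1 h2
    have hΦξ : 𝒜.ψ q (𝒜.Ex p ξ) = Φ ξ := by rw [hΦ]
    have h3 := D2F_ch 𝒜 (p := 𝒜.Ex p ξ) (q := 𝒜.Ex p ξ) (r := q) (r' := q) h1 h1
      (by rw [hΦξ]; exact h2.of_le two_le_infty) (𝒜.DE p ξ η) (𝒜.DE p ξ η)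
    rw [D2F_diag, hΦξ] at h3
    have h4 : fderiv ℝ (𝒜.ch q (𝒜.Ex p ξ)) 0 (𝒜.DE p ξ η) = fderiv ℝ Φ ξ η := by
      have k1 := hasFDerivAt_DE 𝒜 hB p ξ
      have k2 : HasFDerivAt (𝒜.ch q (𝒜.Ex p ξ)) (fderiv ℝ (𝒜.ch q (𝒜.Ex p ξ)) 0)
          (𝒜.ψ (𝒜.Ex p ξ) (𝒜.Ex p ξ)) := by
        rw [𝒜.zero]
        exact ((contDiffAt_ch 𝒜 h1).differentiableAt (by simp)).hasFDerivAt
      have k3 := k2.comp ξ k1
      have k4 : HasFDerivAt Φ ((fderiv ℝ (𝒜.ch q (𝒜.Ex p ξ)) 0).comp (𝒜.DE p ξ)) ξ := by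
        refine k3.congr_of_eventuallyEq ?_
        have k5 : ∀ᶠ ζ in 𝓝 ξ, 𝒜.Ex p ζ ∈ (𝒜.ψ (𝒜.Ex p ξ)).source :=
          (continuous_Ex 𝒜 hB p).continuousAt.eventually ((𝒜.ψ _).open_source.mem_nhds (𝒜.mem _))
        filter_upwards [k5] with ζ hζ
        rw [hΦ]
        show 𝒜.ψ q (𝒜.Ex p ζ) = 𝒜.ψ q ((𝒜.ψ (𝒜.Ex p ξ)).symm (𝒜.ψ (𝒜.Ex p ξ) (𝒜.Ex p ζ)))
        rw [(𝒜.ψ (𝒜.Ex p ξ)).left_inv hζ]
      rw [k4.fderiv]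
      rfl
    rw [h4] at h3
    rw [← h3]
    simp only [sub_zero, zero_sub, inner_neg_right, neg_neg]
    exact (real_inner_self_eq_norm_sq _).symm
  have c : ContinuousAt (fun ξ => -fderiv ℝ (fderiv ℝ (𝒜.F q q)) (Φ ξ, Φ ξ) (fderiv ℝ Φ ξ η, 0)
      (0, fderiv ℝ Φ ξ η)) ξ₀ := by
    have hF : ContDiffAt ℝ ∞ (𝒜.F q q) ((0 : Eu n), (0 : Eu n)) := (F_diag_eventually 𝒜 q).self_of_nhds
    have hF1 : ContDiffAt ℝ 1 (fderiv ℝ (𝒜.F q q)) ((0 : Eu n), (0 : Eu n)) :=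
      hF.fderiv_right (m := 1) (by norm_num; exact two_le_infty)
    have hF2 : ContDiffAt ℝ 0 (fderiv ℝ (fderiv ℝ (𝒜.F q q))) ((0 : Eu n), (0 : Eu n)) :=
      hF1.fderiv_right (m := 0) (by norm_num)
    have hFc : ContinuousAt (fderiv ℝ (fderiv ℝ (𝒜.F q q))) (Φ ξ₀, Φ ξ₀) := by
      rw [hΦ0]
      exact hF2.continuousAt
    have c1 : ContinuousAt (fun ξ => fderiv ℝ (fderiv ℝ (𝒜.F q q)) (Φ ξ, Φ ξ)) ξ₀ :=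
      hFc.comp (f := fun ξ => (Φ ξ, Φ ξ)) (hΦs.continuousAt.prodMk hΦs.continuousAt)
    have c2 : ContinuousAt (fun ξ => fderiv ℝ Φ ξ η) ξ₀ :=
      ((hΦs.fderiv_right (m := 0) (by norm_num)).continuousAt).clm_apply continuousAt_const
    exact ((c1.clm_apply (c2.prodMk continuousAt_const)).clm_apply (continuousAt_const.prodMk c2)).neg
  exact c.congr (key.mono fun ξ h => h.symm)

/-- the polar form of the metric, `0 < t < π` -/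
theorem norm_DE_lt (hB : Bl M) (p : M) {v : Eu n} (hv : ‖v‖ = 1) {V : Submodule ℝ (Eu n)}
    (hG : 𝒜.Gram (𝒜.gv p v) V) {t : ℝ} (h0 : 0 < t) (h1 : t < π) (η : Eu n) :
    t ^ 2 * ‖𝒜.DE p (t • v) η‖ ^ 2 = t ^ 2 * ⟪v, η⟫ ^ 2 +
      Real.sin t ^ 2 * ‖V.starProjection (η - ⟪v, η⟫ • v)‖ ^ 2 +
      4 * Real.sin (t / 2) ^ 2 * ‖(η - ⟪v, η⟫ • v) - V.starProjection (η - ⟪v, η⟫ • v)‖ ^ 2 := by
  obtain ⟨hc, hc0, hcv⟩ := gv_spec 𝒜 hB p hv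
  obtain ⟨w, hw⟩ : ∃ w, w = η - ⟪v, η⟫ • v := ⟨_, rfl⟩
  have hvw : ⟪v, w⟫ = 0 := by
    rw [hw, inner_sub_right, inner_smul_right, real_inner_self_eq_norm_sq, hv]
    ring
  have h2 := Gram.polar 𝒜 hB hc hG h0 h1 (w := w) (by rw [hcv]; exact hvw)
  have h3 := gauss_DE 𝒜 hB hc h0 h1 w
  rw [hc0, hcv] at h2 h3
  rw [hvw] at h3
  have h4 : 𝒜.DE p (t • v) η = ⟪v, η⟫ • 𝒜.vel (𝒜.gv p v) t + 𝒜.DE p (t • v) w := by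
    rw [← vel_gv 𝒜 hB p hv t, ← map_smul, ← map_add, hw]
    congr 1
    abel
  have h5 : ‖𝒜.DE p (t • v) η‖ ^ 2 = ⟪v, η⟫ ^ 2 + ‖𝒜.DE p (t • v) w‖ ^ 2 := by
    rw [h4, norm_add_sq_real, inner_smul_left, h3, norm_smul, (hc.exists_vel 𝒜 t).1, mul_one, Real.norm_eq_abs,
      sq_abs]
    simp
  rw [h5, ← hw, mul_add, h2]
  ring

/-- the polar form of the metric, `0 < t ≤ π` -/
theorem norm_DE_le (hB : Bl M) (p : M) {v : Eu n} (hv : ‖v‖ = 1) {V : Submodule ℝ (Eu n)}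
    (hG : 𝒜.Gram (𝒜.gv p v) V) {t : ℝ} (h0 : 0 < t) (h1 : t ≤ π) (η : Eu n) :
    t ^ 2 * ‖𝒜.DE p (t • v) η‖ ^ 2 = t ^ 2 * ⟪v, η⟫ ^ 2 +
      Real.sin t ^ 2 * ‖V.starProjection (η - ⟪v, η⟫ • v)‖ ^ 2 +
      4 * Real.sin (t / 2) ^ 2 * ‖(η - ⟪v, η⟫ • v) - V.starProjection (η - ⟪v, η⟫ • v)‖ ^ 2 := by
  rcases h1.lt_or_eq with h1 | h1
  · exact norm_DE_lt 𝒜 hB p hv hG h0 h1 η
  rw [h1]
  have hcont : Continuous fun t : ℝ => t ^ 2 * ‖𝒜.DE p (t • v) η‖ ^ 2 :=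
    (continuous_id.pow 2).mul ((continuous_norm_DE 𝒜 hB p η).comp (continuous_id.smul continuous_const))
  have hcont2 : Continuous fun t : ℝ => t ^ 2 * ⟪v, η⟫ ^ 2 +
      Real.sin t ^ 2 * ‖V.starProjection (η - ⟪v, η⟫ • v)‖ ^ 2 +
      4 * Real.sin (t / 2) ^ 2 * ‖(η - ⟪v, η⟫ • v) - V.starProjection (η - ⟪v, η⟫ • v)‖ ^ 2 := by
    fun_prop
  have k1 := (hcont.continuousAt (x := π)).tendsto.mono_left (nhdsWithin_le_nhds (s := Iio π))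
  have k2 := (hcont2.continuousAt (x := π)).tendsto.mono_left (nhdsWithin_le_nhds (s := Iio π))
  refine tendsto_nhds_unique (k1.congr' ?_) k2
  filter_upwards [Ioo_mem_nhdsLT pi_pos] with t ht
  exact norm_DE_lt 𝒜 hB p hv hG ht.1 ht.2 η

/-- first order expansion of the distance -/
theorem dist_DE (hB : Bl M) (p : M) (x : Eu n) {ε : ℝ} (hε : 0 < ε) : ∀ᶠ η in 𝓝 (0 : Eu n),
    |dist (𝒜.Ex p x) (𝒜.Ex p (x + η)) - ‖𝒜.DE p x η‖| ≤ ε * ‖η‖ := by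
  obtain ⟨q, hq⟩ : ∃ q, q = 𝒜.Ex p x := ⟨_, rfl⟩
  obtain ⟨D, hD⟩ : ∃ D : Eu n →L[ℝ] Eu n, D = 𝒜.DE p x := ⟨_, rfl⟩
  have h1 := hasFDerivAt_DE 𝒜 hB p x
  rw [← hq, ← hD] at h1
  rw [hasFDerivAt_iff_isLittleO_nhds_zero] at h1
  rw [← hD, ← hq]
  have hK : 0 < ‖D‖ + 1 := by positivity
  obtain ⟨ε₁, hε₁, hε₁'⟩ : ∃ ε₁ : ℝ, 0 < ε₁ ∧ ε₁ * (‖D‖ + 1) ≤ ε / 2 :=
    ⟨ε / 2 / (‖D‖ + 1), by positivity, by rw [div_mul_cancel₀ _ hK.ne']⟩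
  have hε₂ : 0 < min 1 (ε / 2) := by positivity
  have h2 := h1.bound hε₂
  have hΦt : Tendsto (fun η => (𝒜.ψ q) (𝒜.Ex p (x + η))) (𝓝 0) (𝓝 0) := by
    have k1 : ContinuousAt (fun η => 𝒜.ψ q (𝒜.Ex p η)) x := by
      rw [hq]
      exact (contDiffAt_Ex 𝒜 hB p x (𝒜.mem _)).continuousAt
    have k2 : Tendsto (fun η : Eu n => x + η) (𝓝 0) (𝓝 x) := by
      have h : Tendsto (fun η : Eu n => x + η) (𝓝 0) (𝓝 (x + 0)) :=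
        (continuous_const.add continuous_id : Continuous fun η : Eu n => x + η).tendsto (0 : Eu n)
      rwa [add_zero] at h
    have k3 := k1.tendsto.comp k2
    rw [← hq, 𝒜.zero] at k3
    exact k3
  have hsrc : ∀ᶠ η in 𝓝 (0 : Eu n), 𝒜.Ex p (x + η) ∈ (𝒜.ψ q).source := by
    have k1 : ContinuousAt (fun η : Eu n => 𝒜.Ex p (x + η)) 0 :=
      ((continuous_Ex 𝒜 hB p).comp (continuous_const.add continuous_id)).continuousAt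
    refine k1.eventually ((𝒜.ψ q).open_source.mem_nhds ?_)
    show 𝒜.Ex p (x + 0) ∈ (𝒜.ψ q).source
    rw [add_zero, ← hq]
    exact 𝒜.mem q
  have hpair : Tendsto (fun η => ((0 : Eu n), (𝒜.ψ q) (𝒜.Ex p (x + η)))) (𝓝 0) (𝓝 (0, 0)) :=
    tendsto_const_nhds.prodMk_nhds hΦt
  filter_upwards [h2, hpair.eventually (𝒜.metric q ε₁ hε₁), hsrc] with η h3 h4 h5
  have h6 : 𝒜.ψ q q = 0 := 𝒜.zero q
  have h3' : ‖𝒜.ψ q (𝒜.Ex p (x + η)) - D η‖ ≤ min 1 (ε / 2) * ‖η‖ := by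
    have e : 𝒜.ψ q (𝒜.Ex p (x + η)) - 𝒜.ψ q (𝒜.Ex p x) - D η = 𝒜.ψ q (𝒜.Ex p (x + η)) - D η := by
      rw [← hq, h6, sub_zero]
    rw [← e]
    exact h3
  simp only [symm_zero, (𝒜.ψ q).left_inv h5, zero_sub, norm_neg] at h4
  obtain ⟨y, hy⟩ : ∃ y, y = 𝒜.ψ q (𝒜.Ex p (x + η)) := ⟨_, rfl⟩
  rw [← hy] at h3' h4
  have h7 : |‖y‖ - ‖D η‖| ≤ min 1 (ε / 2) * ‖η‖ := (abs_norm_sub_norm_le _ _).trans h3'
  have h8 : ‖D η‖ ≤ ‖D‖ * ‖η‖ := D.le_opNorm η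
  have h9 : min 1 (ε / 2) ≤ 1 := min_le_left _ _
  have h10 : min 1 (ε / 2) ≤ ε / 2 := min_le_right _ _
  have hη : 0 ≤ ‖η‖ := norm_nonneg η
  have h11 : ‖y‖ ≤ (‖D‖ + 1) * ‖η‖ := by
    have := (abs_le.1 h7).2
    nlinarith
  have h12 : ε₁ * ‖y‖ ≤ ε / 2 * ‖η‖ := by
    calc ε₁ * ‖y‖ ≤ ε₁ * ((‖D‖ + 1) * ‖η‖) := mul_le_mul_of_nonneg_left h11 hε₁.le
      _ = ε₁ * (‖D‖ + 1) * ‖η‖ := by ring
      _ ≤ ε / 2 * ‖η‖ := mul_le_mul_of_nonneg_right hε₁' hη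
  calc |dist q (𝒜.Ex p (x + η)) - ‖D η‖| = |(dist q (𝒜.Ex p (x + η)) - ‖y‖) + (‖y‖ - ‖D η‖)| := by congr 1; ring
    _ ≤ |dist q (𝒜.Ex p (x + η)) - ‖y‖| + |‖y‖ - ‖D η‖| := abs_add_le _ _
    _ ≤ ε / 2 * ‖η‖ + ε / 2 * ‖η‖ := add_le_add (h4.trans h12) (h7.trans (mul_le_mul_of_nonneg_right h10 hη))
    _ = ε * ‖η‖ := by ring

end Pool.Agent.Lib.MP_ccbbf6_gt.Geo
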