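import Pool.Agent.Lib.MP_ccbbf6_gt.Cls.PolA
import Pool.Agent.Lib.MP_ccbbf6_gt.Cls.PolB

/-!
# PolC: the subspace of the equality case is `PV p v ∩ v⊥` (helper79)
-/

set_option autoImplicit false

open Set Filter Topology Metric Real
open scoped ContDiff RealInnerProductSpace

noncomputable section

namespace Pool.Agent.Lib.MP_ccbbf6_gt.Geo

variable {n : ℕ} {M : Type*} [MetricSpace M] [CompactSpace M] (𝒜 : SDist n M)

/-- the derivative of the radial projection at a unit vector, in an orthogonal direction -/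
theorem fderiv_rad_orth (s : ℝ) {v a : Eu n} (hv : ‖v‖ = 1) (ha : ⟪v, a⟫ = 0) : fderiv ℝ (rad s) v a = s • a := by
  have hne : v ≠ 0 := kc_ne hv
  have h1 : HasFDerivAt (rad s) (fderiv ℝ (rad s) v) ((fun τ : ℝ => v + τ • a) 0) := by
    have : (fun τ : ℝ => v + τ • a) 0 = v := by simp
    rw [this]
    exact ((contDiffAt_rad s hne).differentiableAt (by simp)).hasFDerivAt
  have h2 : HasDerivAt (fun τ : ℝ => v + τ • a) a 0 := by
    have := ((hasDerivAt_id (0 : ℝ)).smul_const a).const_add v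
    rwa [one_smul] at this
  have h3 := h1.comp_hasDerivAt (0 : ℝ) h2
  -- the other computation
  have h4 : HasDerivAt (fun τ : ℝ => ‖v + τ • a‖ ^ 2) 0 0 := by
    have e : (fun τ : ℝ => ‖v + τ • a‖ ^ 2) = fun τ => 1 + τ ^ 2 * ‖a‖ ^ 2 := by
      funext τ
      rw [norm_add_sq_real, inner_smul_right, ha, norm_smul, mul_pow, hv, Real.norm_eq_abs, sq_abs]
      ring
    rw [e]
    have := (((hasDerivAt_id (0 : ℝ)).pow 2).mul_const (‖a‖ ^ 2)).const_add 1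
    simpa using this
  have h5 : HasDerivAt (fun τ : ℝ => ‖v + τ • a‖) 0 0 := by
    have e : (fun τ : ℝ => ‖v + τ • a‖) = fun τ => √(‖v + τ • a‖ ^ 2) := by
      funext τ
      rw [Real.sqrt_sq (norm_nonneg _)]
    rw [e]
    have := h4.sqrt (by simp [hv])
    simpa using this
  have h6 : HasDerivAt (fun τ : ℝ => s / ‖v + τ • a‖) 0 0 := by
    have h := (hasDerivAt_const (0 : ℝ) s).div h5 (by simp [hv])
    have e : (0 * ‖v + (0 : ℝ) • a‖ - s * 0) / ‖v + (0 : ℝ) • a‖ ^ 2 = 0 := by simp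
    rw [e] at h
    exact h
  have h7 : HasDerivAt (fun τ : ℝ => (s / ‖v + τ • a‖) • (v + τ • a)) (s • a) 0 := by
    have h := h6.smul h2
    have e : (s / ‖v + (0 : ℝ) • a‖) • a + (0 : ℝ) • (v + (0 : ℝ) • a) = s • a := by
      rw [zero_smul, zero_smul, add_zero, add_zero, hv, div_one]
    rw [e] at h
    exact h
  exact h3.unique h7

/-- the derivative of `X` at `v` in an orthogonal direction -/
theorem fderiv_X_orth (hB : Bl M) (p : M) {v a : Eu n} (hv : ‖v‖ = 1) (ha : ⟪v, a⟫ = 0) (s : ℝ) :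
    fderiv ℝ (𝒜.X p (𝒜.gv p v s) s) v a = s • 𝒜.DE p (s • v) a := by
  have hne : v ≠ 0 := kc_ne hv
  have h1 := hasFDerivAt_DE 𝒜 hB p (rad s v)
  have h2 : HasFDerivAt (rad s) (fderiv ℝ (rad s) v) v := ((contDiffAt_rad s hne).differentiableAt (by simp)).hasFDerivAt
  have h3 := h1.comp v h2
  have h4 : (fun η => 𝒜.ψ (𝒜.Ex p (rad s v)) (𝒜.Ex p η)) ∘ rad s = 𝒜.X p (𝒜.gv p v s) s := by
    funext w
    show 𝒜.ψ (𝒜.Ex p (rad s v)) (𝒜.Ex p (rad s w)) = 𝒜.ψ (𝒜.gv p v s) (𝒜.Ex p (rad s w))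
    rw [kc_gv 𝒜 hv hB]
  rw [h4] at h3
  rw [h3.fderiv]
  show 𝒜.DE p (rad s v) (fderiv ℝ (rad s) v a) = s • 𝒜.DE p (s • v) a
  rw [fderiv_rad_orth s hv ha, rad_unit s hv, map_smul]

/-- `PV p v` is contained in the kernel of the derivative of `X` -/
theorem PV_le_ker (hB : Bl M) (p : M) {v : Eu n} (hv : ‖v‖ = 1) {a : Eu n} (ha : a ∈ 𝒜.PV p v) :
    fderiv ℝ (𝒜.X p (𝒜.gv p v π) π) v a = 0 := by
  have hne : v ≠ 0 := kc_ne hv
  have h1 := hasFDerivAt_X 𝒜 (q := p) hv hB π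
  have hline : HasDerivAt (fun τ : ℝ => v + τ • a) a 0 := by
    have := ((hasDerivAt_id (0 : ℝ)).smul_const a).const_add v
    rwa [one_smul] at this
  have hline0 : (fun τ : ℝ => v + τ • a) 0 = v := by simp
  have h1' : HasFDerivAt (𝒜.X p (𝒜.gv p v π) π) (fderiv ℝ (𝒜.X p (𝒜.gv p v π) π) v) ((fun τ : ℝ => v + τ • a) 0) := by
    rw [hline0]
    exact h1
  have h2 := h1'.comp_hasDerivAt (0 : ℝ) hline
  have h3 : HasDerivAt (𝒜.X p (𝒜.gv p v π) π ∘ fun τ : ℝ => v + τ • a) 0 0 := by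
    refine (hasDerivAt_const (0 : ℝ) (0 : Eu n)).congr_of_eventuallyEq ?_
    have h4 : Tendsto (fun τ : ℝ => v + τ • a) (𝓝 0) (𝓝 v) := by
      have := hline.continuousAt.tendsto
      rwa [zero_smul, add_zero] at this
    filter_upwards [h4.eventually (isOpen_ne.mem_nhds hne)] with τ hτ
    show 𝒜.X p (𝒜.gv p v π) π (v + τ • a) = 0
    unfold SDist.X
    have h5 : v + τ • a ∈ 𝒜.PV p v := Submodule.add_mem _ (mem_PV_self 𝒜 hB p v) (Submodule.smul_mem _ _ ha)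
    rw [(mem_PV_iff 𝒜 hB p hne hτ).1 h5, kc_gv 𝒜 hv hB, 𝒜.zero]
  exact h2.unique h3

theorem mem_PV_iff_ker (hB : Bl M) {κ : ℕ} (hk : 𝒜.HK κ) (p : M) {v : Eu n} (hv : ‖v‖ = 1) (a : Eu n) :
    a ∈ 𝒜.PV p v ↔ fderiv ℝ (𝒜.X p (𝒜.gv p v π) π) v a = 0 := by
  have h1 : 𝒜.PV p v = LinearMap.ker (fderiv ℝ (𝒜.X p (𝒜.gv p v π) π) v : Eu n →ₗ[ℝ] Eu n) := by
    apply Submodule.eq_of_le_of_finrank_eq
    · intro a ha
      exact PV_le_ker 𝒜 hB p hv ha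
    · rw [finrank_PV 𝒜 hB hk p (kc_ne hv), finrank_ker_X 𝒜 hB hk hv]
  rw [h1]
  exact LinearMap.mem_ker

/-- the subspace of the equality case -/
theorem mem_gram_iff (hB : Bl M) {κ : ℕ} (hk : 𝒜.HK κ) (p : M) {v : Eu n} (hv : ‖v‖ = 1) {V : Submodule ℝ (Eu n)}
    (hG : 𝒜.Gram (𝒜.gv p v) V) {w : Eu n} (hw : ⟪v, w⟫ = 0) : w ∈ V ↔ w ∈ 𝒜.PV p v := by
  rw [mem_PV_iff_ker 𝒜 hB hk p hv, fderiv_X_orth 𝒜 hB p hv hw, smul_eq_zero, or_iff_right pi_ne_zero]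
  have h1 := norm_DE_le 𝒜 hB p hv hG pi_pos le_rfl w
  rw [hw, Real.sin_pi, Real.sin_pi_div_two, zero_smul, sub_zero] at h1
  have hπ : (π : ℝ) ^ 2 ≠ 0 := pow_ne_zero 2 pi_ne_zero
  constructor
  · intro h
    rw [Submodule.starProjection_eq_self_iff.2 h, sub_self, norm_zero] at h1
    have h2 : π ^ 2 * ‖𝒜.DE p (π • v) w‖ ^ 2 = 0 := by
      rw [h1]
      ring
    exact norm_eq_zero.1 (pow_eq_zero_iff two_ne_zero |>.1 ((mul_eq_zero.1 h2).resolve_left hπ))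
  · intro h
    rw [h, norm_zero] at h1
    have h2 : ‖w - V.starProjection w‖ ^ 2 = 0 := by linarith
    have h3 : w = V.starProjection w := sub_eq_zero.1 (norm_eq_zero.1 (pow_eq_zero_iff two_ne_zero |>.1 h2))
    rw [h3]
    exact V.starProjection_apply_mem w

/-- the projection on the subspace of the equality case -/
theorem proj_gram (hB : Bl M) {κ : ℕ} (hk : 𝒜.HK κ) (p : M) {v : Eu n} (hv : ‖v‖ = 1) {V : Submodule ℝ (Eu n)}
    (hG : 𝒜.Gram (𝒜.gv p v) V) (η : Eu n) :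
    V.starProjection (η - ⟪v, η⟫ • v) = (𝒜.PV p v).starProjection η - ⟪v, η⟫ • v := by
  obtain ⟨hc, hc0, hcv⟩ := gv_spec 𝒜 hB p hv
  have hV : ∀ a ∈ V, ⟪v, a⟫ = 0 := by
    intro a ha
    have := hG.1 a ha
    rwa [hcv] at this
  have hvP : v ∈ 𝒜.PV p v := mem_PV_self 𝒜 hB p v
  have hvv : ⟪v, v⟫ = (1 : ℝ) := by rw [real_inner_self_eq_norm_sq, hv, one_pow]
  have horth : ⟪v, (𝒜.PV p v).starProjection η - ⟪v, η⟫ • v⟫ = 0 := by
    rw [inner_sub_right, inner_smul_right, hvv, ← Submodule.inner_starProjection_left_eq_right,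
      Submodule.starProjection_eq_self_iff.2 hvP]
    ring
  have hmem : (𝒜.PV p v).starProjection η - ⟪v, η⟫ • v ∈ V := by
    rw [mem_gram_iff 𝒜 hB hk p hv hG horth]
    exact Submodule.sub_mem _ (Submodule.starProjection_apply_mem _ _) (Submodule.smul_mem _ _ hvP)
  refine Submodule.eq_starProjection_of_mem_of_inner_eq_zero hmem ?_
  intro y hy
  have hyP : y ∈ 𝒜.PV p v := (mem_gram_iff 𝒜 hB hk p hv hG (hV y hy)).1 hy
  have h1 : η - ⟪v, η⟫ • v - ((𝒜.PV p v).starProjection η - ⟪v, η⟫ • v) = η - (𝒜.PV p v).starProjection η := by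
    abel
  rw [h1]
  exact Submodule.starProjection_inner_eq_zero _ _ hyP

/-- **The polar form of the metric**, `0 < t ≤ π`. -/
theorem norm_DE (hB : Bl M) {κ : ℕ} (hk : 𝒜.HK κ) (hG : ∀ c : ℝ → M, IsGeo c → ∃ V, 𝒜.Gram c V) (p : M)
    {v : Eu n} (hv : ‖v‖ = 1) {t : ℝ} (h0 : 0 < t) (h1 : t ≤ π) (η : Eu n) :
    t ^ 2 * ‖𝒜.DE p (t • v) η‖ ^ 2 = t ^ 2 * ⟪v, η⟫ ^ 2 +
      Real.sin t ^ 2 * ‖(𝒜.PV p v).starProjection η - ⟪v, η⟫ • v‖ ^ 2 +
      4 * Real.sin (t / 2) ^ 2 * ‖η - (𝒜.PV p v).starProjection η‖ ^ 2 := by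
  obtain ⟨V, hV⟩ := hG _ (gv_spec 𝒜 hB p hv).1
  rw [norm_DE_le 𝒜 hB p hv hV h0 h1 η, proj_gram 𝒜 hB hk p hv hV]
  congr 3
  congr 1
  abel

end Pool.Agent.Lib.MP_ccbbf6_gt.Geo
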