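import Pool.Agent.Lib.MP_ccbbf6_gt.Cls.PolC

/-!
# PolD: the norm of `D Ex` in closed form (helper79)
-/

set_option autoImplicit false

open Set Filter Topology Metric Real
open scoped ContDiff RealInnerProductSpace

noncomputable section

namespace Pool.Agent.Lib.MP_ccbbf6_gt.Geo

/-- the norm of a combination of the three components -/
theorem norm_comb {V : Type*} [NormedAddCommGroup V] [InnerProductSpace ℝ V] [FiniteDimensional ℝ V]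
    {P : Submodule ℝ V} {v : V} (hv : ‖v‖ = 1) (hP : v ∈ P) (a b : ℝ) (η : V) :
    ‖⟪v, η⟫ • v + a • (P.starProjection η - ⟪v, η⟫ • v) + b • (η - P.starProjection η)‖ ^ 2 =
      ⟪v, η⟫ ^ 2 + a ^ 2 * ‖P.starProjection η - ⟪v, η⟫ • v‖ ^ 2 + b ^ 2 * ‖η - P.starProjection η‖ ^ 2 := by
  have hvv : ⟪v, v⟫ = (1 : ℝ) := by rw [real_inner_self_eq_norm_sq, hv, one_pow]
  have h1 : ⟪v, P.starProjection η - ⟪v, η⟫ • v⟫ = 0 := by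
    rw [inner_sub_right, inner_smul_right, hvv, ← Submodule.inner_starProjection_left_eq_right,
      Submodule.starProjection_eq_self_iff.2 hP]
    ring
  have h2 : ∀ x ∈ P, ⟪x, η - P.starProjection η⟫ = 0 := by
    intro x hx
    rw [real_inner_comm]
    exact Submodule.starProjection_inner_eq_zero _ _ hx
  obtain ⟨x, hx⟩ : ∃ x, x = P.starProjection η - ⟪v, η⟫ • v := ⟨_, rfl⟩
  obtain ⟨y, hy⟩ : ∃ y, y = η - P.starProjection η := ⟨_, rfl⟩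
  have hxP : x ∈ P := by
    rw [hx]
    exact P.sub_mem (Submodule.starProjection_apply_mem _ _) (P.smul_mem _ hP)
  have h3 : ⟪v, y⟫ = 0 := by rw [hy]; exact h2 v hP
  have h4 : ⟪x, y⟫ = 0 := by rw [hy]; exact h2 x hxP
  rw [← hx] at h1
  rw [← hx, ← hy]
  rw [norm_add_sq_real, norm_add_sq_real, inner_add_left, inner_smul_left, inner_smul_left, inner_smul_left,
    inner_smul_right, inner_smul_right, inner_smul_right, h1, h3, h4, norm_smul, norm_smul, norm_smul, hv]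
  simp only [Real.norm_eq_abs, mul_pow, sq_abs]
  ring

variable {n : ℕ} {M : Type*} [MetricSpace M] [CompactSpace M] (𝒜 : SDist n M)

/-- **The norm of the derivative of the exponential map**, `0 < |x| ≤ π`. -/
theorem norm_DE_eq (hB : Bl M) {κ : ℕ} (hk : 𝒜.HK κ) (hG : ∀ c : ℝ → M, IsGeo c → ∃ V, 𝒜.Gram c V) (p : M)
    {x : Eu n} (hx : x ≠ 0) (hxπ : ‖x‖ ≤ π) (η : Eu n) :
    ‖𝒜.DE p x η‖ = ‖⟪‖x‖⁻¹ • x, η⟫ • (‖x‖⁻¹ • x) +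
        (Real.sin ‖x‖ / ‖x‖) • ((𝒜.PV p x).starProjection η - ⟪‖x‖⁻¹ • x, η⟫ • (‖x‖⁻¹ • x)) +
        (2 * Real.sin (‖x‖ / 2) / ‖x‖) • (η - (𝒜.PV p x).starProjection η)‖ := by
  obtain ⟨hv, hx2⟩ := exa_polar hx
  obtain ⟨v, hvdef⟩ : ∃ v, v = ‖x‖⁻¹ • x := ⟨_, rfl⟩
  have h0 : 0 < ‖x‖ := norm_pos_iff.2 hx
  rw [← hvdef] at hv hx2 ⊢
  have hPx : 𝒜.PV p x = 𝒜.PV p v := by
    rw [hvdef]
    exact (PV_smul 𝒜 hB p (inv_ne_zero h0.ne') x).symm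
  have h1 := norm_DE 𝒜 hB hk hG p hv h0 hxπ η
  rw [hx2] at h1
  have h2 := norm_comb hv (mem_PV_self 𝒜 hB p v) (Real.sin ‖x‖ / ‖x‖) (2 * Real.sin (‖x‖ / 2) / ‖x‖) η
  rw [hPx, ← sq_eq_sq₀ (norm_nonneg _) (norm_nonneg _), h2]
  have h3 : ‖x‖ ^ 2 ≠ 0 := pow_ne_zero 2 h0.ne'
  apply mul_left_cancel₀ h3
  rw [h1]
  field_simp
  ring

/-- the squared form (helper77's `Polar`, up to and including `π`) -/
theorem norm_DE_polar (hB : Bl M) {κ : ℕ} (hk : 𝒜.HK κ) (hG : ∀ c : ℝ → M, IsGeo c → ∃ V, 𝒜.Gram c V) (p : M)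
    {v : Eu n} (hv : ‖v‖ = 1) {t : ℝ} (h0 : 0 < t) (h1 : t ≤ π) (w : Eu n) :
    t ^ 2 * ‖𝒜.DE p (t • v) w‖ ^ 2 =
    t ^ 2 * ⟪v, w⟫ ^ 2 + Real.sin t ^ 2 * (‖(𝒜.PV p v).starProjection w‖ ^ 2 - ⟪v, w⟫ ^ 2) +
      4 * Real.sin (t / 2) ^ 2 * (‖w‖ ^ 2 - ‖(𝒜.PV p v).starProjection w‖ ^ 2) := by
  rw [norm_DE 𝒜 hB hk hG p hv h0 h1 w]
  have hP := mem_PV_self 𝒜 hB p v
  have h2 : ‖(𝒜.PV p v).starProjection w - ⟪v, w⟫ • v‖ ^ 2 = ‖(𝒜.PV p v).starProjection w‖ ^ 2 - ⟪v, w⟫ ^ 2 := by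
    rw [norm_sub_sq_real, inner_smul_right, norm_smul, hv, Submodule.inner_starProjection_left_eq_right,
      Submodule.starProjection_eq_self_iff.2 hP, real_inner_comm, mul_one, Real.norm_eq_abs, sq_abs]
    ring
  have h3 : ‖w - (𝒜.PV p v).starProjection w‖ ^ 2 = ‖w‖ ^ 2 - ‖(𝒜.PV p v).starProjection w‖ ^ 2 := by
    have h4 : ⟪w, (𝒜.PV p v).starProjection w⟫ = ‖(𝒜.PV p v).starProjection w‖ ^ 2 := by
      have h5 := Submodule.starProjection_inner_eq_zero (K := 𝒜.PV p v) w _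
        (Submodule.starProjection_apply_mem (𝒜.PV p v) w)
      rw [inner_sub_left, real_inner_self_eq_norm_sq] at h5
      linarith
    rw [norm_sub_sq_real, h4]
    ring
  rw [h2, h3]

/-! ## the geometric properties of the exponential map -/

theorem ep_surj (hB : Bl M) (p q : M) : ∃ x : Eu n, ‖x‖ ≤ π ∧ 𝒜.Ex p x = q := by
  obtain ⟨x, h1, h2⟩ := Ex_surj 𝒜 hB p q
  exact ⟨x, h1.trans_le (hB.diam p q), h2⟩

theorem ep_dist0 (hB : Bl M) (p : M) {x : Eu n} (hx : ‖x‖ ≤ π) : dist (𝒜.Ex p 0) (𝒜.Ex p x) = ‖x‖ := by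
  rw [Ex_zero 𝒜 hB]
  exact dist_Ex 𝒜 hB p hx

theorem ep_ray (hB : Bl M) (p : M) {x : Eu n} (hx : ‖x‖ = 1) {s t : ℝ} (h : |s - t| ≤ π) :
    dist (𝒜.Ex p (s • x)) (𝒜.Ex p (t • x)) = |s - t| := by
  rw [Ex_smul 𝒜 hB p hx, Ex_smul 𝒜 hB p hx]
  exact (gv_spec 𝒜 hB p hx).1 s t h

theorem ep_inj (hB : Bl M) (p : M) {x y : Eu n} (hx : ‖x‖ < π) (hy : ‖y‖ < π) (h : 𝒜.Ex p x = 𝒜.Ex p y) : x = y :=
  Ex_injOn 𝒜 hB p (mem_ball_zero_iff.2 hx) (mem_ball_zero_iff.2 hy) h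

theorem ep_cut (hB : Bl M) (p : M) {x y : Eu n} (hx : ‖x‖ = π) (hy : ‖y‖ = π) :
    𝒜.Ex p x = 𝒜.Ex p y ↔ y ∈ 𝒜.PV p x := by
  have hx0 : x ≠ 0 := by
    intro h
    rw [h, norm_zero] at hx
    exact pi_ne_zero hx.symm
  have hy0 : y ≠ 0 := by
    intro h
    rw [h, norm_zero] at hy
    exact pi_ne_zero hy.symm
  rw [mem_PV_iff 𝒜 hB p hx0 hy0]
  have e : ∀ z : Eu n, ‖z‖ = π → rad π z = z := by
    intro z hz
    unfold rad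
    rw [hz, div_self pi_ne_zero, one_smul]
  rw [e x hx, e y hy]
  exact eq_comm

theorem ep_metric (hB : Bl M) {κ : ℕ} (hk : 𝒜.HK κ) (hG : ∀ c : ℝ → M, IsGeo c → ∃ V, 𝒜.Gram c V) (p : M)
    {x : Eu n} (hx : x ≠ 0) (hxπ : ‖x‖ ≤ π) {ε : ℝ} (hε : 0 < ε) : ∀ᶠ η in 𝓝 (0 : Eu n),
    |dist (𝒜.Ex p x) (𝒜.Ex p (x + η)) - ‖⟪‖x‖⁻¹ • x, η⟫ • (‖x‖⁻¹ • x) +
        (Real.sin ‖x‖ / ‖x‖) • ((𝒜.PV p x).starProjection η - ⟪‖x‖⁻¹ • x, η⟫ • (‖x‖⁻¹ • x)) +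
        (2 * Real.sin (‖x‖ / 2) / ‖x‖) • (η - (𝒜.PV p x).starProjection η)‖| ≤ ε * ‖η‖ := by
  filter_upwards [dist_DE 𝒜 hB p x hε] with η h
  rwa [norm_DE_eq 𝒜 hB hk hG p hx hxπ] at h

end Pool.Agent.Lib.MP_ccbbf6_gt.Geo
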